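import Pool.Agent.Y729.AV.Defs

set_option autoImplicit false

/-! Specialisations of families over polynomial rings, and boxes of integral parameters. -/

namespace Pool.Agent.Y729.AV

open MvPolynomial NumberField

/-- The `L`-valued point of `Spec 𝓞_k[t_1, ..., t_M]` given by the parameter `v`. -/
noncomputable def special {k : Type} [Field k] {M : ℕ} (v : Fin M → 𝓞 k) (L : Type) [Field L]
    [Algebra k L] : MvPolynomial (Fin M) (𝓞 k) →+* L :=
  (algebraMap k L).comp ((algebraMap (𝓞 k) k).comp (eval v))

/-- The vectors of integers of `k` whose coordinates with respect to the integral basis `ω` are at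
most `H` in absolute value. -/
noncomputable def box {k : Type} [Field k] {J : Type} [Fintype J] (ω : Module.Basis J ℤ (𝓞 k))
    (M H : ℕ) : Finset (Fin M → 𝓞 k) := by
  classical
  exact (Fintype.piFinset fun _ : Fin M × J => Finset.Icc (-(H : ℤ)) H).image
    fun w i => ∑ j, w (i, j) • ω j

end Pool.Agent.Y729.AV
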