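import Pool.Agent.Y729.AV.Tail

set_option autoImplicit false
set_option linter.unusedSectionVars false

/-! Values of polynomials over rings of integers in prime ideals: exponential moments. -/

namespace Pool.Agent.Y729.AV

open MvPolynomial NumberField

section

variable {k : Type} [Field k] [NumberField k] {τ : Type} [Fintype τ] [DecidableEq τ]

/-- evaluation at integers -/
noncomputable def evi (P : MvPolynomial τ (𝓞 k)) (w : τ → ℤ) : 𝓞 k := eval (fun i => (w i : 𝓞 k)) P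

lemma norm_le (P : MvPolynomial τ (𝓞 k)) : ∃ (B : ℝ) (E : ℕ), 1 ≤ B ∧ ∀ (H : ℕ) (w : τ → ℤ),
    w ∈ bx τ H → (((Algebra.norm ℤ (evi P w)).natAbs : ℕ) : ℝ) ≤ B * (2 * H + 1) ^ E := by
  classical
  set d := P.totalDegree with hd
  set S : (k →ₐ[ℚ] ℂ) → ℝ := fun σ => 1 + ∑ m ∈ P.support, ‖σ (algebraMap (𝓞 k) k (coeff m P))‖
    with hS
  have hS1 : ∀ σ, 1 ≤ S σ := fun σ => by
    have : 0 ≤ ∑ m ∈ P.support, ‖σ (algebraMap (𝓞 k) k (coeff m P))‖ :=
      Finset.sum_nonneg fun m _ => norm_nonneg _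
    simp only [hS]
    linarith
  refine ⟨∏ σ, S σ, d * Fintype.card (k →ₐ[ℚ] ℂ), ?_, ?_⟩
  · exact Finset.prod_induction _ (fun x => 1 ≤ x)
      (fun a b ha hb => one_le_mul_of_one_le_of_one_le ha hb) le_rfl (fun σ _ => hS1 σ)
  · intro H w hw
    rw [mem_bx] at hw
    have h1 : (((Algebra.norm ℤ (evi P w)).natAbs : ℕ) : ℝ) =
        ∏ σ : k →ₐ[ℚ] ℂ, ‖σ (algebraMap (𝓞 k) k (evi P w))‖ := by
      have h2 := Algebra.norm_eq_prod_embeddings ℚ ℂ (algebraMap (𝓞 k) k (evi P w))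
      have h3 : ((Algebra.norm ℤ (evi P w) : ℤ) : ℚ) =
          Algebra.norm ℚ (algebraMap (𝓞 k) k (evi P w)) := Algebra.coe_norm_int _
      rw [← h3] at h2
      have h4 := congrArg norm h2
      rw [norm_prod] at h4
      rw [← h4, Nat.cast_natAbs]
      simp
    rw [h1]
    have hH1 : (1 : ℝ) ≤ 2 * H + 1 := by
      have : (0 : ℝ) ≤ H := Nat.cast_nonneg _
      linarith
    have h5 : ∀ σ : k →ₐ[ℚ] ℂ, ‖σ (algebraMap (𝓞 k) k (evi P w))‖ ≤ S σ * (2 * H + 1) ^ d := by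
      intro σ
      have h6 : σ (algebraMap (𝓞 k) k (evi P w)) =
          ∑ m ∈ P.support, σ (algebraMap (𝓞 k) k (coeff m P)) * ∏ i, (w i : ℂ) ^ m i := by
        rw [evi, eval_eq', map_sum, map_sum]
        refine Finset.sum_congr rfl fun m _ => ?_
        rw [map_mul, map_mul, map_prod, map_prod]
        congr 1
        refine Finset.prod_congr rfl fun i _ => ?_
        simp
      rw [h6]
      refine (norm_sum_le _ _).trans ?_
      have h7 : ∀ m ∈ P.support, ‖σ (algebraMap (𝓞 k) k (coeff m P)) * ∏ i, (w i : ℂ) ^ m i‖ ≤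
          ‖σ (algebraMap (𝓞 k) k (coeff m P))‖ * (2 * H + 1) ^ d := by
        intro m hm
        rw [norm_mul, norm_prod]
        refine mul_le_mul_of_nonneg_left ?_ (norm_nonneg _)
        have h8 : ∀ i, ‖(w i : ℂ) ^ m i‖ ≤ (2 * (H : ℝ) + 1) ^ m i := by
          intro i
          rw [norm_pow]
          refine pow_le_pow_left₀ (norm_nonneg _) ?_ _
          have h9 : ‖(w i : ℂ)‖ = ((|w i| : ℤ) : ℝ) := by
            rw [Complex.norm_intCast]
            push_cast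
            rfl
          rw [h9]
          have h10 : ((|w i| : ℤ) : ℝ) ≤ H := by exact_mod_cast hw i
          have : (0 : ℝ) ≤ H := Nat.cast_nonneg _
          linarith
        refine (Finset.prod_le_prod (fun i _ => norm_nonneg _) fun i _ => h8 i).trans ?_
        rw [Finset.prod_pow_eq_pow_sum]
        refine pow_le_pow_right₀ hH1 ?_
        have h11 := le_totalDegree hm
        rw [Finsupp.sum_fintype _ _ (fun _ => rfl)] at h11
        exact h11
      refine (Finset.sum_le_sum h7).trans ?_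
      rw [← Finset.sum_mul]
      refine mul_le_mul_of_nonneg_right ?_ (by positivity)
      simp only [hS]
      linarith
    refine (Finset.prod_le_prod (fun σ _ => norm_nonneg _) fun σ _ => h5 σ).trans ?_
    rw [Finset.prod_mul_distrib, Finset.prod_const, Finset.card_univ, ← pow_mul]

/-- the choice of a prime ideal above every prime -/
structure Above (𝔭 : ℕ → Ideal (𝓞 k)) : Prop where
  mem : ∀ p : ℕ, p.Prime → (p : 𝓞 k) ∈ 𝔭 p
  ne_top : ∀ p : ℕ, p.Prime → 𝔭 p ≠ ⊤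

variable {𝔭 : ℕ → Ideal (𝓞 k)} (h𝔭 : Above 𝔭)

include h𝔭

lemma dvd_of_mem {p : ℕ} (hp : p.Prime) {m : ℤ} (hm : (m : 𝓞 k) ∈ 𝔭 p) : (p : ℤ) ∣ m := by
  by_contra h
  have hc : IsCoprime (p : ℤ) m := (Prime.coprime_iff_not_dvd (Nat.prime_iff_prime_int.1 hp)).2 h
  obtain ⟨a, b, hab⟩ := hc
  apply h𝔭.ne_top p hp
  rw [Ideal.eq_top_iff_one]
  have h1 : ((a * p + b * m : ℤ) : 𝓞 k) = 1 := by rw [hab]; simp
  rw [← h1]
  push_cast
  exact (𝔭 p).add_mem ((𝔭 p).mul_mem_left _ (h𝔭.mem p hp)) ((𝔭 p).mul_mem_left _ hm)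

lemma dvd_norm {p : ℕ} (hp : p.Prime) {x : 𝓞 k} (hx : x ∈ 𝔭 p) :
    p ∣ (Algebra.norm ℤ x).natAbs := by
  have h1 : ((Ideal.absNorm (Ideal.span {x}) : ℕ) : 𝓞 k) ∈ Ideal.span {x} := Ideal.absNorm_mem _
  rw [Ideal.absNorm_span_singleton] at h1
  have h2 : (((Algebra.norm ℤ x).natAbs : ℕ) : 𝓞 k) ∈ 𝔭 p :=
    (Ideal.span_singleton_le_iff_mem (𝔭 p)).2 hx h1
  have h3 := dvd_of_mem h𝔭 hp (m := ((Algebra.norm ℤ x).natAbs : ℤ))
    (by rw [Int.cast_natCast]; exact h2)
  exact_mod_cast h3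

/-- the deterministic bound -/
lemma det_bound (P : MvPolynomial τ (𝓞 k)) : ∃ K : ℝ, 1 ≤ K ∧ ∀ (H Q : ℕ) (w : τ → ℤ),
    w ∈ bx τ H → evi P w ≠ 0 → AllBut (fun p => evi P w ∈ 𝔭 p) Q →
    (Q : ℝ) ≤ K * (1 + Real.log (2 * H + 1)) := by
  obtain ⟨B, E, hB, h⟩ := norm_le P
  have hlB : 0 ≤ Real.log B := Real.log_nonneg hB
  refine ⟨4 * (1000003 + Real.log B + E), by
    have : (0 : ℝ) ≤ E := Nat.cast_nonneg _
    linarith, ?_⟩
  intro H Q w hw hne hall
  obtain ⟨r, hr, hr'⟩ := hall.exists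
  set m : ℕ := (Algebra.norm ℤ (evi P w)).natAbs with hm
  have hm0 : m ≠ 0 := by
    rw [hm, Ne, Int.natAbs_eq_zero, Algebra.norm_eq_zero_iff]
    exact hne
  have hdvd : ∏ p ∈ (PQ Q).erase r, p ∣ m := by
    refine Finset.prod_primes_dvd m ?_ ?_
    · intro p hp
      exact (mem_PQ.1 (Finset.mem_of_mem_erase hp)).2.prime
    · intro p hp
      exact dvd_norm h𝔭 (mem_PQ.1 (Finset.mem_of_mem_erase hp)).2 (hr' p hp)
  have hle : ((∏ p ∈ (PQ Q).erase r, p : ℕ) : ℝ) ≤ B * (2 * H + 1) ^ E := by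
    have h1 : ∏ p ∈ (PQ Q).erase r, p ≤ m := Nat.le_of_dvd (Nat.pos_of_ne_zero hm0) hdvd
    have h2 : ((∏ p ∈ (PQ Q).erase r, p : ℕ) : ℝ) ≤ m := by exact_mod_cast h1
    exact h2.trans (h H w hw)
  have hH1 : (1 : ℝ) ≤ 2 * H + 1 := by
    have : (0 : ℝ) ≤ H := Nat.cast_nonneg _
    linarith
  have hlog : ∑ p ∈ (PQ Q).erase r, Real.log p ≤ Real.log B + E * Real.log (2 * H + 1) := by
    have hpos : ∀ p ∈ (PQ Q).erase r, (0 : ℝ) < p := fun p hp => by
      exact_mod_cast (mem_PQ.1 (Finset.mem_of_mem_erase hp)).2.pos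
    rw [← Real.log_prod (fun p hp => (hpos p hp).ne')]
    have h3 : Real.log (∏ p ∈ (PQ Q).erase r, (p : ℝ)) ≤ Real.log (B * (2 * H + 1) ^ E) := by
      apply Real.log_le_log (Finset.prod_pos hpos)
      have hle' := hle
      push_cast at hle'
      exact hle'
    rwa [Real.log_mul (by linarith) (by positivity), Real.log_pow] at h3
  have h4 := cheb Q
  have h5 : ∑ p ∈ PQ Q, Real.log p ≤ ∑ p ∈ (PQ Q).erase r, Real.log p + Real.log (Q + 1) := by
    by_cases hrm : r ∈ PQ Q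
    · rw [← Finset.sum_erase_add _ _ hrm]
      gcongr
      · have := (mem_PQ.1 hrm).2.pos
        exact_mod_cast this
      · have : r ≤ Q + 1 := by omega
        exact_mod_cast this
    · rw [Finset.erase_eq_of_notMem hrm]
      have : 0 ≤ Real.log ((Q : ℝ) + 1) := Real.log_nonneg (by
        have : (0 : ℝ) ≤ Q := Nat.cast_nonneg _
        linarith)
      linarith
  have h6 : Real.log ((Q : ℝ) + 1) ≤ (Q + 1) / 4 + 1 := by
    have h7 : Real.log (((Q : ℝ) + 1) / 4) ≤ (Q + 1) / 4 - 1 :=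
      Real.log_le_sub_one_of_pos (by positivity)
    rw [Real.log_div (by positivity) (by norm_num)] at h7
    have h8 : Real.log 4 ≤ 2 := by
      have h9 : Real.log 4 = 2 * Real.log 2 := by
        rw [show (4 : ℝ) = 2 ^ 2 by norm_num, Real.log_pow]
        norm_num
      have := Real.log_two_lt_d9
      linarith
    linarith
  have hlH : 0 ≤ Real.log (2 * (H : ℝ) + 1) := Real.log_nonneg hH1
  have hE : (0 : ℝ) ≤ E := Nat.cast_nonneg _
  nlinarith [mul_nonneg hlB hlH]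

open Classical in
/-- the tail for all `Q` -/
theorem tail_all (P : MvPolynomial τ (𝓞 k)) (hP : P ≠ 0) : ∃ C c : ℝ, 0 < C ∧ 0 < c ∧
    ∀ H Q : ℕ, (((bx τ H).filter fun w => evi P w ≠ 0 ∧
      AllBut (fun p => evi P w ∈ 𝔭 p) Q).card : ℝ) ≤
      C * Real.exp (-(c * Q)) * (2 * H + 1) ^ Fintype.card τ := by
  have : Algebra.IsAlgebraic ℤ (𝓞 k) := Algebra.IsIntegral.isAlgebraic
  obtain ⟨n, hn, e, he⟩ := MvPolynomial.exists_dvd_map_of_isAlgebraic (R := ℤ) hP
  have hdiv : ∀ w : τ → ℤ, evi P w ∣ ((eval w n : ℤ) : 𝓞 k) := by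
    intro w
    refine ⟨eval (fun q => (w q : 𝓞 k)) e, ?_⟩
    have h2 := congrArg (eval fun q => (w q : 𝓞 k)) he
    rw [map_mul, eval_map] at h2
    rw [evi, ← h2]
    have h3 := MvPolynomial.eval₂_comp_left (algebraMap ℤ (𝓞 k)) (RingHom.id ℤ) w n
    rw [MvPolynomial.eval₂_id] at h3
    exact h3
  have himp : ∀ (w : τ → ℤ) (Q : ℕ), AllBut (fun p => evi P w ∈ 𝔭 p) Q →
      AllBut (fun p => (p : ℤ) ∣ eval w n) Q := by
    intro w Q h p q hp hq hpq hpQ hqQ
    have hkey : ∀ r : ℕ, r.Prime → evi P w ∈ 𝔭 r → (r : ℤ) ∣ eval w n := fun r hr hr' =>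
      dvd_of_mem h𝔭 hr (Ideal.mem_of_dvd _ (hdiv w) hr')
    exact (h p q hp hq hpq hpQ hqQ).imp (hkey p hp) (hkey q hq)
  obtain ⟨C, hC, htail⟩ := tail n hn
  obtain ⟨K, hK, hdet⟩ := det_bound (τ := τ) h𝔭 P
  refine ⟨C * Real.exp (3 / 16), 1 / (16 * K), by positivity, by positivity, ?_⟩
  intro H Q
  set Q1 : ℕ := Nat.log 4 (2 * H + 1) with hQ1
  have h4 : 4 ^ Q1 ≤ 2 * H + 1 := Nat.pow_log_le_self 4 (by omega)
  have h4' : 2 * H + 1 < 4 ^ (Q1 + 1) := Nat.lt_pow_succ_log_self (by norm_num) _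
  have he1 : (1 : ℝ) ≤ Real.exp (3 / 16) := Real.one_le_exp (by norm_num)
  have hQ0 : (0 : ℝ) ≤ Q := Nat.cast_nonneg _
  have hmono : ∀ Q' : ℕ, Q' ≤ Q → (((bx τ H).filter fun w => evi P w ≠ 0 ∧
      AllBut (fun p => evi P w ∈ 𝔭 p) Q).card : ℝ) ≤
      (((bx τ H).filter fun w => AllBut (fun p => (p : ℤ) ∣ eval w n) Q').card : ℝ) := by
    intro Q' hQ'
    refine Nat.cast_le.2 (Finset.card_le_card ?_)
    intro w hw
    rw [Finset.mem_filter] at hw ⊢
    exact ⟨hw.1, (himp w Q hw.2.2).mono hQ'⟩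
  rcases le_total Q Q1 with h | h
  · have h5 : 4 ^ Q ≤ 2 * H + 1 := (Nat.pow_le_pow_right (by norm_num) h).trans h4
    refine (hmono Q le_rfl).trans ((htail H Q h5).trans ?_)
    have h6 : Real.exp (-(Q / 8 : ℝ)) ≤ Real.exp (-(1 / (16 * K) * Q)) := by
      apply Real.exp_le_exp.2
      have : 1 / (16 * K) ≤ 1 / 8 := by
        apply one_div_le_one_div_of_le (by norm_num)
        linarith
      nlinarith
    calc C * Real.exp (-(Q / 8 : ℝ)) * (2 * H + 1) ^ Fintype.card τ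
        ≤ C * Real.exp (-(1 / (16 * K) * Q)) * (2 * H + 1) ^ Fintype.card τ := by gcongr
      _ = C * 1 * Real.exp (-(1 / (16 * K) * Q)) * (2 * H + 1) ^ Fintype.card τ := by ring
      _ ≤ C * Real.exp (3 / 16) * Real.exp (-(1 / (16 * K) * Q)) *
          (2 * H + 1) ^ Fintype.card τ := by gcongr
  · rcases ((bx τ H).filter fun w => evi P w ≠ 0 ∧
      AllBut (fun p => evi P w ∈ 𝔭 p) Q).eq_empty_or_nonempty with h0 | ⟨w0, hw0⟩
    · rw [h0]
      simp only [Finset.card_empty, Nat.cast_zero]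
      positivity
    · rw [Finset.mem_filter] at hw0
      have h7 := hdet H Q w0 hw0.1 hw0.2.1 hw0.2.2
      have h8 : Real.log (2 * (H : ℝ) + 1) ≤ 2 * (Q1 + 1) := by
        have h9 : (2 * (H : ℝ) + 1) ≤ 4 ^ (Q1 + 1) := by exact_mod_cast h4'.le
        have h10 : (1 : ℝ) ≤ 2 * H + 1 := by
          have : (0 : ℝ) ≤ H := Nat.cast_nonneg _
          linarith
        have h11 := Real.log_le_log (by linarith) h9
        rw [Real.log_pow] at h11
        have h12 : Real.log 4 ≤ 2 := by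
          have h9 : Real.log 4 = 2 * Real.log 2 := by
            rw [show (4 : ℝ) = 2 ^ 2 by norm_num, Real.log_pow]
            norm_num
          have := Real.log_two_lt_d9
          linarith
        push_cast at h11
        nlinarith [Nat.cast_nonneg (α := ℝ) Q1]
      refine (hmono Q1 h).trans ((htail H Q1 h4).trans ?_)
      have h13 : (Q : ℝ) ≤ K * (2 * Q1 + 3) := by
        exact h7.trans (mul_le_mul_of_nonneg_left (by linarith) (by linarith))
      have h14 : Real.exp (-(Q1 / 8 : ℝ)) ≤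
          Real.exp (3 / 16) * Real.exp (-(1 / (16 * K) * Q)) := by
        rw [← Real.exp_add]
        apply Real.exp_le_exp.2
        have h15 : 1 / (16 * K) * Q ≤ (2 * Q1 + 3) / 16 := by
          rw [div_mul_eq_mul_div, one_mul, div_le_div_iff₀ (by positivity) (by norm_num)]
          linarith
        linarith
      calc C * Real.exp (-(Q1 / 8 : ℝ)) * (2 * H + 1) ^ Fintype.card τ
          ≤ C * (Real.exp (3 / 16) * Real.exp (-(1 / (16 * K) * Q))) *
            (2 * H + 1) ^ Fintype.card τ := by gcongr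
        _ = C * Real.exp (3 / 16) * Real.exp (-(1 / (16 * K) * Q)) *
          (2 * H + 1) ^ Fintype.card τ := by ring

/-- the least `Q` such that the value lies outside two of the prime ideals up to `Q` -/
noncomputable def lst (𝔭 : ℕ → Ideal (𝓞 k)) (x : 𝓞 k) : ℕ :=
  sInf {Q : ℕ | ¬ AllBut (fun p => x ∈ 𝔭 p) Q}

lemma lst_spec (x : 𝓞 k) (hx : x ≠ 0) : ¬ AllBut (fun p => x ∈ 𝔭 p) (lst 𝔭 x) := by
  have hne : {Q : ℕ | ¬ AllBut (fun p => x ∈ 𝔭 p) Q}.Nonempty := by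
    obtain ⟨K, hK, hdet⟩ := det_bound (τ := Empty) h𝔭 (C x)
    obtain ⟨Q, hQ⟩ := exists_nat_gt (K * (1 + Real.log (2 * (0 : ℕ) + 1)))
    refine ⟨Q, fun h => ?_⟩
    have h1 := hdet 0 Q (fun e => e.elim) (mem_bx.2 fun e => e.elim) (by
      rw [evi, eval_C]
      exact hx) (by
      rw [evi, eval_C]
      exact h)
    linarith
  exact Nat.sInf_mem hne

omit h𝔭 in
lemma allBut_of_lt (x : 𝓞 k) {Q : ℕ} (h : Q < lst 𝔭 x) : AllBut (fun p => x ∈ 𝔭 p) Q := by
  by_contra h1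
  exact absurd (Nat.sInf_le h1) (not_le.2 h)

open Classical in
/-- exponential moments -/
theorem moment (P : MvPolynomial τ (𝓞 k)) (hP : P ≠ 0) : ∃ c C : ℝ, 0 < c ∧ 0 < C ∧
    ∀ H : ℕ, ∑ w ∈ (bx τ H).filter (fun w => evi P w ≠ 0), Real.exp (c * lst 𝔭 (evi P w)) ≤
      C * (2 * H + 1) ^ Fintype.card τ := by
  obtain ⟨C, c, hC, hc, h⟩ := tail_all (τ := τ) h𝔭 P hP
  have hsum : Summable fun Q : ℕ => Real.exp (-(c / 2 * Q)) := by
    have h1 : (fun Q : ℕ => Real.exp (-(c / 2 * Q))) = fun Q : ℕ => (Real.exp (-(c / 2))) ^ Q := by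
      funext Q
      rw [← Real.exp_nat_mul]
      congr 1
      ring
    rw [h1]
    exact summable_geometric_of_lt_one (Real.exp_pos _).le (by
      rw [Real.exp_lt_one_iff]
      linarith)
  set T' : ℝ := ∑' Q : ℕ, Real.exp (-(c / 2 * Q)) with hT
  have hTpos : 0 < T' := hsum.tsum_pos (fun _ => (Real.exp_pos _).le) 0 (Real.exp_pos _)
  refine ⟨c / 2, C * Real.exp c * T', by linarith, by positivity, fun H => ?_⟩
  set s := (bx τ H).filter (fun w => evi P w ≠ 0) with hs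
  rw [Finset.sum_comp (fun q : ℕ => Real.exp (c / 2 * q)) (fun w => lst 𝔭 (evi P w))]
  have hterm : ∀ q ∈ s.image (fun w => lst 𝔭 (evi P w)),
      (s.filter fun w => lst 𝔭 (evi P w) = q).card • Real.exp (c / 2 * q) ≤
        C * Real.exp c * (2 * H + 1) ^ Fintype.card τ * Real.exp (-(c / 2 * q)) := by
    intro q hq
    rw [nsmul_eq_mul]
    have hq1 : 0 < q := by
      rw [Finset.mem_image] at hq
      obtain ⟨w, hw, rfl⟩ := hq
      rw [Nat.pos_iff_ne_zero]
      intro h0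
      rw [hs, Finset.mem_filter] at hw
      have h1 := lst_spec h𝔭 (evi P w) hw.2
      rw [h0] at h1
      apply h1
      intro p q hp hq hpq hp0 hq0
      exact absurd (Nat.le_zero.1 hp0) hp.ne_zero
    have h2 : ((s.filter fun w => lst 𝔭 (evi P w) = q).card : ℝ) ≤
        C * Real.exp (-(c * (q - 1 : ℕ))) * (2 * H + 1) ^ Fintype.card τ := by
      refine le_trans (Nat.cast_le.2 (Finset.card_le_card ?_)) (h H (q - 1))
      intro w hw
      rw [Finset.mem_filter, hs, Finset.mem_filter] at hw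
      rw [Finset.mem_filter]
      refine ⟨hw.1.1, hw.1.2, allBut_of_lt _ ?_⟩
      rw [hw.2]
      omega
    have h3 : Real.exp (-(c * (q - 1 : ℕ))) * Real.exp (c / 2 * q) =
        Real.exp c * Real.exp (-(c / 2 * q)) := by
      rw [← Real.exp_add, ← Real.exp_add]
      congr 1
      rw [Nat.cast_sub hq1]
      push_cast
      ring
    calc ((s.filter fun w => lst 𝔭 (evi P w) = q).card : ℝ) * Real.exp (c / 2 * q)
        ≤ C * Real.exp (-(c * (q - 1 : ℕ))) * (2 * H + 1) ^ Fintype.card τ *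
          Real.exp (c / 2 * q) := by gcongr
      _ = C * (Real.exp (-(c * (q - 1 : ℕ))) * Real.exp (c / 2 * q)) *
          (2 * H + 1) ^ Fintype.card τ := by ring
      _ = C * Real.exp c * (2 * H + 1) ^ Fintype.card τ * Real.exp (-(c / 2 * q)) := by
          rw [h3]
          ring
  refine (Finset.sum_le_sum hterm).trans ?_
  rw [← Finset.mul_sum]
  have h4 : ∑ q ∈ s.image (fun w => lst 𝔭 (evi P w)), Real.exp (-(c / 2 * q)) ≤ T' :=
    hsum.sum_le_tsum _ fun _ _ => (Real.exp_pos _).le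
  calc C * Real.exp c * (2 * H + 1) ^ Fintype.card τ *
        ∑ q ∈ s.image (fun w => lst 𝔭 (evi P w)), Real.exp (-(c / 2 * q))
      ≤ C * Real.exp c * (2 * H + 1) ^ Fintype.card τ * T' := by gcongr
    _ = C * Real.exp c * T' * (2 * H + 1) ^ Fintype.card τ := by ring

end

end Pool.Agent.Y729.AV
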