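import Pool.Agent.Y729.AV.Bound
import Pool.Agent.Y729.AV.Det
import Pool.Agent.Y729.AV.Box

set_option autoImplicit false
set_option linter.unusedSectionVars false

/-! Exponential moments of the number of the torsion points in families. -/

namespace Pool.Agent.Y729.AV

open MvPolynomial NumberField Family

section

variable {k : Type} [Field k] [NumberField k] {J : Type} [Fintype J]
  (ω : Module.Basis J ℤ (𝓞 k)) {M : ℕ}

/-- the vector with integral coordinates `w` -/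
noncomputable def vecw (w : Fin M × J → ℤ) : Fin M → 𝓞 k := fun i => ∑ j, w (i, j) • ω j

lemma repr_vecw (w : Fin M × J → ℤ) (i : Fin M) (j : J) : ω.repr (vecw ω w i) j = w (i, j) := by
  rw [vecw, ω.repr_sum_self]

lemma vecw_injective : Function.Injective (vecw ω (M := M)) := by
  intro w w' h
  funext ⟨i, j⟩
  rw [← repr_vecw ω w, ← repr_vecw ω w', h]

lemma exists_vecw (v : Fin M → 𝓞 k) : ∃ w : Fin M × J → ℤ, vecw ω w = v := by
  refine ⟨fun q => ω.repr (v q.1) q.2, ?_⟩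
  funext i
  exact ω.sum_repr (v i)

lemma exists_sub (c : MvPolynomial (Fin M) (𝓞 k)) (hc : c ≠ 0) :
    ∃ P : MvPolynomial (Fin M × J) (𝓞 k), P ≠ 0 ∧ ∀ w, evi P w = eval (vecw ω w) c := by
  have hev : ∀ w : Fin M × J → ℤ,
      evi (aeval (fun i => ∑ j, C (ω j) * X (i, j)) c) w = eval (vecw ω w) c := by
    intro w
    have h1 : (eval (fun q => (w q : 𝓞 k))).comp
        ((aeval (fun i => ∑ j, C (ω j) * X (i, j)) :
          MvPolynomial (Fin M) (𝓞 k) →ₐ[𝓞 k] MvPolynomial (Fin M × J) (𝓞 k)) :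
          MvPolynomial (Fin M) (𝓞 k) →+* MvPolynomial (Fin M × J) (𝓞 k)) = eval (vecw ω w) := by
      apply MvPolynomial.ringHom_ext
      · intro x
        simp
      · intro i
        simp only [RingHom.coe_comp, RingHom.coe_coe, Function.comp_apply, aeval_X, map_sum,
          map_mul, eval_C, eval_X, vecw, zsmul_eq_mul]
        exact Finset.sum_congr rfl fun j _ => mul_comm _ _
    exact congrArg (fun f => f c) h1
  refine ⟨aeval (fun i => ∑ j, C (ω j) * X (i, j)) c, ?_, hev⟩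
  intro h0
  apply hc
  apply MvPolynomial.funext
  intro v
  obtain ⟨w, hw⟩ := exists_vecw ω v
  rw [← hw, ← hev, h0, evi, map_zero, map_zero]

lemma box_eq [DecidableEq J] [DecidableEq (Fin M → 𝓞 k)] (H : ℕ) :
    box ω M H = (bx (Fin M × J) H).image (vecw ω) := by
  unfold box bx
  ext v
  simp only [Finset.mem_image, Fintype.mem_piFinset]
  rfl

lemma card_box (H : ℕ) : (box ω M H).card = (2 * H + 1) ^ (M * Fintype.card J) := by
  classical
  rw [box_eq, Finset.card_image_of_injective _ (vecw_injective ω), card_bx, Fintype.card_prod,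
    Fintype.card_fin]

variable (k) in
lemma exists_above : ∃ 𝔭 : ℕ → Ideal (𝓞 k), Above 𝔭 ∧ ∀ p : ℕ, p.Prime → (𝔭 p).IsMaximal := by
  have h : ∀ p : ℕ, ∃ I : Ideal (𝓞 k), p.Prime → I.IsMaximal ∧ (p : 𝓞 k) ∈ I := by
    intro p
    by_cases hp : p.Prime
    · obtain ⟨I, hI, hpI⟩ := exists_prime_above k hp
      exact ⟨I, fun _ => ⟨hI, hpI⟩⟩
    · exact ⟨⊥, fun h => absurd h hp⟩
  choose 𝔭 h𝔭 using h
  exact ⟨𝔭, ⟨fun p hp => (h𝔭 p hp).2, fun p hp => (h𝔭 p hp).1.ne_top⟩, fun p hp => (h𝔭 p hp).1⟩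

open Classical in
theorem moments {N : ℕ} (𝒜 : Family (MvPolynomial (Fin M) (𝓞 k)) N) (h𝒜 : 𝒜.IsGroupFamily)
    {g B : ℕ} (hg : 0 < g)
    (hgB : ∀ (F : Type) [Field F] [Finite F] (φ : MvPolynomial (Fin M) (𝓞 k) →+* F),
      φ 𝒜.disc ≠ 0 → Nat.card (𝒜.Pts φ) ≤ B * Nat.card F ^ g) (D : ℕ) (hD : 0 < D) :
    ∃ (T : (Fin M → 𝓞 k) → ℕ) (c C : ℝ), 0 < c ∧
      (∀ v : Fin M → 𝓞 k, eval v 𝒜.disc ≠ 0 → ∀ (L : Type) [Field L] [Algebra k L]
        [FiniteDimensional k L], Module.finrank k L ≤ D → ∀ [AddCommGroup (𝒜.Pts (special v L))],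
        𝒜.IsGroupLaw (special v L) → 𝒜.torsionCount (special v L) ≤ T v) ∧
      ∀ H : ℕ, ∑ v ∈ (box ω M H).filter (fun v => eval v 𝒜.disc ≠ 0),
        Real.exp (c * (T v : ℝ) ^ (1 / (2 * g * D * Module.finrank ℚ k) : ℝ)) ≤
          C * (box ω M H).card := by
  obtain ⟨𝔭, h𝔭, hmax⟩ := exists_above k
  obtain ⟨P, hP, hPev⟩ := exists_sub ω 𝒜.disc h𝒜.disc_ne
  obtain ⟨c, C, hc, hC, hmom⟩ := moment h𝔭 P hP
  set e : ℕ := Module.finrank ℚ k * D * g * 2 with he
  have he0 : e ≠ 0 := by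
    have h1 : 0 < Module.finrank ℚ k := Module.finrank_pos
    positivity
  set T : (Fin M → 𝓞 k) → ℕ := fun v => ((B + 1) ^ 2) * (lst 𝔭 (eval v 𝒜.disc)) ^ e with hT
  set β : ℝ := (((B : ℝ) + 1) ^ 2) ^ (1 / (2 * g * D * Module.finrank ℚ k) : ℝ) with hβ
  have hβ1 : 0 < β := by positivity
  refine ⟨T, c / β, C, by positivity, ?_, ?_⟩
  · intro v hv L _ _ _ hL G hG
    let _ : AddCommGroup (𝒜.Pts (toField (eval v) L)) := G
    have h1 := lst_spec h𝔭 (eval v 𝒜.disc) hv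
    unfold AllBut at h1
    push Not at h1
    obtain ⟨p, q, hp, hq, hpq, hpQ, hqQ, hpP, hqP⟩ := h1
    have := hmax p hp
    have := hmax q hq
    have h2 := torsion_le h𝒜 hgB (eval v) hp hq hpq hpQ hqQ (𝔭 p) (𝔭 q) (h𝔭.mem p hp)
      (h𝔭.mem q hq) hpP hqP L hL (show 𝒜.IsGroupLaw (toField (eval v) L) from hG)
    refine h2.trans ?_
    have h3 : (B * (lst 𝔭 (eval v 𝒜.disc) ^ (Module.finrank ℚ k * D)) ^ g) ^ 2 ≤ T v := by
      have h4 : (B * (lst 𝔭 (eval v 𝒜.disc) ^ (Module.finrank ℚ k * D)) ^ g) ^ 2 =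
          B ^ 2 * lst 𝔭 (eval v 𝒜.disc) ^ e := by
        rw [he]
        ring
      rw [h4, hT]
      exact Nat.mul_le_mul_right _ (Nat.pow_le_pow_left (Nat.le_succ B) 2)
    exact_mod_cast h3
  · intro H
    have hTl : ∀ v, c / β * (T v : ℝ) ^ (1 / (2 * g * D * Module.finrank ℚ k) : ℝ) =
        c * lst 𝔭 (eval v 𝒜.disc) := by
      intro v
      have h1 : (1 / (2 * g * D * Module.finrank ℚ k) : ℝ) = ((e : ℕ) : ℝ)⁻¹ := by
        rw [he, one_div]
        push_cast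
        congr 1
        ring
      have h2 : ((T v : ℕ) : ℝ) = ((B : ℝ) + 1) ^ 2 * (lst 𝔭 (eval v 𝒜.disc) : ℝ) ^ e := by
        rw [hT]
        push_cast
        rfl
      rw [h2, Real.mul_rpow (by positivity) (by positivity), ← hβ]
      rw [h1, Real.pow_rpow_inv_natCast (Nat.cast_nonneg _) he0]
      field_simp
    simp_rw [hTl]
    have hsum : ∑ v ∈ (box ω M H).filter (fun v => eval v 𝒜.disc ≠ 0),
        Real.exp (c * lst 𝔭 (eval v 𝒜.disc)) =
        ∑ w ∈ (bx (Fin M × J) H).filter (fun w => evi P w ≠ 0),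
          Real.exp (c * lst 𝔭 (evi P w)) := by
      rw [box_eq, Finset.filter_image, Finset.sum_image (fun a _ b _ h => vecw_injective ω h)]
      refine Finset.sum_congr ?_ fun w _ => by rw [hPev]
      ext w
      simp only [Finset.mem_filter, hPev]
    rw [hsum, card_box]
    refine (hmom H).trans (le_of_eq ?_)
    rw [Fintype.card_prod, Fintype.card_fin]
    push_cast
    rfl

end

end Pool.Agent.Y729.AV
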