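import Pool.Agent.Y729.AV.Gen2

set_option autoImplicit false
set_option linter.unusedSectionVars false

/-! The torsion points of bounded degree of 100% of the members: conclusion. -/

namespace Pool.Agent.Y729.AV

open MvPolynomial Family NumberField Pool.Agent.Y706 Pool.Agent.W275.UB Pool.Agent.W193.UB
  Filter Topology

section gcd

variable {R : Type} [CommRing R] {N : ℕ} {𝒜 : Family R N} {K : Type} [Field K] {χ : R →+* K}

lemma torsionPts_gcd {G : AddCommGroup (𝒜.Pts (geom K χ))} (hG : 𝒜.IsGroupLaw (geom K χ))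
    {D m0 : ℕ} (hkill : ∀ n, 0 < n → 𝒜.torsionPts K χ D n ⊆ 𝒜.torsionPts K χ D m0) {n : ℕ}
    (hn : 0 < n) : 𝒜.torsionPts K χ D n = 𝒜.torsionPts K χ D (Nat.gcd n m0) := by
  ext Q
  rw [mem_torsionPts hG (Rep.of_rep Q), mem_torsionPts hG (Rep.of_rep Q)]
  constructor
  · rintro ⟨h1, h2⟩
    have h3 := hkill n hn ((mem_torsionPts hG (Rep.of_rep Q)).2 ⟨h1, h2⟩)
    have h4 := ((mem_torsionPts hG (Rep.of_rep Q)).1 h3).2
    refine ⟨h1, ?_⟩
    rw [← addOrderOf_dvd_iff_nsmul_eq_zero] at h2 h4 ⊢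
    exact Nat.dvd_gcd h2 h4
  · rintro ⟨h1, h2⟩
    refine ⟨h1, ?_⟩
    rw [← addOrderOf_dvd_iff_nsmul_eq_zero] at h2 ⊢
    exact h2.trans (Nat.gcd_dvd_left _ _)

lemma allTorsionPts_eq {D m0 : ℕ} (hm0 : 0 < m0)
    (hkill : ∀ n, 0 < n → 𝒜.torsionPts K χ D n ⊆ 𝒜.torsionPts K χ D m0) :
    𝒜.allTorsionPts K χ D = 𝒜.torsionPts K χ D m0 := by
  ext Q
  constructor
  · rintro ⟨h1, G', hG', h2⟩
    obtain ⟨n, hn, hnQ⟩ := isOfFinAddOrder_iff_nsmul_eq_zero.1 h2
    exact hkill n hn ⟨h1, G', hG', hnQ⟩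
  · rintro ⟨h1, G', hG', h2⟩
    exact ⟨h1, G', hG', isOfFinAddOrder_iff_nsmul_eq_zero.2 ⟨m0, hm0, h2⟩⟩

end gcd

section

variable {k : Type} [Field k] [NumberField k] {J : Type} [Fintype J]
  (ω : Module.Basis J ℤ (𝓞 k)) {M N : ℕ}
  {𝒜 : Family (MvPolynomial (Fin M) (𝓞 k)) N} (h𝒜 : 𝒜.IsGroupFamily)

variable (𝒜) in
/-- the member with parameter `v` has the torsion points of the generic member -/
def Good (D : ℕ) (v : Fin M → 𝓞 k) : Prop :=
  eval v 𝒜.disc ≠ 0 ∧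
    (∀ n : ℕ, 0 < n → (𝒜.torsionPts k (spec v) D n).encard =
      (𝒜.torsionPts (FractionRing (MvPolynomial (Fin M) (𝓞 k))) (generic k M) D n).encard) ∧
    (𝒜.allTorsionPts k (spec v) D).encard =
      (𝒜.allTorsionPts (FractionRing (MvPolynomial (Fin M) (𝓞 k))) (generic k M) D).encard

include h𝒜

theorem main_U {U : Ultrafilter (Fin M × J → ℤ)} (hU : Gen U) {D X : ℕ}
    {T : (Fin M → 𝓞 k) → ℕ}
    (hT : ∀ v : Fin M → 𝓞 k, eval v 𝒜.disc ≠ 0 → ∀ (L : Type) [Field L] [Algebra k L]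
      [FiniteDimensional k L], Module.finrank k L ≤ D →
        ∀ [AddCommGroup (𝒜.Pts (special v L))], 𝒜.IsGroupLaw (special v L) →
        𝒜.torsionCount (special v L) ≤ T v)
    (hX : ∀ᶠ w in (U : Filter (Fin M × J → ℤ)), eval (vecw ω w) 𝒜.disc ≠ 0 ∧
      T (vecw ω w) ≤ X) :
    (𝒜.allTorsionPts (FractionRing (MvPolynomial (Fin M) (𝓞 k))) (generic k M) D =
      𝒜.torsionPts (FractionRing (MvPolynomial (Fin M) (𝓞 k))) (generic k M) D X.factorial) ∧
    ∀ᶠ w in (U : Filter (Fin M × J → ℤ)), Good 𝒜 D (vecw ω w) := by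
  classical
  set m0 : ℕ := X.factorial with hm0
  have hm0pos : 0 < m0 := Nat.factorial_pos X
  have hkillw : ∀ w, eval (vecw ω w) 𝒜.disc ≠ 0 ∧ T (vecw ω w) ≤ X → ∀ n, 0 < n →
      𝒜.torsionPts k (spec (vecw ω w)) D n ⊆ 𝒜.torsionPts k (spec (vecw ω w)) D m0 := by
    intro w hw n hn Q hQ
    have hdisc : spec (vecw ω w) 𝒜.disc ≠ 0 := by
      rw [spec, RingHom.comp_apply, Ne, FaithfulSMul.algebraMap_eq_zero_iff]
      exact hw.1
    obtain ⟨G, hG⟩ := h𝒜.group _ _ (geom_ne (𝒜 := 𝒜) hdisc)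
    have h1 := kill h𝒜 hw.1 (D := D) (X := X) (fun L _ _ _ hL _ hGL =>
      (hT _ hw.1 L hL hGL).trans (by exact_mod_cast hw.2)) hG hn hQ
    exact (mem_torsionPts hG (Rep.of_rep Q)).2
      ⟨((mem_torsionPts hG (Rep.of_rep Q)).1 hQ).1, h1⟩
  obtain ⟨GK, hGK⟩ := h𝒜.group _ _ (geom_ne (generic_disc h𝒜))
  have hgen : ∀ n, 0 < n →
      𝒜.torsionPts (FractionRing (MvPolynomial (Fin M) (𝓞 k))) (generic k M) D n ⊆
      𝒜.torsionPts (FractionRing (MvPolynomial (Fin M) (𝓞 k))) (generic k M) D m0 := by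
    intro n hn
    have hnm : 0 < n * m0 := Nat.mul_pos hn hm0pos
    have hBA : 𝒜.torsionPts (FractionRing (MvPolynomial (Fin M) (𝓞 k))) (generic k M) D m0 ⊆
        𝒜.torsionPts (FractionRing (MvPolynomial (Fin M) (𝓞 k))) (generic k M) D (n * m0) := by
      intro P hP
      rw [mem_torsionPts hGK (Rep.of_rep P)] at hP ⊢
      exact ⟨hP.1, by rw [mul_smul, hP.2, smul_zero]⟩
    have hCA : 𝒜.torsionPts (FractionRing (MvPolynomial (Fin M) (𝓞 k))) (generic k M) D n ⊆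
        𝒜.torsionPts (FractionRing (MvPolynomial (Fin M) (𝓞 k))) (generic k M) D (n * m0) := by
      intro P hP
      rw [mem_torsionPts hGK (Rep.of_rep P)] at hP ⊢
      exact ⟨hP.1, by rw [mul_comm, mul_smul, hP.2, smul_zero]⟩
    obtain ⟨w, hw1, hw2, hw3⟩ :=
      ((fixed ω h𝒜 hU D hnm).and ((fixed ω h𝒜 hU D hm0pos).and hX)).exists
    have hle := Set.encard_le_encard (hkillw w hw3 (n * m0) hnm)
    rw [hw1, hw2] at hle
    have heq := (generic_finite h𝒜 (D := D) hm0pos).eq_of_subset_of_encard_le hBA hle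
    rw [heq]
    exact hCA
  have hallgen := allTorsionPts_eq hm0pos hgen
  refine ⟨hallgen, ?_⟩
  have hdiv : ∀ᶠ w in (U : Filter (Fin M × J → ℤ)), ∀ d ∈ m0.divisors,
      (𝒜.torsionPts k (spec (vecw ω w)) D d).encard =
      (𝒜.torsionPts (FractionRing (MvPolynomial (Fin M) (𝓞 k))) (generic k M) D d).encard := by
    rw [Filter.eventually_all_finset]
    intro d hd
    exact fixed ω h𝒜 hU D (Nat.pos_of_mem_divisors hd)
  filter_upwards [hdiv, hX] with w hw1 hw2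
  have hdisc : spec (vecw ω w) 𝒜.disc ≠ 0 := by
    rw [spec, RingHom.comp_apply, Ne, FaithfulSMul.algebraMap_eq_zero_iff]
    exact hw2.1
  obtain ⟨G, hG⟩ := h𝒜.group _ _ (geom_ne (𝒜 := 𝒜) hdisc)
  refine ⟨hw2.1, ?_, ?_⟩
  · intro n hn
    rw [torsionPts_gcd hG (hkillw w hw2) hn, torsionPts_gcd hGK hgen hn]
    refine hw1 _ ?_
    rw [Nat.mem_divisors]
    exact ⟨Nat.gcd_dvd_right _ _, hm0pos.ne'⟩
  · rw [hallgen, allTorsionPts_eq hm0pos (hkillw w hw2)]
    refine hw1 _ ?_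
    rw [Nat.mem_divisors]
    exact ⟨dvd_rfl, hm0pos.ne'⟩

omit h𝒜 in
open Classical in
/-- the tails have small upper density -/
lemma ud_tail {T : (Fin M → 𝓞 k) → ℕ} {c C θ : ℝ} (hc : 0 < c) (hθ : 0 < θ)
    (hmom : ∀ H : ℕ, ∑ v ∈ (box ω M H).filter (fun v => eval v 𝒜.disc ≠ 0),
      Real.exp (c * (T v : ℝ) ^ θ) ≤ C * (box ω M H).card) (X : ℕ) :
    UD (C * Real.exp (-(c * (X : ℝ) ^ θ)))
      {w : Fin M × J → ℤ | eval (vecw ω w) 𝒜.disc ≠ 0 ∧ X < T (vecw ω w)} := by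
  refine ⟨0, fun H _ => ?_⟩
  set s : Finset (Fin M × J → ℤ) := (bx (Fin M × J) H).filter fun w =>
    eval (vecw ω w) 𝒜.disc ≠ 0 ∧ X < T (vecw ω w) with hs
  have hset : ({v | v ∈ {w : Fin M × J → ℤ | eval (vecw ω w) 𝒜.disc ≠ 0 ∧ X < T (vecw ω w)} ∧
      ∀ i, |v i| ≤ (H : ℤ)} : Set (Fin M × J → ℤ)) = (s : Set (Fin M × J → ℤ)) := by
    ext w
    rw [hs, Finset.coe_filter]
    simp only [Set.mem_ofPred_eq, mem_bx]
    exact and_comm
  rw [hset, Set.ncard_coe_finset]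
  have h1 : (s.card : ℝ) * Real.exp (c * (X : ℝ) ^ θ) ≤ C * (box ω M H).card := by
    refine le_trans ?_ (hmom H)
    have h2 : ∑ v ∈ (box ω M H).filter (fun v => eval v 𝒜.disc ≠ 0),
        Real.exp (c * (T v : ℝ) ^ θ) =
        ∑ w ∈ (bx (Fin M × J) H).filter (fun w => eval (vecw ω w) 𝒜.disc ≠ 0),
          Real.exp (c * (T (vecw ω w) : ℝ) ^ θ) := by
      rw [box_eq, Finset.filter_image, Finset.sum_image (fun a _ b _ h => vecw_injective ω h)]
    rw [h2]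
    have hsub : s ⊆ (bx (Fin M × J) H).filter (fun w => eval (vecw ω w) 𝒜.disc ≠ 0) := by
      intro w hw
      rw [hs, Finset.mem_filter] at hw
      rw [Finset.mem_filter]
      exact ⟨hw.1, hw.2.1⟩
    refine le_trans ?_ (Finset.sum_le_sum_of_subset_of_nonneg hsub
      fun _ _ _ => (Real.exp_pos _).le)
    rw [← nsmul_eq_mul]
    refine Finset.card_nsmul_le_sum _ _ _ fun w hw => ?_
    rw [hs, Finset.mem_filter] at hw
    apply Real.exp_le_exp.2
    refine mul_le_mul_of_nonneg_left ?_ hc.le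
    exact Real.rpow_le_rpow (Nat.cast_nonneg _) (by exact_mod_cast hw.2.2.le) hθ.le
  rw [card_box] at h1
  have h3 : Real.exp (c * (X : ℝ) ^ θ) * Real.exp (-(c * (X : ℝ) ^ θ)) = 1 := by
    rw [← Real.exp_add, add_neg_cancel, Real.exp_zero]
  have h4 := mul_le_mul_of_nonneg_right h1 (Real.exp_pos (-(c * (X : ℝ) ^ θ))).le
  rw [mul_assoc, h3, mul_one] at h4
  refine h4.trans (le_of_eq ?_)
  rw [Fintype.card_prod, Fintype.card_fin]
  push_cast
  ring

omit h𝒜 in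
lemma exists_small {c C θ ε : ℝ} (hc : 0 < c) (hθ : 0 < θ) (hε : 0 < ε) :
    ∃ X : ℕ, C * Real.exp (-(c * (X : ℝ) ^ θ)) ≤ ε := by
  have h1 : Tendsto (fun X : ℕ => c * (X : ℝ) ^ θ) atTop atTop :=
    ((tendsto_rpow_atTop hθ).comp tendsto_natCast_atTop_atTop).const_mul_atTop hc
  have h2 : Tendsto (fun X : ℕ => C * Real.exp (-(c * (X : ℝ) ^ θ))) atTop (𝓝 (C * 0)) :=
    (Real.tendsto_exp_neg_atTop_nhds_zero.comp h1).const_mul C
  rw [mul_zero] at h2
  obtain ⟨X, hX⟩ := (h2.eventually (gt_mem_nhds hε)).exists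
  exact ⟨X, hX.le⟩

theorem conclusion (D : ℕ) :
    (𝒜.allTorsionPts (FractionRing (MvPolynomial (Fin M) (𝓞 k))) (generic k M) D).Finite ∧
    D0 {w : Fin M × J → ℤ | ¬ Good 𝒜 D (vecw ω w)} := by
  classical
  obtain ⟨T, c, C, hc, hT, hmom⟩ := moments ω 𝒜 h𝒜 (g := N + 1) (B := N + 1) (by omega)
    (fun F _ _ φ _ => (card_pts_le 𝒜 φ).trans (Nat.mul_le_mul_left _
      (Nat.pow_le_pow_right Nat.card_pos (Nat.le_succ N)))) (D + 1) (by omega)
  set θ : ℝ := 1 / (2 * (N + 1 : ℕ) * (D + 1 : ℕ) * Module.finrank ℚ k) with hθdef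
  have hθ : 0 < θ := by
    have h1 : 0 < Module.finrank ℚ k := Module.finrank_pos
    have h2 : (0 : ℝ) < Module.finrank ℚ k := by exact_mod_cast h1
    positivity
  have hT' : ∀ v : Fin M → 𝓞 k, eval v 𝒜.disc ≠ 0 → ∀ (L : Type) [Field L] [Algebra k L]
      [FiniteDimensional k L], Module.finrank k L ≤ D →
        ∀ [AddCommGroup (𝒜.Pts (special v L))], 𝒜.IsGroupLaw (special v L) →
        𝒜.torsionCount (special v L) ≤ T v :=
    fun v hv L _ _ _ hL _ hG => hT v hv L (hL.trans (Nat.le_succ D)) hG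
  have htail := ud_tail (𝒜 := 𝒜) ω hc hθ hmom
  have hdisc0 : D0 {w : Fin M × J → ℤ | eval (vecw ω w) 𝒜.disc = 0} := by
    have h1 := D0_B ω h𝒜.disc_ne
    have h2 : {w : Fin M × J → ℤ | eval (vecw ω w) 𝒜.disc = 0} =
        {w : Fin M × J → ℤ | MvPolynomial.eval (vec ω w) 𝒜.disc = 0} := by
      ext w
      simp only [Set.mem_ofPred_eq]
      rw [vec_eq]
    rw [h2]
    exact h1
  -- a set which is not of density zero meets the good locus
  have hkey : ∀ S : Set (Fin M × J → ℤ), ¬ D0 S → ∃ X : ℕ,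
      ¬ D0 (S ∩ {w | eval (vecw ω w) 𝒜.disc ≠ 0 ∧ T (vecw ω w) ≤ X}) := by
    intro S hS
    unfold D0 at hS
    push Not at hS
    obtain ⟨ε, hε, hS⟩ := hS
    obtain ⟨X, hX⟩ := exists_small (C := C) hc hθ (show 0 < ε / 3 by positivity)
    refine ⟨X, fun h0 => hS ?_⟩
    have h1 := h0 (ε / 3) (by positivity)
    have h2 := UD.le hX (htail X)
    have h3 := hdisc0 (ε / 3) (by positivity)
    have h4 := (h1.union h2).union h3
    have h5 : ε / 3 + ε / 3 + ε / 3 = ε := by ring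
    rw [h5] at h4
    refine h4.mono ?_
    intro w hw
    by_cases h6 : eval (vecw ω w) 𝒜.disc = 0
    · exact Or.inr h6
    · rcases le_or_gt (T (vecw ω w)) X with h7 | h7
      · exact Or.inl (Or.inl ⟨hw, h6, h7⟩)
      · exact Or.inl (Or.inr ⟨h6, h7⟩)
  refine ⟨?_, ?_⟩
  · have huniv : ¬ D0 (Set.univ : Set (Fin M × J → ℤ)) := fun h =>
      not_UD_univ (show (1 / 2 : ℝ) < 1 by norm_num) (h (1 / 2) (by norm_num))
    obtain ⟨X, hX⟩ := hkey _ huniv
    obtain ⟨U, hU, hUS⟩ := W125.UB.Exu.main (Fin M × J) _ hX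
    have hev : ∀ᶠ w in (U : Filter (Fin M × J → ℤ)), eval (vecw ω w) 𝒜.disc ≠ 0 ∧
        T (vecw ω w) ≤ X := by
      filter_upwards [show _ ∈ (U : Filter (Fin M × J → ℤ)) from hUS] with w hw
      exact hw.2
    rw [(main_U ω h𝒜 hU hT' hev).1]
    exact generic_finite h𝒜 (Nat.factorial_pos X)
  · by_contra hbad
    obtain ⟨X, hX⟩ := hkey _ hbad
    obtain ⟨U, hU, hUS⟩ := W125.UB.Exu.main (Fin M × J) _ hX
    have hev : ∀ᶠ w in (U : Filter (Fin M × J → ℤ)), eval (vecw ω w) 𝒜.disc ≠ 0 ∧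
        T (vecw ω w) ≤ X := by
      filter_upwards [show _ ∈ (U : Filter (Fin M × J → ℤ)) from hUS] with w hw
      exact hw.2
    have hbadU : ∀ᶠ w in (U : Filter (Fin M × J → ℤ)), ¬ Good 𝒜 D (vecw ω w) := by
      filter_upwards [show _ ∈ (U : Filter (Fin M × J → ℤ)) from hUS] with w hw
      exact hw.1
    obtain ⟨w, hw1, hw2⟩ := ((main_U ω h𝒜 hU hT' hev).2.and hbadU).exists
    exact hw2 hw1

omit h𝒜 in
open Classical in
/-- density one in terms of boxes -/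
lemma tendsto_of_D0 {P : (Fin M → 𝓞 k) → Prop} (h : D0 {w : Fin M × J → ℤ | ¬ P (vecw ω w)}) :
    Tendsto (fun H : ℕ => (((box ω M H).filter P).card : ℝ) / (box ω M H).card) atTop (𝓝 1) := by
  rw [Metric.tendsto_atTop]
  intro ε hε
  obtain ⟨H₀, hH⟩ := h (ε / 2) (by positivity)
  refine ⟨H₀, fun H hH0 => ?_⟩
  have h1 := hH H hH0
  set s : Finset (Fin M × J → ℤ) := (bx (Fin M × J) H).filter fun w => ¬ P (vecw ω w) with hs
  have hset : ({v | v ∈ {w : Fin M × J → ℤ | ¬ P (vecw ω w)} ∧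
      ∀ i, |v i| ≤ (H : ℤ)} : Set (Fin M × J → ℤ)) = (s : Set (Fin M × J → ℤ)) := by
    ext w
    rw [hs, Finset.coe_filter]
    simp only [Set.mem_ofPred_eq, mem_bx]
    exact and_comm
  rw [hset, Set.ncard_coe_finset] at h1
  have h2 : ((box ω M H).filter fun v => ¬ P v).card = s.card := by
    rw [box_eq, Finset.filter_image, Finset.card_image_of_injective _ (vecw_injective ω)]
  have h3 : (((box ω M H).filter P).card : ℝ) + s.card = (box ω M H).card := by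
    rw [← h2]
    exact_mod_cast Finset.card_filter_add_card_filter_not P
  have hbox : (0 : ℝ) < (box ω M H).card := by
    rw [card_box]
    positivity
  have hboxc : ((box ω M H).card : ℝ) = (2 * H + 1) ^ Fintype.card (Fin M × J) := by
    rw [card_box, Fintype.card_prod, Fintype.card_fin]
    push_cast
    rfl
  rw [← hboxc] at h1
  have h4 : (((box ω M H).filter P).card : ℝ) / (box ω M H).card =
      1 - (s.card : ℝ) / (box ω M H).card := by
    rw [eq_sub_iff_add_eq, ← add_div, h3, div_self hbox.ne']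
  rw [h4, Real.dist_eq]
  have h5 : (s.card : ℝ) / (box ω M H).card ≤ ε / 2 := by
    rw [div_le_iff₀ hbox]
    exact h1
  have h6 : 0 ≤ (s.card : ℝ) / (box ω M H).card := by positivity
  rw [abs_lt]
  constructor <;> linarith

end

end Pool.Agent.Y729.AV
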