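import Pool.Agent.Y729.AV.Ker

set_option autoImplicit false
set_option linter.unusedSectionVars false

/-! Extension of the base field. -/

namespace Pool.Agent.Y729.AV

open MvPolynomial IsLocalRing Family

section

variable {R : Type} [CommRing R] {N : ℕ} {𝒜 : Family R N} {F F' : Type} [Field F] [Field F']
  (σ : F →+* F') {φ : R →+* F}

lemma eval_comp {τ : Type} (p : MvPolynomial τ R) (x : τ → F) :
    p.eval₂ (σ.comp φ) (fun i => σ (x i)) = σ (p.eval₂ φ x) := by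
  have := MvPolynomial.eval₂_comp_left σ φ x p
  exact this.symm

lemma law_comp (s : Fin (N + 1) → MvPolynomial (Fin (N + 1) ⊕ Fin (N + 1)) R)
    (x y : Fin (N + 1) → F) :
    law (σ.comp φ) s (fun i => σ (x i)) (fun i => σ (y i)) = fun i => σ (law φ s x y i) := by
  funext i
  rw [law, law, ← eval_comp]
  congr 1
  funext j
  cases j <;> rfl

lemma map_ne {n : ℕ} {x : Fin n → F} (hx : x ≠ 0) : (fun i => σ (x i)) ≠ 0 := by
  intro h
  apply hx
  funext i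
  have h1 := congrFun h i
  simp only [Pi.zero_apply, map_eq_zero] at h1
  exact h1

lemma exists_bc (P : 𝒜.Pts φ) : ∃ P' : 𝒜.Pts (σ.comp φ), ∀ x, Rep P x →
    Rep P' fun i => σ (x i) := by
  obtain ⟨x0, hx0⟩ := exists_rep P
  obtain ⟨P', hP'⟩ : ∃ P' : 𝒜.Pts (σ.comp φ), Rep P' fun i => σ (x0 i) := by
    refine exists_pt' (map_ne σ hx0.ne) fun f hf => ?_
    rw [eval_comp, hx0.eqs f hf, map_zero]
  refine ⟨P', fun x hx => ?_⟩
  obtain ⟨c, hc, rfl⟩ := hx0.unique hx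
  have h1 := hP'.smul (c := σ c) ((map_ne_zero σ).2 hc)
  convert h1 using 1
  funext i
  simp

/-- base change of a point -/
noncomputable def bc (P : 𝒜.Pts φ) : 𝒜.Pts (σ.comp φ) := (exists_bc σ P).choose

lemma bc_spec {P : 𝒜.Pts φ} {x : Fin (N + 1) → F} (hx : Rep P x) :
    Rep (bc σ P) fun i => σ (x i) := (exists_bc σ P).choose_spec x hx

/-- proportional images come from proportional vectors -/
lemma prop_of_map {n : ℕ} {x y : Fin n → F} (hx : x ≠ 0) (hy : y ≠ 0) {c : F'}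
    (h : (fun i => σ (y i)) = c • fun i => σ (x i)) : ∃ d : F, d ≠ 0 ∧ y = d • x := by
  obtain ⟨i0, hi0⟩ := Function.ne_iff.1 hx
  have hσ : σ (x i0) ≠ 0 := (map_ne_zero σ).2 hi0
  have h0 : σ (y i0) = c * σ (x i0) := congrFun h i0
  have hc : c = σ (y i0 / x i0) := by
    rw [map_div₀, h0, mul_div_cancel_right₀ _ hσ]
  have h1 : y = (y i0 / x i0) • x := by
    funext i
    apply σ.injective
    have h2 : σ (y i) = c * σ (x i) := congrFun h i
    rw [h2, hc, Pi.smul_apply, smul_eq_mul, map_mul]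
  refine ⟨y i0 / x i0, ?_, h1⟩
  intro h3
  rw [h3, zero_smul] at h1
  exact hy h1

lemma bc_injective : Function.Injective (bc σ (𝒜 := 𝒜) (φ := φ)) := by
  intro P Q h
  obtain ⟨x, hx⟩ := exists_rep P
  obtain ⟨y, hy⟩ := exists_rep Q
  have h1 := bc_spec σ hx
  rw [h] at h1
  have h2 := bc_spec σ hy
  obtain ⟨c, hc, hcc⟩ := h1.unique h2
  obtain ⟨d, hd, hdd⟩ := prop_of_map σ hx.ne hy.ne hcc
  exact hx.ext' hy hd hdd

variable [AddCommGroup (𝒜.Pts φ)] (hG : 𝒜.IsGroupLaw φ) [AddCommGroup (𝒜.Pts (σ.comp φ))]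
  (hG' : 𝒜.IsGroupLaw (σ.comp φ))

include hG hG'

lemma bc_zero : bc σ (0 : 𝒜.Pts φ) = 0 := (bc_spec σ hG.zero).ext hG'.zero

lemma bc_add (P Q : 𝒜.Pts φ) : bc σ (P + Q) = bc σ P + bc σ Q := by
  obtain ⟨x, hx⟩ := exists_rep P
  obtain ⟨y, hy⟩ := exists_rep Q
  obtain ⟨s, hs, hne⟩ := hG.complete P Q x y hx hy
  have h1 := bc_spec σ (hG.add P Q x y hx hy s hs hne)
  have h2 : law (σ.comp φ) s (fun i => σ (x i)) (fun i => σ (y i)) ≠ 0 := by
    rw [law_comp]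
    exact map_ne σ hne
  have h3 := hG'.add _ _ _ _ (bc_spec σ hx) (bc_spec σ hy) s hs h2
  rw [law_comp] at h3
  exact h1.ext h3

/-- base change is a homomorphism -/
noncomputable def bcHom : 𝒜.Pts φ →+ 𝒜.Pts (σ.comp φ) where
  toFun := bc σ
  map_zero' := bc_zero σ hG hG'
  map_add' := bc_add σ hG hG'

lemma bc_nsmul (n : ℕ) (P : 𝒜.Pts φ) : bc σ (n • P) = n • bc σ P :=
  map_nsmul (bcHom σ hG hG') n P

end

section rigid

variable {R : Type} [CommRing R] {N : ℕ} {𝒜 : Family R N} (h𝒜 : 𝒜.IsGroupFamily)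
  {Kb Ω : Type} [Field Kb] [IsAlgClosed Kb] [Field Ω] (σ : Kb →+* Ω) {φ : R →+* Kb}
  (hφ : φ 𝒜.disc ≠ 0)
  [AddCommGroup (𝒜.Pts φ)] (hG : 𝒜.IsGroupLaw φ) [AddCommGroup (𝒜.Pts (σ.comp φ))]
  (hG' : 𝒜.IsGroupLaw (σ.comp φ))

/-- a place of an extension of an algebraically closed field at a given vector -/
lemma exists_spec {n : ℕ} (x : Fin n → Ω) : ∃ (A : ValuationSubring Ω) (z : Fin n → Kb)
    (hA : ∀ c, σ c ∈ A), (∀ i, x i ∈ A) ∧
    (∀ i, ∃ h : x i - σ (z i) ∈ A, (⟨_, h⟩ : A) ∈ maximalIdeal A) ∧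
    ∀ (R : Type) [CommRing R] (φ : R →+* Kb) (f : MvPolynomial (Fin n) R),
      f.eval₂ (σ.comp φ) x = 0 → f.eval₂ φ z = 0 := by
  classical
  let _ : Algebra Kb Ω := σ.toAlgebra
  let B : Subalgebra Kb Ω := Algebra.adjoin Kb (Set.range x)
  have hft : Algebra.FiniteType Kb B :=
    Subalgebra.fg_iff_finiteType _ |>.1 ⟨(Set.finite_range x).toFinset, by simp [B]⟩
  obtain ⟨𝔫, h𝔫⟩ := Ideal.exists_maximal B
  let _ : Field (B ⧸ 𝔫) := Ideal.Quotient.field 𝔫
  have hft' : Algebra.FiniteType Kb (B ⧸ 𝔫) := inferInstance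
  have hfin : Module.Finite Kb (B ⧸ 𝔫) := finite_of_finite_type_of_isJacobsonRing Kb (B ⧸ 𝔫)
  have hint : Algebra.IsIntegral Kb (B ⧸ 𝔫) := Algebra.IsIntegral.of_finite Kb (B ⧸ 𝔫)
  have hbij : Function.Bijective (algebraMap Kb (B ⧸ 𝔫)) :=
    IsAlgClosed.algebraMap_bijective_of_isIntegral
  have hxB : ∀ i, x i ∈ B := fun i => Algebra.subset_adjoin ⟨i, rfl⟩
  choose z hz using fun i => hbij.2 (Ideal.Quotient.mk 𝔫 ⟨x i, hxB i⟩)
  obtain ⟨A, hBA, hA⟩ := Ideal.image_subset_nonunits_valuationSubring (K := Ω)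
    (A := B.toSubring) 𝔫 h𝔫.ne_top
  have hσB : ∀ c, σ c ∈ B := fun c => B.algebraMap_mem c
  have hσA : ∀ c, σ c ∈ A := fun c => hBA (hσB c)
  have hxA : ∀ i, x i ∈ A := fun i => hBA (hxB i)
  refine ⟨A, z, hσA, hxA, ?_, ?_⟩
  · intro i
    have h1 : (⟨x i, hxB i⟩ - ⟨σ (z i), hσB (z i)⟩ : B) ∈ 𝔫 := by
      rw [← Ideal.Quotient.eq_zero_iff_mem, map_sub, ← hz i, sub_eq_zero]
      rfl
    have h2 : x i - σ (z i) ∈ (A.nonunits : Set Ω) := hA ⟨_, h1, rfl⟩
    rw [← A.image_maximalIdeal] at h2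
    obtain ⟨a, ha, hax⟩ := h2
    have h3 : x i - σ (z i) ∈ A := by rw [← hax]; exact a.2
    refine ⟨h3, ?_⟩
    have h4 : (⟨x i - σ (z i), h3⟩ : A) = a := Subtype.ext hax.symm
    rw [h4]
    exact ha
  · intro R _ φ f hf
    apply hbij.1
    rw [map_zero]
    let ξ : Fin n → B := fun i => ⟨x i, hxB i⟩
    let φB : R →+* B := (algebraMap Kb B).comp φ
    have h1 : ((f.eval₂ φB ξ : B) : Ω) = f.eval₂ (σ.comp φ) x :=
      MvPolynomial.eval₂_comp_left (B.val : B →+* Ω) φB ξ f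
    have h2 : f.eval₂ φB ξ = 0 := Subtype.ext (by rw [h1, hf]; rfl)
    have h3 : Ideal.Quotient.mk 𝔫 (f.eval₂ φB ξ) =
        f.eval₂ ((Ideal.Quotient.mk 𝔫).comp φB) (Ideal.Quotient.mk 𝔫 ∘ ξ) :=
      MvPolynomial.eval₂_comp_left (Ideal.Quotient.mk 𝔫) φB ξ f
    have h4 : algebraMap Kb (B ⧸ 𝔫) (f.eval₂ φ z) =
        f.eval₂ ((algebraMap Kb (B ⧸ 𝔫)).comp φ) (algebraMap Kb (B ⧸ 𝔫) ∘ z) :=
      MvPolynomial.eval₂_comp_left (algebraMap Kb (B ⧸ 𝔫)) φ z f
    rw [h2, map_zero] at h3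
    rw [h4, h3]
    congr 1
    funext i
    exact hz i

include h𝒜 hφ hG hG'

/-- **Rigidity.** The torsion points over an extension of an algebraically closed field `Kb` are
defined over `Kb`. -/
theorem rigid {P : 𝒜.Pts (σ.comp φ)} {n : ℕ} (hn : (n : Kb) ≠ 0) (hnP : n • P = 0) :
    ∃ P0 : 𝒜.Pts φ, bc σ P0 = P := by
  obtain ⟨x, hx⟩ := exists_rep P
  obtain ⟨i0, hi0⟩ := Function.ne_iff.1 hx.ne
  have hx1 := hx.smul (inv_ne_zero hi0)
  set y : Fin (N + 1) → Ω := (x i0)⁻¹ • x with hy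
  have hy0 : y i0 = 1 := by
    rw [hy, Pi.smul_apply, smul_eq_mul]
    exact inv_mul_cancel₀ hi0
  obtain ⟨A, z, hσA, hyA, hyz, hev⟩ := exists_spec σ y
  -- the specialised point
  have hz0 : z i0 = 1 := by
    have h1 := hev R φ (X i0 - C 1)
    have h2 : (X i0 - C 1 : MvPolynomial (Fin (N + 1)) R).eval₂ (σ.comp φ) y = 0 := by
      rw [eval₂_sub, eval₂_X, eval₂_C, map_one, hy0, sub_self]
    have h3 := h1 h2
    rw [eval₂_sub, eval₂_X, eval₂_C, map_one, sub_eq_zero] at h3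
    exact h3
  have hzne : z ≠ 0 := by
    intro h0
    rw [h0] at hz0
    exact zero_ne_one hz0
  obtain ⟨P0, hP0⟩ : ∃ P0 : 𝒜.Pts φ, Rep P0 z :=
    exists_pt' hzne fun f hf => hev R φ f (hx1.eqs f hf)
  refine ⟨P0, ?_⟩
  -- the reduction
  have hφA : ∀ r, (σ.comp φ) r ∈ A := fun r => hσA (φ r)
  have hdisc : phiK A hφA 𝒜.disc ≠ 0 := by
    rw [phiK_apply, Ne, residue_eq_zero_iff, mem_maximalIdeal, mem_nonunits_iff, not_not]
    refine IsUnit.of_mul_eq_one ⟨σ (φ 𝒜.disc)⁻¹, hσA _⟩ ?_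
    apply Subtype.ext
    show σ (φ 𝒜.disc) * σ (φ 𝒜.disc)⁻¹ = 1
    rw [← map_mul, mul_inv_cancel₀ hφ, map_one]
  obtain ⟨_, hK⟩ := h𝒜.group (ResidueField A) (phiK A hφA) hdisc
  let σA : Kb →+* A := σ.codRestrict A hσA
  have hP0' := bc_spec σ hP0
  let ya : Fin (N + 1) → A := fun i => ⟨y i, hyA i⟩
  have hyaP : Prim ya := ⟨i0, by
    have : ya i0 = 1 := Subtype.ext hy0
    rw [this]
    exact isUnit_one⟩
  let za : Fin (N + 1) → A := fun i => σA (z i)
  have hzaP : Prim za := ⟨i0, by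
    have : za i0 = 1 := by
      show σA (z i0) = 1
      rw [hz0, map_one]
    rw [this]
    exact isUnit_one⟩
  have r1 : Rep (red A hφA P) fun i => residue A (ya i) := red_spec A hφA hyaP hx1
  have r2 : Rep (red A hφA (bc σ P0)) fun i => residue A (za i) := red_spec A hφA hzaP hP0'
  have hyza : (fun i => residue A (ya i)) = fun i => residue A (za i) := by
    funext i
    rw [← sub_eq_zero, ← map_sub, residue_eq_zero_iff]
    obtain ⟨h1, h2⟩ := hyz i
    convert h2 using 1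
    rfl
  rw [hyza] at r1
  have hred : red A hφA P = red A hφA (bc σ P0) := r1.ext r2
  -- the specialised point is torsion
  have hnred : n • red A hφA (bc σ P0) = 0 := by
    rw [← hred]
    have := map_nsmul (redHom A hφA hG' hK) n P
    rw [hnP, map_zero] at this
    exact this.symm
  have hnP0 : n • P0 = 0 := by
    obtain ⟨u, hu⟩ := exists_rep (n • P0)
    obtain ⟨j0, hj0⟩ := Function.ne_iff.1 hu.ne
    have hprim : Prim fun i => σA (u i) := by
      refine ⟨j0, IsUnit.map σA (isUnit_iff_ne_zero.2 hj0)⟩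
    have h1 : Rep (bc σ (n • P0)) fun i => ((σA (u i) : A) : Ω) := bc_spec σ hu
    have h2 := red_spec A hφA hprim h1
    have h3 : red A hφA (bc σ (n • P0)) = 0 := by
      rw [bc_nsmul σ hG hG']
      have := map_nsmul (redHom A hφA hG' hK) n (bc σ P0)
      rw [← hnred]
      exact this
    rw [h3] at h2
    have h4 := hK.zero
    obtain ⟨c, hc, hcc⟩ := h4.unique h2
    have h5 : (fun i => ((residue A).comp σA) (u i)) =
        c • fun i => ((residue A).comp σA) (φ (𝒜.zero i)) := hcc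
    obtain ⟨d, hd, hdd⟩ := prop_of_map ((residue A).comp σA) hG.zero.ne hu.ne h5
    exact (hG.zero.ext' hu hd hdd).symm
  have hker : P - bc σ P0 = 0 := by
    refine ker_torsion A hφA hG' hK (n := n) ?_ ?_ ?_
    · have := map_sub (redHom A hφA hG' hK) P (bc σ P0)
      have e3 : redHom A hφA hG' hK P = redHom A hφA hG' hK (bc σ P0) := hred
      rw [e3, sub_self] at this
      exact this
    · have h6 : (n : A) = σA (n : Kb) := by simp
      rw [h6]
      exact IsUnit.map σA (isUnit_iff_ne_zero.2 hn)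
    · rw [smul_sub, hnP, ← bc_nsmul σ hG hG', hnP0, bc_zero σ hG hG', sub_zero]
  exact (sub_eq_zero.1 hker).symm

end rigid

end Pool.Agent.Y729.AV
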