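import Mathlib

set_option autoImplicit false
set_option linter.unusedSectionVars false

/-! Places of number fields above a given prime. -/

namespace Pool.Agent.Y729.AV

open IsLocalRing NumberField IsDedekindDomain

theorem exists_place (k L : Type) [Field k] [NumberField k] [Field L] [NumberField L]
    [Algebra k L] (𝔭 : Ideal (𝓞 k)) [h𝔭 : 𝔭.IsMaximal] {p : ℕ} (hp : p.Prime)
    (hp𝔭 : (p : 𝓞 k) ∈ 𝔭) :
    ∃ A : ValuationSubring L, ∃ h : ∀ x : 𝓞 k, algebraMap k L (algebraMap (𝓞 k) k x) ∈ A,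
      (∀ x ∉ 𝔭, residue A ⟨_, h x⟩ ≠ 0) ∧ Finite (ResidueField A) ∧
      Nat.card (ResidueField A) ≤ p ^ Module.finrank ℚ L ∧ (p : ResidueField A) = 0 := by
  obtain ⟨𝔓, h𝔓, hover⟩ := Ideal.exists_maximal_ideal_liesOver_of_isIntegral 𝔭 (S := 𝓞 L)
  have hpP : (p : 𝓞 L) ∈ 𝔓 := by
    have h1 : algebraMap (𝓞 k) (𝓞 L) (p : 𝓞 k) ∈ 𝔓 := by
      rw [← Ideal.mem_comap, ← Ideal.under_def, ← hover.over]
      exact hp𝔭
    simpa using h1
  have hbot : 𝔓 ≠ ⊥ := by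
    rintro rfl
    rw [Ideal.mem_bot] at hpP
    exact hp.ne_zero (by exact_mod_cast hpP)
  let v : HeightOneSpectrum (𝓞 L) := ⟨𝔓, h𝔓.isPrime, hbot⟩
  let A : ValuationSubring L := v.valuationSubringAtPrime L
  have hloc : IsLocalization.AtPrime A 𝔓 :=
    HeightOneSpectrum.instIsLocalizationPrimeComplAsIdealSubtypeMemValuationSubringValuationSubringAtPrime v
  have hmap : ∀ x : 𝓞 k, algebraMap k L (algebraMap (𝓞 k) k x) =
      ((algebraMap (𝓞 L) A (algebraMap (𝓞 k) (𝓞 L) x) : A) : L) := fun x => rfl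
  have hmem : ∀ x : 𝓞 k, algebraMap k L (algebraMap (𝓞 k) k x) ∈ A := by
    intro x
    rw [hmap]
    exact Subtype.coe_prop _
  have hres : ∀ y : 𝓞 L, residue A (algebraMap (𝓞 L) A y) = 0 ↔ y ∈ 𝔓 := by
    intro y
    rw [residue_eq_zero_iff]
    exact IsLocalization.AtPrime.to_map_mem_maximal_iff A 𝔓 y
  have e : (𝓞 L ⧸ 𝔓) ≃+* ResidueField A := IsLocalization.AtPrime.equivQuotMaximalIdeal 𝔓 A
  have hfin : Finite (𝓞 L ⧸ 𝔓) := Ideal.finiteQuotientOfFreeOfNeBot 𝔓 hbot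
  refine ⟨A, hmem, ?_, Finite.of_equiv _ e.toEquiv, ?_, ?_⟩
  · intro x hx h0
    apply hx
    have h1 : residue A (algebraMap (𝓞 L) A (algebraMap (𝓞 k) (𝓞 L) x)) = 0 := h0
    rw [hres] at h1
    rw [hover.over, Ideal.under_def, Ideal.mem_comap]
    exact h1
  · have h1 : Nat.card (ResidueField A) = Ideal.absNorm 𝔓 := by
      rw [Ideal.absNorm_apply, Submodule.cardQuot_apply]
      exact (Nat.card_congr e.toEquiv).symm
    rw [h1]
    have h2 : Ideal.absNorm 𝔓 ∣ Ideal.absNorm (Ideal.span {(p : 𝓞 L)}) :=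
      Ideal.absNorm_dvd_absNorm_of_le (by
        rw [Ideal.span_singleton_le_iff_mem]
        exact hpP)
    have h3 : Ideal.absNorm (Ideal.span {(p : 𝓞 L)}) = p ^ Module.finrank ℚ L := by
      rw [Ideal.absNorm_span_singleton]
      have h4 : (p : 𝓞 L) = algebraMap ℤ (𝓞 L) (p : ℤ) := by simp
      rw [h4, Algebra.norm_algebraMap, RingOfIntegers.rank]
      simp [Int.natAbs_pow]
    rw [h3] at h2
    exact Nat.le_of_dvd (pow_pos hp.pos _) h2
  · have h1 : (p : ResidueField A) = residue A (algebraMap (𝓞 L) A (p : 𝓞 L)) := by simp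
    rw [h1, hres]
    exact hpP

theorem exists_prime_above (k : Type) [Field k] [NumberField k] {p : ℕ} (hp : p.Prime) :
    ∃ 𝔭 : Ideal (𝓞 k), 𝔭.IsMaximal ∧ (p : 𝓞 k) ∈ 𝔭 := by
  have h : Ideal.span {(p : 𝓞 k)} ≠ ⊤ := by
    intro h
    have h1 : Ideal.absNorm (Ideal.span {(p : 𝓞 k)}) = p ^ Module.finrank ℚ k := by
      rw [Ideal.absNorm_span_singleton]
      have h4 : (p : 𝓞 k) = algebraMap ℤ (𝓞 k) (p : ℤ) := by simp
      rw [h4, Algebra.norm_algebraMap, RingOfIntegers.rank]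
      simp [Int.natAbs_pow]
    rw [h, Ideal.absNorm_top] at h1
    have h2 : 1 < p ^ Module.finrank ℚ k :=
      Nat.one_lt_pow Module.finrank_pos.ne' hp.one_lt
    omega
  obtain ⟨𝔭, h1, h2⟩ := Ideal.exists_le_maximal _ h
  exact ⟨𝔭, h1, h2 (Ideal.mem_span_singleton_self _)⟩

end Pool.Agent.Y729.AV
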