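import Pool.Agent.Y729.AV.Tors
import Pool.Agent.Y729.AV.NF

set_option autoImplicit false
set_option linter.unusedSectionVars false

/-! The torsion of the members of a family over number fields of bounded degree. -/

namespace Pool.Agent.Y729.AV

open IsLocalRing NumberField Family

section

variable {k : Type} [Field k] [NumberField k] {R : Type} [CommRing R] {N : ℕ}
  {𝒜 : Family R N}

/-- the composite `R → 𝓞 k → k → L` -/
noncomputable def toField (χ : R →+* 𝓞 k) (L : Type) [Field L] [Algebra k L] : R →+* L :=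
  (algebraMap k L).comp ((algebraMap (𝓞 k) k).comp χ)

theorem torsion_le (h𝒜 : 𝒜.IsGroupFamily) {g B : ℕ}
    (hgB : ∀ (F : Type) [Field F] [Finite F] (φ : R →+* F), φ 𝒜.disc ≠ 0 →
      Nat.card (𝒜.Pts φ) ≤ B * Nat.card F ^ g)
    (χ : R →+* 𝓞 k) {D Q : ℕ} {p q : ℕ} (hp : p.Prime)
    (hq : q.Prime) (hpq : p ≠ q) (hpQ : p ≤ Q) (hqQ : q ≤ Q) (𝔭 𝔮 : Ideal (𝓞 k))
    [𝔭.IsMaximal] [𝔮.IsMaximal] (hp𝔭 : (p : 𝓞 k) ∈ 𝔭) (hq𝔮 : (q : 𝓞 k) ∈ 𝔮)
    (h1 : χ 𝒜.disc ∉ 𝔭) (h2 : χ 𝒜.disc ∉ 𝔮) (L : Type) [Field L] [Algebra k L]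
    [FiniteDimensional k L] (hL : Module.finrank k L ≤ D)
    [AddCommGroup (𝒜.Pts (toField χ L))] (hG : 𝒜.IsGroupLaw (toField χ L)) :
    𝒜.torsionCount (toField χ L) ≤ ((B * (Q ^ (Module.finrank ℚ k * D)) ^ g) ^ 2 : ℕ) := by
  have : NumberField L := NumberField.of_module_finite k L
  obtain ⟨A, hA, hA1, hA2, hA3, hA4⟩ := exists_place k L 𝔭 hp hp𝔭
  obtain ⟨E, hE, hE1, hE2, hE3, hE4⟩ := exists_place k L 𝔮 hq hq𝔮
  have hφA : ∀ r, toField χ L r ∈ A := fun r => hA (χ r)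
  have hφE : ∀ r, toField χ L r ∈ E := fun r => hE (χ r)
  obtain ⟨_, hKA⟩ := h𝒜.group (ResidueField A) (phiK A hφA) (hA1 _ h1)
  obtain ⟨_, hKE⟩ := h𝒜.group (ResidueField E) (phiK E hφE) (hE1 _ h2)
  have hdeg : Module.finrank ℚ L ≤ Module.finrank ℚ k * D := by
    rw [← Module.finrank_mul_finrank ℚ k L]
    exact Nat.mul_le_mul_left _ hL
  have hX : ∀ r : ℕ, r.Prime → r ≤ Q →
      r ^ Module.finrank ℚ L ≤ Q ^ (Module.finrank ℚ k * D) := by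
    intro r hr hrQ
    exact (Nat.pow_le_pow_left hrQ _).trans
      (Nat.pow_le_pow_right (hr.pos.trans_le hrQ) hdeg)
  refine torsion_encard hG A E hφA hφE hKA hKE hp hq hpq hA4 hE4 ?_ ?_
  · refine (hgB _ _ (hA1 _ h1)).trans (Nat.mul_le_mul_left _ (Nat.pow_le_pow_left ?_ _))
    exact hA3.trans (hX p hp hpQ)
  · refine (hgB _ _ (hE1 _ h2)).trans (Nat.mul_le_mul_left _ (Nat.pow_le_pow_left ?_ _))
    exact hE3.trans (hX q hq hqQ)

end

end Pool.Agent.Y729.AV
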