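import Mathlib

set_option autoImplicit false

/-! A lower bound for products of primes. -/

namespace Pool.Agent.Y729.AV

open Real

/-- the primes up to `Q` -/
def PQ (Q : ℕ) : Finset ℕ := (Finset.range (Q + 1)).filter Nat.Prime

lemma mem_PQ {Q p : ℕ} : p ∈ PQ Q ↔ p ≤ Q ∧ p.Prime := by
  simp [PQ]

lemma theta_PQ (Q : ℕ) : Chebyshev.theta Q = ∑ p ∈ PQ Q, Real.log p := by
  rw [Chebyshev.theta_eq_log_primorial, Nat.floor_natCast, primorial]
  push_cast
  rw [Real.log_prod]
  · rfl
  · intro p hp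
    rw [Finset.mem_filter] at hp
    exact_mod_cast hp.2.ne_zero

/-- Chebyshev's bound in a weak form -/
theorem cheb (n : ℕ) : (n : ℝ) / 2 - 1000000 ≤ ∑ p ∈ PQ n, Real.log p := by
  rw [← theta_PQ]
  rcases Nat.eq_zero_or_pos n with rfl | hn
  · have := Chebyshev.theta_nonneg ((0 : ℕ) : ℝ)
    push_cast at this ⊢
    linarith
  · refine le_trans ?_ (Chebyshev.theta_ge n)
    have hn1 : (1 : ℝ) ≤ n := by exact_mod_cast hn
    set s : ℝ := Real.sqrt (Real.sqrt n) with hs
    have hs0 : 0 ≤ s := Real.sqrt_nonneg _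
    have hs2 : s ^ 2 = Real.sqrt n := Real.sq_sqrt (Real.sqrt_nonneg _)
    have hs4 : s ^ 4 = n := by
      have h1 : (Real.sqrt n) ^ 2 = (n : ℝ) := Real.sq_sqrt (by linarith)
      calc s ^ 4 = (s ^ 2) ^ 2 := by ring
        _ = (n : ℝ) := by rw [hs2, h1]
    have hspos : 0 < s := by
      rcases hs0.lt_or_eq with h | h
      · exact h
      · exfalso
        rw [← h] at hs4
        norm_num at hs4
        linarith
    have hlog : Real.log n ≤ 4 * s := by
      rw [← hs4, Real.log_pow]
      have := Real.log_le_sub_one_of_pos hspos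
      push_cast
      linarith
    have hlog1 : Real.log (n + 1) ≤ 1 + 4 * s := by
      have h2 : ((n : ℝ) + 1) ≤ 2 * n := by linarith
      have h3 : Real.log (n + 1) ≤ Real.log (2 * n) := Real.log_le_log (by linarith) h2
      rw [Real.log_mul (by norm_num) (by linarith)] at h3
      have h4 : Real.log 2 ≤ 1 := by
        have := Real.log_two_lt_d9
        linarith
      linarith
    have hl2 : (0.69 : ℝ) ≤ Real.log 2 := by
      have := Real.log_two_gt_d9
      linarith
    have h5 : 2 * Real.sqrt n * Real.log n ≤ 8 * s ^ 3 := by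
      rw [← hs2]
      nlinarith [mul_le_mul_of_nonneg_left hlog (sq_nonneg s)]
    have h6 : (n : ℝ) * Real.log 2 ≥ 0.69 * s ^ 4 := by
      rw [hs4]
      nlinarith
    have h7 : 8 * s ^ 3 + 4 * s + 1 ≤ 0.19 * s ^ 4 + 1000000 := by
      rcases le_total s 45 with h | h
      · have h8 : s ^ 3 ≤ 45 ^ 3 := pow_le_pow_left₀ hs0 h 3
        have h9 : 0 ≤ s ^ 4 := by positivity
        nlinarith
      · have h8 : s ^ 3 * (0.19 * s - 8) ≥ s ^ 3 * 0.5 := by
          apply mul_le_mul_of_nonneg_left _ (by positivity)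
          linarith
        have h9 : s ^ 3 ≥ 45 ^ 2 * s := by
          have : s ^ 2 ≥ 45 ^ 2 := pow_le_pow_left₀ (by norm_num) h 2
          nlinarith
        nlinarith
    have h10 : (n : ℝ) / 2 = 0.5 * s ^ 4 := by rw [hs4]; ring
    rw [h10]
    nlinarith

end Pool.Agent.Y729.AV
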