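import Pool.Agent.Y729.AV.Cheb
import Pool.Agent.W925.UB.Densp

set_option autoImplicit false
set_option linter.unusedSectionVars false

/-! The values of an integer polynomial are rarely divisible by all small primes but one. -/

namespace Pool.Agent.Y729.AV

open MvPolynomial

/-- residue classes in an interval -/
theorem card_class (q : ℕ) (hq : 0 < q) (H : ℕ) (z : ℤ) :
    ((Finset.Icc (-(H : ℤ)) H).filter (fun x : ℤ => (q : ℤ) ∣ x - z)).card ≤ 2 * H / q + 1 := by
  classical
  have hp : (0 : ℤ) < q := by exact_mod_cast hq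
  have h := Finset.card_le_card_of_injOn (s := (Finset.Icc (-(H : ℤ)) H).filter
    (fun x : ℤ => (q : ℤ) ∣ x - z)) (t := Finset.range (2 * H / q + 1))
    (fun x : ℤ => ((x + H) / q).toNat) (by
      intro x hx
      simp only [Finset.coe_filter, Finset.mem_Icc, Set.mem_ofPred_eq] at hx
      simp only [Finset.coe_range, Set.mem_Iio]
      have h1 : (x + H) / q ≤ 2 * H / q := Int.ediv_le_ediv hp (by linarith [hx.1.2])
      have h2 : 0 ≤ (x + H) / q := Int.ediv_nonneg (by linarith [hx.1.1]) hp.le
      have h3 : ((2 * H / q : ℕ) : ℤ) = 2 * H / q := by push_cast; rfl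
      omega) (by
      intro x hx y hy hxy
      simp only [Finset.coe_filter, Finset.mem_Icc, Set.mem_ofPred_eq] at hx hy
      have h2 : 0 ≤ (x + H) / q := Int.ediv_nonneg (by linarith [hx.1.1]) hp.le
      have h2' : 0 ≤ (y + H) / q := Int.ediv_nonneg (by linarith [hy.1.1]) hp.le
      have h3 : (x + H) / q = (y + H) / q := by
        simp only at hxy
        omega
      have h4 : (q : ℤ) ∣ x - y := by
        have := dvd_sub hx.2 hy.2
        simpa using this
      have h5 : x ≡ y [ZMOD q] := by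
        apply Int.modEq_iff_dvd.2
        have := (dvd_neg.2 h4)
        simpa using this
      have h6 : (x + H) % q = (y + H) % q := h5.add_right H
      have h7 := Int.mul_ediv_add_emod (x + H) q
      have h8 := Int.mul_ediv_add_emod (y + H) q
      rw [h3, h6, h8] at h7
      linarith)
  rwa [Finset.card_range] at h

section

variable {τ : Type} [Fintype τ] [DecidableEq τ]

/-- the box -/
noncomputable def bx (τ : Type) [Fintype τ] [DecidableEq τ] (H : ℕ) : Finset (τ → ℤ) :=
  Fintype.piFinset fun _ => Finset.Icc (-(H : ℤ)) H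

lemma mem_bx {H : ℕ} {w : τ → ℤ} : w ∈ bx τ H ↔ ∀ i, |w i| ≤ (H : ℤ) := by
  simp [bx, abs_le]

lemma card_bx (H : ℕ) : (bx τ H).card = (2 * H + 1) ^ Fintype.card τ := by
  rw [bx, Fintype.card_piFinset]
  simp only [Int.card_Icc, Finset.prod_const, Finset.card_univ]
  congr 1
  omega

variable (n : MvPolynomial τ ℤ)

/-- the number of the zeros modulo `p` -/
noncomputable def zer (p : ℕ) : ℕ :=
  Nat.card {z : τ → ZMod p // eval z (MvPolynomial.map (Int.castRingHom (ZMod p)) n) = 0}

lemma eval_mod (p : ℕ) (v : τ → ℤ) : (p : ℤ) ∣ eval v n ↔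
    eval (fun i => (v i : ZMod p)) (MvPolynomial.map (Int.castRingHom (ZMod p)) n) = 0 := by
  rw [← ZMod.intCast_zmod_eq_zero_iff_dvd]
  have : eval (fun i => (v i : ZMod p)) (MvPolynomial.map (Int.castRingHom (ZMod p)) n) =
      ((eval v n : ℤ) : ZMod p) := by
    rw [eval_map]
    have h5 := MvPolynomial.eval₂_comp_left (Int.castRingHom (ZMod p)) (RingHom.id ℤ) v n
    simp only [MvPolynomial.eval₂_id] at h5
    have h6 : (Int.castRingHom (ZMod p)) (eval v n) = ((eval v n : ℤ) : ZMod p) := rfl
    rw [← h6, h5]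
    rfl
  rw [this]

lemma zer_le (p : ℕ) (hp : p.Prime) : zer n p ≤ p ^ Fintype.card τ := by
  have : NeZero p := ⟨hp.ne_zero⟩
  refine (Nat.card_le_card_of_injective (Subtype.val) Subtype.val_injective).trans ?_
  rw [Nat.card_fun, Nat.card_zmod, Nat.card_eq_fintype_card]

lemma zer_le' (hn : n ≠ 0) : ∃ P₀ : ℕ, ∀ p : ℕ, p.Prime → P₀ ≤ p →
    (zer n p : ℝ) ≤ n.totalDegree / p * p ^ Fintype.card τ := by
  classical
  obtain ⟨μ, hμ⟩ := MvPolynomial.ne_zero_iff.1 hn
  refine ⟨(coeff μ n).natAbs + 1, fun p hp hpP => ?_⟩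
  have : Fact p.Prime := ⟨hp⟩
  set cb : MvPolynomial τ (ZMod p) := MvPolynomial.map (Int.castRingHom (ZMod p)) n with hcb
  have hcb0 : cb ≠ 0 := by
    intro h
    have h1 : coeff μ cb = 0 := by rw [h, coeff_zero]
    rw [hcb, coeff_map] at h1
    have h2 : ((coeff μ n : ℤ) : ZMod p) = 0 := h1
    rw [ZMod.intCast_zmod_eq_zero_iff_dvd] at h2
    have h3 : (p : ℤ) ≤ |coeff μ n| := Int.le_of_dvd (abs_pos.2 hμ) ((dvd_abs _ _).2 h2)
    rw [Int.abs_eq_natAbs] at h3
    omega
  have h1 := Pool.Agent.W925.UB.Densp.card_zeros p τ cb hcb0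
  have h2 : zer n p = ((Finset.univ : Finset (τ → ZMod p)).filter
      (fun z => eval z cb = 0)).card := by
    rw [zer, Nat.card_eq_fintype_card, Fintype.card_subtype]
  have hp0 : (0 : ℝ) < p := by exact_mod_cast hp.pos
  have hdeg : (cb.totalDegree : ℝ) ≤ n.totalDegree := by
    have : cb.totalDegree ≤ n.totalDegree := by
      unfold MvPolynomial.totalDegree
      exact Finset.sup_mono (support_map_subset _ n)
    exact_mod_cast this
  rw [h2]
  refine h1.trans ?_
  gcongr

/-- the count by the Chinese remainder theorem -/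
theorem crt_count (S : Finset ℕ) (hS : ∀ p ∈ S, p.Prime) (H : ℕ)
    (hq : ∏ p ∈ S, p ≤ 2 * H + 1) :
    (((bx τ H).filter fun w => ∀ p ∈ S, (p : ℤ) ∣ eval w n).card : ℝ) ≤
      (2 * (2 * H + 1)) ^ Fintype.card τ * ∏ p ∈ S, ((zer n p : ℝ) / p ^ Fintype.card τ) := by
  classical
  have : ∀ p : S, NeZero (p : ℕ) := fun p => ⟨(hS p p.2).ne_zero⟩
  set q : ℕ := ∏ p ∈ S, p with hqdef
  have hq0 : 0 < q := Finset.prod_pos fun p hp => (hS p hp).pos
  set B := (bx τ H).filter fun w => ∀ p ∈ S, (p : ℤ) ∣ eval w n with hB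
  have hcount := Finset.card_le_mul_card_image_of_maps_to (s := B)
    (t := Fintype.piFinset fun p : S => (Finset.univ : Finset (τ → ZMod p)).filter
      (fun z => eval z (MvPolynomial.map (Int.castRingHom (ZMod p)) n) = 0))
    (f := fun (v : τ → ℤ) (p : S) (i : τ) => (v i : ZMod p)) (by
      intro v hv
      rw [Fintype.mem_piFinset]
      intro p
      simp only [Finset.mem_filter, Finset.mem_univ, true_and]
      rw [hB, Finset.mem_filter] at hv
      exact (eval_mod n p v).1 (hv.2 p p.2)) ((2 * H / q + 1) ^ Fintype.card τ) (by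
      intro z _
      rcases (B.filter (fun v => (fun (p : S) (i : τ) => (v i : ZMod p)) = z)).eq_empty_or_nonempty
        with h0 | ⟨v0, hv0⟩
      · rw [h0]
        simp
      · rw [Finset.mem_filter] at hv0
        have hsub : B.filter (fun v => (fun (p : S) (i : τ) => (v i : ZMod p)) = z) ⊆
            Fintype.piFinset fun i : τ => (Finset.Icc (-(H : ℤ)) H).filter
              (fun x : ℤ => (q : ℤ) ∣ x - v0 i) := by
          intro v hv
          rw [Finset.mem_filter, hB, Finset.mem_filter, bx, Fintype.mem_piFinset] at hv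
          rw [Fintype.mem_piFinset]
          intro i
          rw [Finset.mem_filter]
          refine ⟨hv.1.1 i, ?_⟩
          have h1 : ∀ p ∈ S, (p : ℤ) ∣ v i - v0 i := by
            intro p hp
            have h2 := congrFun (congrFun (hv.2.trans hv0.2.symm) ⟨p, hp⟩) i
            simp only at h2
            rw [← sub_eq_zero, ← Int.cast_sub, ZMod.intCast_zmod_eq_zero_iff_dvd] at h2
            exact h2
          have h3 : ((∏ p ∈ S, (p : ℤ))) ∣ v i - v0 i := by
            refine Finset.prod_dvd_of_coprime ?_ h1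
            intro a ha b hb hab
            exact Nat.isCoprime_iff_coprime.2
              ((Nat.coprime_primes (hS a ha) (hS b hb)).2 hab)
          rw [hqdef]
          push_cast
          exact h3
        refine (Finset.card_le_card hsub).trans ?_
        rw [Fintype.card_piFinset]
        refine (Finset.prod_le_pow_card _ _ _ fun i _ => card_class q hq0 H (v0 i)).trans ?_
        rw [Finset.card_univ])
  have hcard : (Fintype.piFinset fun p : S => (Finset.univ : Finset (τ → ZMod p)).filter
      (fun z => eval z (MvPolynomial.map (Int.castRingHom (ZMod p)) n) = 0)).card =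
      ∏ p ∈ S, zer n p := by
    rw [Fintype.card_piFinset, ← Finset.prod_coe_sort S fun p => zer n p]
    refine Finset.prod_congr rfl fun p _ => ?_
    rw [zer, Nat.card_eq_fintype_card, Fintype.card_subtype]
  rw [hcard] at hcount
  have hK : ((2 * H / q + 1 : ℕ) : ℝ) * q ≤ 2 * (2 * H + 1) := by
    have h1 : (2 * H / q + 1) * q ≤ 2 * (2 * H + 1) := by
      have := Nat.div_mul_le_self (2 * H) q
      nlinarith
    exact_mod_cast h1
  have hqR : (q : ℝ) = ∏ p ∈ S, (p : ℝ) := by
    rw [hqdef]
    push_cast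
    rfl
  have hqpos : (0 : ℝ) < q := by exact_mod_cast hq0
  calc (B.card : ℝ) ≤ ((2 * H / q + 1 : ℕ) : ℝ) ^ Fintype.card τ * ∏ p ∈ S, (zer n p : ℝ) := by
        exact_mod_cast hcount
    _ = (((2 * H / q + 1 : ℕ) : ℝ) * q) ^ Fintype.card τ *
        ((∏ p ∈ S, (zer n p : ℝ)) / (q : ℝ) ^ Fintype.card τ) := by
        rw [mul_pow]
        field_simp
    _ = (((2 * H / q + 1 : ℕ) : ℝ) * q) ^ Fintype.card τ *
        ∏ p ∈ S, ((zer n p : ℝ) / p ^ Fintype.card τ) := by
        rw [Finset.prod_div_distrib, Finset.prod_pow, hqR]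
    _ ≤ (2 * (2 * H + 1)) ^ Fintype.card τ * ∏ p ∈ S, ((zer n p : ℝ) / p ^ Fintype.card τ) := by
        gcongr

end

end Pool.Agent.Y729.AV
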