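import Mathlib

set_option autoImplicit false

/-! Families of projective commutative algebraic groups, given by equations and addition laws. -/

namespace Pool.Agent.Y729.AV

open MvPolynomial

/-- Data for a family of projective commutative algebraic groups in `ℙ^N` over the open set
`disc ≠ 0` of `Spec R`: homogeneous equations, the coordinates of the neutral element, a set of
addition laws (vectors of polynomials in the coordinates of two points), and the function `disc`. -/
structure Family (R : Type) [CommRing R] (N : ℕ) where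
  /-- the equations -/
  eqs : Set (MvPolynomial (Fin (N + 1)) R)
  /-- the equations are homogeneous -/
  eqs_hom : ∀ f ∈ eqs, ∃ d : ℕ, f.IsHomogeneous d
  /-- the coordinates of the neutral element -/
  zero : Fin (N + 1) → R
  /-- the addition laws -/
  laws : Set (Fin (N + 1) → MvPolynomial (Fin (N + 1) ⊕ Fin (N + 1)) R)
  /-- the members of the family are considered where `disc` does not vanish -/
  disc : R

namespace Family

variable {R : Type} [CommRing R] {N : ℕ} (𝒜 : Family R N) {F : Type} [Field F] (φ : R →+* F)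

/-- The `F`-rational points of the member of the family at the `F`-valued point `φ` of `Spec R`. -/
def Pts : Type :=
  {P : Projectivization F (Fin (N + 1) → F) // ∀ (x : Fin (N + 1) → F) (hx : x ≠ 0),
    Projectivization.mk F x hx = P → ∀ f ∈ 𝒜.eqs, f.eval₂ φ x = 0}

variable {𝒜 φ}

/-- The vector `x` is a vector of homogeneous coordinates of the point `P`. -/
def Rep (P : 𝒜.Pts φ) (x : Fin (N + 1) → F) : Prop :=
  ∃ hx : x ≠ 0, Projectivization.mk F x hx = P.1

variable (𝒜 φ)

/-- The values of an addition law at two vectors. -/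
def law (s : Fin (N + 1) → MvPolynomial (Fin (N + 1) ⊕ Fin (N + 1)) R)
    (x y : Fin (N + 1) → F) : Fin (N + 1) → F :=
  fun i => (s i).eval₂ φ (Sum.elim x y)

/-- The given commutative group structure on the set of the `F`-rational points of the member `φ`
is the one of the family: the neutral element is the given one, every addition law represents the
sum of two points wherever its values are not all `0`, and at every pair of points there is an
addition law whose values are not all `0`. -/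
structure IsGroupLaw [AddCommGroup (𝒜.Pts φ)] : Prop where
  zero : Rep (0 : 𝒜.Pts φ) fun i => φ (𝒜.zero i)
  add : ∀ (P Q : 𝒜.Pts φ) (x y : Fin (N + 1) → F), Rep P x → Rep Q y → ∀ s ∈ 𝒜.laws,
    law φ s x y ≠ 0 → Rep (P + Q) (law φ s x y)
  complete : ∀ (P Q : 𝒜.Pts φ) (x y : Fin (N + 1) → F), Rep P x → Rep Q y → ∃ s ∈ 𝒜.laws,
    law φ s x y ≠ 0

/-- The data define a family of projective commutative algebraic groups over the locus where `disc`
does not vanish. -/
structure IsGroupFamily : Prop where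
  disc_ne : 𝒜.disc ≠ 0
  group : ∀ (F : Type) [Field F] (φ : R →+* F), φ 𝒜.disc ≠ 0 →
    ∃ _ : AddCommGroup (𝒜.Pts φ), 𝒜.IsGroupLaw φ

/-- The number of the torsion points (it may be infinite). -/
noncomputable def torsionCount [AddCommGroup (𝒜.Pts φ)] : ℕ∞ :=
  {P : 𝒜.Pts φ | IsOfFinAddOrder P}.encard

end Family

section basics

namespace Family

variable {R : Type} [CommRing R] {N : ℕ} {𝒜 : Family R N} {F : Type} [Field F] {φ : R →+* F}

lemma Rep.ne {P : 𝒜.Pts φ} {x : Fin (N + 1) → F} (h : Rep P x) : x ≠ 0 := h.1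

lemma exists_rep (P : 𝒜.Pts φ) : ∃ x, Rep P x :=
  ⟨P.1.rep, P.1.rep_nonzero, P.1.mk_rep⟩

lemma Rep.eqs {P : 𝒜.Pts φ} {x : Fin (N + 1) → F} (h : Rep P x) :
    ∀ f ∈ 𝒜.eqs, f.eval₂ φ x = 0 := P.2 x h.1 h.2

lemma Rep.smul {P : 𝒜.Pts φ} {x : Fin (N + 1) → F} (h : Rep P x) {c : F} (hc : c ≠ 0) :
    Rep P (c • x) := by
  refine ⟨smul_ne_zero hc h.1, ?_⟩
  rw [← h.2, Projectivization.mk_eq_mk_iff']
  exact ⟨c, rfl⟩

lemma Rep.unique {P : 𝒜.Pts φ} {x y : Fin (N + 1) → F} (h : Rep P x) (h' : Rep P y) :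
    ∃ c : F, c ≠ 0 ∧ y = c • x := by
  have h1 := h'.2.trans h.2.symm
  rw [Projectivization.mk_eq_mk_iff'] at h1
  obtain ⟨c, hc⟩ := h1
  refine ⟨c, ?_, hc.symm⟩
  rintro rfl
  exact h'.1 (by rw [← hc, zero_smul])

lemma Rep.ext {P Q : 𝒜.Pts φ} {x : Fin (N + 1) → F} (h : Rep P x) (h' : Rep Q x) : P = Q :=
  Subtype.ext (h.2.symm.trans h'.2)

lemma Rep.ext' {P Q : 𝒜.Pts φ} {x y : Fin (N + 1) → F} (h : Rep P x) (h' : Rep Q y)
    {c : F} (hc : c ≠ 0) (hxy : y = c • x) : P = Q := by
  subst hxy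
  exact (h.smul hc).ext h'

lemma exists_pt {x : Fin (N + 1) → F} (hx : x ≠ 0)
    (h : ∀ c : F, c ≠ 0 → ∀ f ∈ 𝒜.eqs, f.eval₂ φ (c • x) = 0) : ∃ P : 𝒜.Pts φ, Rep P x := by
  refine ⟨⟨Projectivization.mk F x hx, ?_⟩, hx, rfl⟩
  intro y hy hyx f hf
  rw [Projectivization.mk_eq_mk_iff'] at hyx
  obtain ⟨c, rfl⟩ := hyx
  refine h c ?_ f hf
  rintro rfl
  exact hy (zero_smul _ _)

lemma eval₂_smul {d : ℕ} {f : MvPolynomial (Fin (N + 1)) R} (hf : f.IsHomogeneous d) (c : F)
    (x : Fin (N + 1) → F) : f.eval₂ φ (c • x) = c ^ d * f.eval₂ φ x := by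
  rw [eval₂_eq', eval₂_eq', Finset.mul_sum]
  refine Finset.sum_congr rfl fun m hm => ?_
  have h1 : ∏ i, (c • x) i ^ m i = c ^ d * ∏ i, x i ^ m i := by
    simp only [Pi.smul_apply, smul_eq_mul, mul_pow]
    rw [Finset.prod_mul_distrib, Finset.prod_pow_eq_pow_sum]
    congr 2
    have h2 := hf (mem_support_iff.1 hm)
    rw [← h2, Finsupp.weight_apply, Finsupp.sum_fintype]
    · simp
    · simp
  rw [h1]
  ring

lemma exists_pt' {x : Fin (N + 1) → F} (hx : x ≠ 0)
    (h : ∀ f ∈ 𝒜.eqs, f.eval₂ φ x = 0) : ∃ P : 𝒜.Pts φ, Rep P x := by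
  refine exists_pt hx fun c _ f hf => ?_
  obtain ⟨d, hd⟩ := 𝒜.eqs_hom f hf
  rw [eval₂_smul hd, h f hf, mul_zero]

end Family

end basics

end Pool.Agent.Y729.AV
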