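import Pool.Agent.Y729.AV.Box

set_option autoImplicit false

/-! Torsion points of bounded degree. -/

namespace Pool.Agent.Y729.AV

open MvPolynomial NumberField

/-- The degree over `K` of the point with homogeneous coordinates `x`, that is, of the field
generated by the quotients of the coordinates. -/
noncomputable def degree (K : Type) [Field K] {Kb : Type} [Field Kb] [Algebra K Kb] {n : ℕ}
    (x : Fin n → Kb) : ℕ :=
  Module.finrank K (IntermediateField.adjoin K (Set.range fun ij : Fin n × Fin n =>
    x ij.1 / x ij.2))

/-- The geometric point of `Spec R` above a `K`-valued point. -/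
noncomputable def geom {R : Type} [CommRing R] (K : Type) [Field K] (χ : R →+* K) :
    R →+* AlgebraicClosure K :=
  (algebraMap K (AlgebraicClosure K)).comp χ

namespace Family

variable {R : Type} [CommRing R] {N : ℕ} (𝒜 : Family R N) (K : Type) [Field K] (χ : R →+* K)

/-- The points of degree at most `D` over `K` of the member at the `K`-valued point `χ` which are
killed by `n`, for the group law of the family. -/
def torsionPts (D n : ℕ) : Set (𝒜.Pts (geom K χ)) :=
  {P | degree K P.1.rep ≤ D ∧
    ∃ _ : AddCommGroup (𝒜.Pts (geom K χ)), 𝒜.IsGroupLaw (geom K χ) ∧ n • P = 0}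

/-- All torsion points of degree at most `D` over `K` of the member at the `K`-valued point `χ`. -/
def allTorsionPts (D : ℕ) : Set (𝒜.Pts (geom K χ)) :=
  {P | degree K P.1.rep ≤ D ∧
    ∃ _ : AddCommGroup (𝒜.Pts (geom K χ)), 𝒜.IsGroupLaw (geom K χ) ∧ IsOfFinAddOrder P}

end Family

/-- The `k`-valued point of `Spec 𝓞_k[t_1, ..., t_M]` given by the parameter `v`. -/
noncomputable def spec {k : Type} [Field k] {M : ℕ} (v : Fin M → 𝓞 k) :
    MvPolynomial (Fin M) (𝓞 k) →+* k :=
  (algebraMap (𝓞 k) k).comp (eval v)

/-- The generic point of `Spec 𝓞_k[t_1, ..., t_M]`, with values in the field `k(t_1, ..., t_M)`. -/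
noncomputable def generic (k : Type) [Field k] (M : ℕ) :
    MvPolynomial (Fin M) (𝓞 k) →+* FractionRing (MvPolynomial (Fin M) (𝓞 k)) :=
  algebraMap _ _

end Pool.Agent.Y729.AV
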