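import Pool.Agent.Y729.AV.Ultra
import Pool.Agent.Y729.AV.GDefs
import Pool.Agent.Y706.G15

set_option autoImplicit false
set_option linter.unusedSectionVars false

/-! Torsion points of bounded degree of the generic member and of the special members. -/

namespace Pool.Agent.Y729.AV

open MvPolynomial Family Pool.Agent.Y706

section basics

lemma le_encard_iff {X : Type} {s : Set X} {m : ℕ} :
    (m : ℕ∞) ≤ s.encard ↔ ∃ f : Fin m → X, Function.Injective f ∧ ∀ i, f i ∈ s := by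
  constructor
  · intro h
    obtain ⟨t, ht, htm⟩ := Set.exists_subset_encard_eq h
    have hfin : t.Finite := Set.finite_of_encard_eq_coe htm
    have hcard : hfin.toFinset.card = m := by
      have h1 := hfin.encard_eq_coe_toFinset_card
      rw [htm] at h1
      exact_mod_cast h1.symm
    let e := (hfin.toFinset.equivFinOfCardEq hcard).symm
    refine ⟨fun i => (e i).1, fun i j hij => e.injective (Subtype.ext hij), fun i => ?_⟩
    exact ht (hfin.mem_toFinset.1 (e i).2)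
  · rintro ⟨f, hf, hfs⟩
    have h1 : (Set.range f).encard = m := by
      rw [← Set.image_univ, hf.encard_image, Set.encard_univ]
      simp
    rw [← h1]
    exact Set.encard_le_encard (by rintro _ ⟨i, rfl⟩; exact hfs i)

variable {R : Type} [CommRing R] {N : ℕ} {𝒜 : Family R N} {F : Type} [Field F] {φ : R →+* F}

/-- multiples -/
def smulOf {X : Type} (G : AddCommGroup X) (n : ℕ) (P : X) : X := n • P

/-- the zero -/
def zeroOf {X : Type} (G : AddCommGroup X) : X := 0

/-- sums -/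
def addOf {X : Type} (G : AddCommGroup X) (P Q : X) : X := P + Q

lemma smulOf_zero {X : Type} (G : AddCommGroup X) (P : X) :
    smulOf G 0 P = zeroOf G := zero_nsmul P

lemma smulOf_succ {X : Type} (G : AddCommGroup X) (n : ℕ) (P : X) :
    smulOf G (n + 1) P = addOf G (smulOf G n P) P := succ_nsmul P n

lemma zero_rep (G : AddCommGroup (𝒜.Pts φ)) (hG : 𝒜.IsGroupLaw φ) :
    Rep (zeroOf G) fun i => φ (𝒜.zero i) := hG.zero

lemma add_rep (G : AddCommGroup (𝒜.Pts φ)) (hG : 𝒜.IsGroupLaw φ) (P Q : 𝒜.Pts φ)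
    (x y : Fin (N + 1) → F) (hx : Rep P x) (hy : Rep Q y)
    (s : Fin (N + 1) → MvPolynomial (Fin (N + 1) ⊕ Fin (N + 1)) R) (hs : s ∈ 𝒜.laws)
    (hne : law φ s x y ≠ 0) : Rep (addOf G P Q) (law φ s x y) := hG.add P Q x y hx hy s hs hne

lemma exists_law (G : AddCommGroup (𝒜.Pts φ)) (hG : 𝒜.IsGroupLaw φ) (P Q : 𝒜.Pts φ)
    (x y : Fin (N + 1) → F) (hx : Rep P x) (hy : Rep Q y) :
    ∃ s ∈ 𝒜.laws, law φ s x y ≠ 0 := hG.complete P Q x y hx hy

/-- the group law is unique -/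
lemma nsmul_unique (G₁ G₂ : AddCommGroup (𝒜.Pts φ))
    (h₁ : @IsGroupLaw _ _ _ 𝒜 _ _ φ G₁) (h₂ : @IsGroupLaw _ _ _ 𝒜 _ _ φ G₂) (n : ℕ)
    (P : 𝒜.Pts φ) : smulOf G₁ n P = smulOf G₂ n P := by
  induction n with
  | zero =>
    rw [smulOf_zero, smulOf_zero]
    exact (zero_rep G₁ h₁).ext (zero_rep G₂ h₂)
  | succ n ih =>
    rw [smulOf_succ, smulOf_succ, ← ih]
    set Q := smulOf G₁ n P
    obtain ⟨x, hx⟩ := exists_rep Q
    obtain ⟨y, hy⟩ := exists_rep P
    obtain ⟨s, hs, hne⟩ := exists_law G₁ h₁ Q P x y hx hy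
    exact (add_rep G₁ h₁ Q P x y hx hy s hs hne).ext (add_rep G₂ h₂ Q P x y hx hy s hs hne)

lemma Rep.of_rep (P : 𝒜.Pts φ) : Rep P P.1.rep := ⟨P.1.rep_nonzero, P.1.mk_rep⟩

lemma degree_smul {K Kb : Type} [Field K] [Field Kb] [Algebra K Kb] {n : ℕ} {c : Kb} (hc : c ≠ 0)
    (x : Fin n → Kb) : degree K (c • x) = degree K x := by
  unfold degree
  have h1 : (fun ij : Fin n × Fin n => (c • x) ij.1 / (c • x) ij.2) =
      fun ij : Fin n × Fin n => x ij.1 / x ij.2 := by
    funext ij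
    simp only [Pi.smul_apply, smul_eq_mul]
    rw [mul_div_mul_left _ _ hc]
  rw [h1]

lemma degree_iff {K : Type} [Field K] {n : ℕ} {x : Fin n → AlgebraicClosure K} (hx : x ≠ 0)
    {B : ℕ} : degree K x ≤ B ↔ DegLe K B x := deg_iff hx

variable {K : Type} [Field K] {χ : R →+* K}

/-- description of the torsion points by vectors -/
lemma mem_torsionPts {G : AddCommGroup (𝒜.Pts (geom K χ))} (hG : 𝒜.IsGroupLaw (geom K χ))
    {D n : ℕ} {P : 𝒜.Pts (geom K χ)} {x : Fin (N + 1) → AlgebraicClosure K} (hx : Rep P x) :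
    P ∈ 𝒜.torsionPts K χ D n ↔ DegLe K D x ∧ n • P = 0 := by
  have hdeg : degree K P.1.rep = degree K x := by
    obtain ⟨c, hc, hcc⟩ := (Rep.of_rep P).unique hx
    rw [hcc, degree_smul hc]
  constructor
  · rintro ⟨h1, G', hG', h2⟩
    refine ⟨?_, ?_⟩
    · rw [← degree_iff hx.ne, ← hdeg]
      exact h1
    · have h3 : smulOf G n P = smulOf G' n P := nsmul_unique G G' hG hG' n P
      have h5 : smulOf G' n P = zeroOf G' := h2
      have h6 : zeroOf G' = zeroOf G := (zero_rep G' hG').ext (zero_rep G hG)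
      exact h3.trans (h5.trans h6)
  · rintro ⟨h1, h2⟩
    refine ⟨?_, G, hG, h2⟩
    rw [hdeg, degree_iff hx.ne]
    exact h1

end basics

section transfer

variable {α : Type} {U : Ultrafilter α} {k K : Type} [Field k] [Field K] [CharZero K]
  {R : Type} [CommRing R] [IsNoetherianRing R] {N : ℕ} {𝒜 : Family R N} (h𝒜 : 𝒜.IsGroupFamily)
  (ψ : K →+* UP U k) (τ : AlgebraicClosure K →+* UP U (AlgebraicClosure k))
  (hτ : ∀ c, τ (algebraMap K (AlgebraicClosure K) c) = jU U (ψ c))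
  {χ : α → (R →+* k)} {χK : R →+* K} (hχ : ∀ r, ψ (χK r) = up U k fun w => χ w r)
  (hdisc : χK 𝒜.disc ≠ 0)

include hτ hχ in
lemma phiU (r : R) : (τ.comp (geom K χK)) r =
    up U (AlgebraicClosure k) fun w => geom k (χ w) r := by
  show τ (algebraMap K (AlgebraicClosure K) (χK r)) = _
  rw [hτ, hχ, jU_up]
  rfl

include hχ hdisc in
lemma disc_ev : ∀ᶠ w in (U : Filter α), χ w 𝒜.disc ≠ 0 := by
  have h1 : ψ (χK 𝒜.disc) ≠ 0 := (map_ne_zero ψ).2 hdisc
  rw [hχ, Ne, up_eq_zero, ← Ultrafilter.eventually_not] at h1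
  exact h1

lemma geom_ne {K' : Type} [Field K'] {χ' : R →+* K'} (h : χ' 𝒜.disc ≠ 0) :
    geom K' χ' 𝒜.disc ≠ 0 := by
  rw [geom, RingHom.comp_apply]
  exact (map_ne_zero _).2 h

include h𝒜 hτ hχ hdisc

/-- the special members have at least as many torsion points -/
theorem lower {D n m : ℕ} (hm : (m : ℕ∞) ≤ (𝒜.torsionPts K χK D n).encard) :
    ∀ᶠ w in (U : Filter α), (m : ℕ∞) ≤ (𝒜.torsionPts k (χ w) D n).encard := by
  classical
  obtain ⟨f, hf, hfs⟩ := le_encard_iff.1 hm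
  obtain ⟨GK, hGK⟩ := h𝒜.group _ _ (geom_ne hdisc)
  obtain ⟨GU, hGU⟩ := h𝒜.group (UP U (AlgebraicClosure k)) (τ.comp (geom K χK)) (by
    rw [RingHom.comp_apply]
    exact (map_ne_zero τ).2 (geom_ne hdisc))
  -- normalised coordinates
  have hnorm : ∀ l, ∃ (z : Fin (N + 1) → AlgebraicClosure K) (i1 : Fin (N + 1)), z i1 = 1 ∧
      Rep (f l) z := by
    intro l
    obtain ⟨x, hx⟩ := exists_rep (f l)
    obtain ⟨i0, hi0⟩ := Function.ne_iff.1 hx.ne
    refine ⟨(x i0)⁻¹ • x, i0, ?_, hx.smul (inv_ne_zero hi0)⟩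
    rw [Pi.smul_apply, smul_eq_mul]
    exact inv_mul_cancel₀ hi0
  choose z i1 hz1 hz using hnorm
  have hmem : ∀ l, DegLe K D (z l) ∧ n • f l = 0 := fun l => (mem_torsionPts hGK (hz l)).1 (hfs l)
  choose y hy hyD hy1 using fun l => fam ψ τ hτ (hz1 l) (hmem l).1
  have hrep : ∀ l, Rep (bc τ (f l)) (germ U (y l)) := by
    intro l
    have h1 := bc_spec τ (hz l)
    have h2 : (fun i => τ (z l i)) = germ U (y l) := funext fun j => hy l j
    rw [h2] at h1
    exact h1
  have hφ := phiU ψ τ hτ hχ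
  have hkill : ∀ l, n • bc τ (f l) = 0 := by
    intro l
    rw [← bc_nsmul τ hGK hGU, (hmem l).2, bc_zero τ hGK hGU]
  have e1 : ∀ᶠ w in (U : Filter α), ∀ l, ∃ Q : 𝒜.Pts (geom k (χ w)), Rep Q (y l w) := by
    rw [Filter.eventually_all]
    intro l
    exact rep_of_germ hφ (hrep l)
  have e2 : ∀ᶠ w in (U : Filter α), ∀ l, ∀ (_ : AddCommGroup (𝒜.Pts (geom k (χ w)))),
      𝒜.IsGroupLaw (geom k (χ w)) → ∀ Q : 𝒜.Pts (geom k (χ w)), Rep Q (y l w) → n • Q = 0 := by
    rw [Filter.eventually_all]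
    intro l
    exact mult_zero_of hφ hGU (hrep l) (hkill l)
  have e3 : ∀ᶠ w in (U : Filter α), ∀ l, DegLe k D (y l w) := by
    rw [Filter.eventually_all]
    exact hyD
  have e4 : ∀ᶠ w in (U : Filter α), ∀ l l', l ≠ l' → ¬ ∃ c : AlgebraicClosure k, c ≠ 0 ∧
      y l' w = c • y l w := by
    rw [Filter.eventually_all]
    intro l
    rw [Filter.eventually_all]
    intro l'
    by_cases hll : l = l'
    · exact Filter.Eventually.of_forall fun w h => absurd hll h
    · have h1 : ¬ ∃ c : UP U (AlgebraicClosure k), c ≠ 0 ∧ germ U (y l') = c • germ U (y l) := by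
        rintro ⟨c, hc, hcc⟩
        exact hll (hf (bc_injective τ ((hrep l).ext' (hrep l') hc hcc)))
      rw [germ_prop, ← Ultrafilter.eventually_not] at h1
      filter_upwards [h1] with w hw _
      exact hw
  filter_upwards [e1, e2, e3, e4, disc_ev (𝒜 := 𝒜) ψ hχ hdisc] with w h1 h2 h3 h4 h5
  obtain ⟨G, hG⟩ := h𝒜.group _ _ (geom_ne (𝒜 := 𝒜) (K' := k) (χ' := χ w) h5)
  choose Q hQ using h1
  refine le_encard_iff.2 ⟨Q, ?_, fun l => ?_⟩
  · intro l l' hll
    by_contra hne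
    apply h4 l l' hne
    have h6 := hQ l
    rw [hll] at h6
    exact h6.unique (hQ l')
  · exact (mem_torsionPts hG (hQ l)).2 ⟨h3 l, h2 l G hG (Q l) (hQ l)⟩

/-- the generic member has at least as many torsion points -/
theorem upper (hcl : ∀ z : UP U k, (∃ g : Polynomial K, g ≠ 0 ∧ g.eval₂ ψ z = 0) →
      ∃ y, ψ y = z) {D n m : ℕ} (hn : 0 < n)
    (hm : ∀ᶠ w in (U : Filter α), (m : ℕ∞) ≤ (𝒜.torsionPts k (χ w) D n).encard) :
    (m : ℕ∞) ≤ (𝒜.torsionPts K χK D n).encard := by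
  classical
  obtain ⟨GK, hGK⟩ := h𝒜.group _ _ (geom_ne hdisc)
  obtain ⟨GU, hGU⟩ := h𝒜.group (UP U (AlgebraicClosure k)) (τ.comp (geom K χK)) (by
    rw [RingHom.comp_apply]
    exact (map_ne_zero τ).2 (geom_ne hdisc))
  have hφ := phiU ψ τ hτ hχ
  -- the normalised vectors
  have hw : ∀ w, ∃ (x : Fin m → Fin (N + 1) → AlgebraicClosure k) (i0 : Fin m → Fin (N + 1)),
      ((m : ℕ∞) ≤ (𝒜.torsionPts k (χ w) D n).encard → χ w 𝒜.disc ≠ 0 →
      ∃ (_ : AddCommGroup (𝒜.Pts (geom k (χ w)))), 𝒜.IsGroupLaw (geom k (χ w)) ∧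
        ∃ f : Fin m → 𝒜.Pts (geom k (χ w)), Function.Injective f ∧ ∀ l, Rep (f l) (x l) ∧
          x l (i0 l) = 1 ∧ DegLe k D (x l) ∧ n • f l = 0) := by
    intro w
    by_cases h1 : (m : ℕ∞) ≤ (𝒜.torsionPts k (χ w) D n).encard ∧ χ w 𝒜.disc ≠ 0
    · obtain ⟨f, hf, hfs⟩ := le_encard_iff.1 h1.1
      obtain ⟨G, hG⟩ := h𝒜.group _ _ (geom_ne (𝒜 := 𝒜) (K' := k) (χ' := χ w) h1.2)
      have hnorm : ∀ l, ∃ (z : Fin (N + 1) → AlgebraicClosure k) (i1 : Fin (N + 1)), z i1 = 1 ∧
          Rep (f l) z := by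
        intro l
        obtain ⟨x, hx⟩ := exists_rep (f l)
        obtain ⟨i0, hi0⟩ := Function.ne_iff.1 hx.ne
        refine ⟨(x i0)⁻¹ • x, i0, ?_, hx.smul (inv_ne_zero hi0)⟩
        rw [Pi.smul_apply, smul_eq_mul]
        exact inv_mul_cancel₀ hi0
      choose z i1 hz1 hz using hnorm
      refine ⟨z, i1, fun _ _ => ⟨G, hG, f, hf, fun l => ⟨hz l, hz1 l, ?_⟩⟩⟩
      exact (mem_torsionPts hG (hz l)).1 (hfs l)
    · exact ⟨fun _ _ => 0, fun _ => 0, fun h2 h3 => absurd ⟨h2, h3⟩ h1⟩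
  choose x i0 hx using hw
  have hev : ∀ᶠ w in (U : Filter α), ∃ (_ : AddCommGroup (𝒜.Pts (geom k (χ w)))),
      𝒜.IsGroupLaw (geom k (χ w)) ∧
        ∃ f : Fin m → 𝒜.Pts (geom k (χ w)), Function.Injective f ∧ ∀ l, Rep (f l) (x w l) ∧
          x w l (i0 w l) = 1 ∧ DegLe k D (x w l) ∧ n • f l = 0 := by
    filter_upwards [hm, disc_ev (𝒜 := 𝒜) ψ hχ hdisc] with w h1 h2
    exact hx w h1 h2
  obtain ⟨m0, hm0⟩ : ∃ m0 : Fin m → Fin (N + 1), ∀ᶠ w in (U : Filter α), i0 w = m0 := by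
    obtain ⟨m0, hm⟩ := Ultrafilter.eq_pure_of_finite (U.map i0)
    refine ⟨m0, ?_⟩
    have h1 : {m0} ∈ U.map i0 := by
      rw [hm]
      exact Set.mem_singleton m0
    exact h1
  have hP : ∀ l, ∃ P : 𝒜.Pts (τ.comp (geom K χK)), Rep P (germ U fun w => x w l) := by
    intro l
    refine germ_of_rep hφ ?_
    filter_upwards [hev] with w hw
    obtain ⟨_, _, f, _, hfl⟩ := hw
    exact ⟨f l, (hfl l).1⟩
  choose P hP using hP
  have hkill : ∀ l, n • P l = 0 := by
    intro l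
    refine mult_zero hφ hGU (hP l) ?_
    filter_upwards [hev] with w hw
    obtain ⟨G, hG, f, _, hfl⟩ := hw
    exact ⟨G, hG, f l, (hfl l).1, (hfl l).2.2.2⟩
  have hnK : ((n : ℕ) : AlgebraicClosure K) ≠ 0 := by
    have : CharZero (AlgebraicClosure K) := charZero_of_injective_algebraMap
      (algebraMap K (AlgebraicClosure K)).injective
    exact_mod_cast hn.ne'
  choose P0 hP0 using fun l => rigid h𝒜 τ (geom_ne hdisc) hGK hGU hnK (hkill l)
  have hX1 : ∀ l, germ U (fun w => x w l) (m0 l) = 1 := by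
    intro l
    rw [← map_one (up U (AlgebraicClosure k))]
    refine up_eq.2 ?_
    filter_upwards [hev, hm0] with w hw hw0
    obtain ⟨_, _, f, _, hfl⟩ := hw
    have h1 := (hfl l).2.1
    rw [hw0] at h1
    exact h1
  -- coordinates over the algebraic closure
  have hz : ∀ l, ∃ z : Fin (N + 1) → AlgebraicClosure K, Rep (P0 l) z ∧
      ∀ i, τ (z i) = germ U (fun w => x w l) i := by
    intro l
    obtain ⟨z, hz⟩ := exists_rep (P0 l)
    have h1 := bc_spec τ hz
    rw [hP0] at h1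
    obtain ⟨c, hc, hcc⟩ := (hP l).unique h1
    have h2 : τ (z (m0 l)) = c := by
      have h3 : τ (z (m0 l)) = c * germ U (fun w => x w l) (m0 l) := congrFun hcc (m0 l)
      rw [h3, hX1, mul_one]
    have h4 : z (m0 l) ≠ 0 := by
      intro h5
      rw [h5, map_zero] at h2
      exact hc h2.symm
    refine ⟨(z (m0 l))⁻¹ • z, hz.smul (inv_ne_zero h4), fun i => ?_⟩
    have h6 : τ (z i) = c * germ U (fun w => x w l) i := congrFun hcc i
    rw [Pi.smul_apply, smul_eq_mul, map_mul, map_inv₀, h2, h6, ← mul_assoc,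
      inv_mul_cancel₀ hc, one_mul]
  choose z hz hzτ using hz
  -- degrees
  have hdeg : ∀ l, DegLe K D (z l) := by
    intro l
    let iE : Algebra K (UP U k) := ψ.toAlgebra
    let iO : Algebra (UP U k) (UP U (AlgebraicClosure k)) := (jU U).toAlgebra
    let iK : Algebra K (UP U (AlgebraicClosure k)) :=
      ((jU (kb := AlgebraicClosure k) U).comp ψ).toAlgebra
    have iT : IsScalarTower K (UP U k) (UP U (AlgebraicClosure k)) :=
      IsScalarTower.of_algebraMap_eq fun _ => rfl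
    let τ' : AlgebraicClosure K →ₐ[K] UP U (AlgebraicClosure k) := { τ with commutes' := hτ }
    have hτ' : ∀ a, τ' a = τ a := fun _ => rfl
    have halg : ∀ i, IsAlgebraic K (germ U (fun w => x w l) i) := by
      intro i
      rw [← hzτ l i]
      have h1 : IsAlgebraic K (z l i) := Algebra.IsAlgebraic.isAlgebraic _
      exact h1.algHom τ'
    have hcl' : ∀ z : UP U k, IsAlgebraic K z → ∃ y, algebraMap K (UP U k) y = z := by
      rintro y ⟨g, hg, hgy⟩
      exact hcl y ⟨g, hg, hgy⟩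
    have h2 := finrank_adjoin_le (K := K) (E := UP U k) (Ω := UP U (AlgebraicClosure k)) hcl'
      (B := D) (germ U fun w => x w l) halg (by
      intro θ hθ
      let Fw : α → IntermediateField k (AlgebraicClosure k) := fun w =>
        IntermediateField.adjoin k (Set.range (x w l))
      have h9 : IntermediateField.adjoin K (Set.range (germ U fun w => x w l)) ≤
          germF (k := k) (K := K) (fun y => ⟨_, rfl⟩) Fw := by
        rw [IntermediateField.adjoin_le_iff]
        rintro _ ⟨i, rfl⟩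
        refine ⟨fun w => x w l i, rfl, Filter.Eventually.of_forall fun w => ?_⟩
        exact IntermediateField.subset_adjoin _ _ ⟨i, rfl⟩
      obtain ⟨f, rfl, hf⟩ := h9 hθ
      refine deg_up f Fw D ?_
      filter_upwards [hev, hf] with w hw hw'
      obtain ⟨_, _, f', _, hfl⟩ := hw
      obtain ⟨E, hE1, hE2, c, hc, hcE⟩ := (hfl l).2.2.1
      have hle : Fw w ≤ E := by
        rw [IntermediateField.adjoin_le_iff]
        rintro _ ⟨i, rfl⟩
        have hc1 : c ∈ E := by
          have := hcE (i0 w l)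
          rwa [(hfl l).2.1, mul_one] at this
        have h10 : x w l i = c⁻¹ * (c * x w l i) := by
          rw [← mul_assoc, inv_mul_cancel₀ hc, one_mul]
        rw [h10]
        exact mul_mem (inv_mem hc1) (hcE i)
      refine ⟨hw', ?_, ?_⟩
      · exact Module.Finite.of_injective (IntermediateField.inclusion hle).toLinearMap
          (IntermediateField.inclusion hle).injective
      · exact (IntermediateField.finrank_le_of_le_right hle).trans hE2)
    obtain ⟨h3, h4⟩ := h2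
    have hmap : (IntermediateField.adjoin K (Set.range (z l))).map τ' =
        IntermediateField.adjoin K (Set.range (germ U fun w => x w l)) := by
      rw [IntermediateField.adjoin_map]
      congr 1
      ext a
      constructor
      · rintro ⟨_, ⟨i, rfl⟩, rfl⟩
        exact ⟨i, (hzτ l i).symm⟩
      · rintro ⟨i, rfl⟩
        exact ⟨z l i, ⟨i, rfl⟩, hzτ l i⟩
    have e : (IntermediateField.adjoin K (Set.range (z l))) ≃ₗ[K]
        ((IntermediateField.adjoin K (Set.range (z l))).map τ') :=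
      ((IntermediateField.adjoin K (Set.range (z l))).equivMap τ').toLinearEquiv
    refine ⟨IntermediateField.adjoin K (Set.range (z l)), ?_, ?_, 1, one_ne_zero, fun j => ?_⟩
    · rw [← hmap] at h3
      exact Module.Finite.equiv e.symm
    · rw [e.finrank_eq, hmap]
      exact h4
    · rw [one_mul]
      exact IntermediateField.subset_adjoin _ _ ⟨j, rfl⟩
  refine le_encard_iff.2 ⟨P0, ?_, fun l => (mem_torsionPts hGK (hz l)).2 ⟨hdeg l, ?_⟩⟩
  · intro l l' hll
    by_contra hne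
    have h1 : P l = P l' := by rw [← hP0 l, ← hP0 l', hll]
    have h2 := hP l
    rw [h1] at h2
    have h3 := germ_prop.1 (h2.unique (hP l'))
    obtain ⟨w, hw1, hw2⟩ := (hev.and h3).exists
    obtain ⟨_, _, f, hf, hfl⟩ := hw1
    obtain ⟨c, hc, hcc⟩ := hw2
    exact hne (hf ((hfl l).1.ext' (hfl l').1 hc hcc))
  · apply bc_injective τ
    rw [bc_nsmul τ hGK hGU, bc_zero τ hGK hGU, hP0]
    exact hkill l

end transfer

end Pool.Agent.Y729.AV
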