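import Pool.Agent.Y729.AV.Gen1
import Pool.Agent.Y729.AV.Moments

set_option autoImplicit false
set_option linter.unusedSectionVars false

/-! The torsion points of bounded degree of 100% of the members. -/

namespace Pool.Agent.Y729.AV

open MvPolynomial Family NumberField Pool.Agent.Y706 Pool.Agent.W275.UB Pool.Agent.W193.UB

section kill

/-- few torsion points have small order -/
lemma order_le {R : Type} [CommRing R] {N : ℕ} {𝒜 : Family R N} {F : Type} [Field F]
    {φ : R →+* F} [AddCommGroup (𝒜.Pts φ)] {X : ℕ} (h : 𝒜.torsionCount φ ≤ X) {P : 𝒜.Pts φ}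
    (hP : IsOfFinAddOrder P) : X.factorial • P = 0 := by
  have hord : 0 < addOrderOf P := addOrderOf_pos_iff.2 hP
  have h1 : ((Finset.range (addOrderOf P)).card : ℕ∞) ≤ 𝒜.torsionCount φ := by
    have hinj : Set.InjOn (fun i : ℕ => i • P) (Finset.range (addOrderOf P) : Set ℕ) := by
      intro i hi j hj hij
      simp only [Finset.coe_range, Set.mem_Iio] at hi hj
      exact nsmul_injOn_Iio_addOrderOf hi hj hij
    have h2 : ((fun i : ℕ => i • P) '' (Finset.range (addOrderOf P) : Set ℕ)) ⊆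
        {P : 𝒜.Pts φ | IsOfFinAddOrder P} := by
      rintro _ ⟨i, _, rfl⟩
      exact hP.nsmul
    have h3 := Set.encard_le_encard h2
    rw [hinj.encard_image, Set.encard_coe_eq_coe_finsetCard] at h3
    exact h3
  rw [Finset.card_range] at h1
  have h4 : addOrderOf P ≤ X := by exact_mod_cast h1.trans h
  exact addOrderOf_dvd_iff_nsmul_eq_zero.1 (Nat.dvd_factorial hord h4)

lemma kill_aux {R : Type} [CommRing R] {N : ℕ} {𝒜 : Family R N} {F F' : Type} [Field F]
    [Field F'] (σ : F →+* F') {φ : R →+* F} {φ' : R →+* F'} (hφ : φ' = σ.comp φ)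
    [AddCommGroup (𝒜.Pts φ)] (hG : 𝒜.IsGroupLaw φ) [AddCommGroup (𝒜.Pts φ')]
    (hG' : 𝒜.IsGroupLaw φ') {X : ℕ} (h : 𝒜.torsionCount φ ≤ X) {Q : 𝒜.Pts φ'}
    {x : Fin (N + 1) → F} (hx : Rep Q fun i => σ (x i)) (hQ : IsOfFinAddOrder Q) :
    X.factorial • Q = 0 := by
  subst hφ
  have hx0 : x ≠ 0 := by
    rintro rfl
    apply hx.ne
    funext i
    simp
  obtain ⟨Q0, hQ0⟩ : ∃ Q0 : 𝒜.Pts φ, Rep Q0 x := by
    refine exists_pt' hx0 fun f hf => ?_
    have h1 := hx.eqs f hf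
    rw [eval_comp, map_eq_zero] at h1
    exact h1
  have hbc : bc σ Q0 = Q := (bc_spec σ hQ0).ext hx
  have hQ0f : IsOfFinAddOrder Q0 := by
    rw [isOfFinAddOrder_iff_nsmul_eq_zero] at hQ ⊢
    obtain ⟨n, hn, hnQ⟩ := hQ
    refine ⟨n, hn, bc_injective σ ?_⟩
    rw [bc_nsmul σ hG hG', bc_zero σ hG hG', hbc]
    exact hnQ
  have h2 := order_le h hQ0f
  rw [← hbc, ← bc_nsmul σ hG hG', h2, bc_zero σ hG hG']

variable {k : Type} [Field k] [NumberField k] {M N : ℕ}
  {𝒜 : Family (MvPolynomial (Fin M) (𝓞 k)) N} (h𝒜 : 𝒜.IsGroupFamily)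

include h𝒜

/-- torsion points of bounded degree have bounded order -/
lemma kill {D X : ℕ} {v : Fin M → 𝓞 k} (hv : eval v 𝒜.disc ≠ 0)
    (hT : ∀ (L : Type) [Field L] [Algebra k L] [FiniteDimensional k L],
      Module.finrank k L ≤ D → ∀ [AddCommGroup (𝒜.Pts (special v L))],
        𝒜.IsGroupLaw (special v L) → 𝒜.torsionCount (special v L) ≤ X)
    {G : AddCommGroup (𝒜.Pts (geom k (spec v)))} (hG : 𝒜.IsGroupLaw (geom k (spec v)))
    {n : ℕ} (hn : 0 < n) {Q : 𝒜.Pts (geom k (spec v))} (hQ : Q ∈ 𝒜.torsionPts k (spec v) D n) :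
    X.factorial • Q = 0 := by
  obtain ⟨x, hx⟩ := exists_rep Q
  obtain ⟨⟨E, hE1, hE2, c, hc, hcE⟩, hnQ⟩ := (mem_torsionPts hG hx).1 hQ
  have hfin : IsOfFinAddOrder Q := isOfFinAddOrder_iff_nsmul_eq_zero.2 ⟨n, hn, hnQ⟩
  have hdisc : special v E 𝒜.disc ≠ 0 := by
    rw [special, RingHom.comp_apply, RingHom.comp_apply]
    refine (map_ne_zero _).2 ?_
    rwa [Ne, FaithfulSMul.algebraMap_eq_zero_iff]
  obtain ⟨GE, hGE⟩ := h𝒜.group E (special v E) hdisc
  have hcomp : geom k (spec v) = (algebraMap E (AlgebraicClosure k)).comp (special v E) := rfl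
  refine kill_aux (algebraMap E (AlgebraicClosure k)) hcomp hGE hG (hT E hE2 hGE)
    (x := fun i => ⟨c * x i, hcE i⟩) ?_ hfin
  exact hx.smul hc

end kill

section fixed

lemma exists_lift {K Ω : Type} [Field K] [Field Ω] [IsAlgClosed Ω] (g : K →+* Ω) :
    ∃ τ : AlgebraicClosure K →+* Ω, ∀ c, τ (algebraMap K (AlgebraicClosure K) c) = g c := by
  letI := g.toAlgebra
  exact ⟨(IsAlgClosed.lift : AlgebraicClosure K →ₐ[K] Ω).toRingHom,
    fun c => (IsAlgClosed.lift : AlgebraicClosure K →ₐ[K] Ω).commutes c⟩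

variable {k : Type} [Field k] [NumberField k] {J : Type} [Fintype J]
  (ω : Module.Basis J ℤ (𝓞 k)) {M N : ℕ}
  {𝒜 : Family (MvPolynomial (Fin M) (𝓞 k)) N} (h𝒜 : 𝒜.IsGroupFamily)

lemma vec_eq (w : Fin M × J → ℤ) : vec ω w = vecw ω w := by
  funext i
  rw [vec, cv, vecw]
  refine Finset.sum_congr rfl fun j _ => ?_
  rw [zsmul_eq_mul, mul_comm]

include h𝒜

lemma generic_disc : generic k M 𝒜.disc ≠ 0 := by
  rw [generic, Ne, FaithfulSMul.algebraMap_eq_zero_iff]
  exact h𝒜.disc_ne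

lemma generic_finite {D n : ℕ} (hn : 0 < n) :
    (𝒜.torsionPts (FractionRing (MvPolynomial (Fin M) (𝓞 k))) (generic k M) D n).Finite := by
  have : CharZero (FractionRing (MvPolynomial (Fin M) (𝓞 k))) :=
    charZero_of_injective_algebraMap (R := MvPolynomial (Fin M) (𝓞 k))
      (IsFractionRing.injective (MvPolynomial (Fin M) (𝓞 k))
        (FractionRing (MvPolynomial (Fin M) (𝓞 k))))
  have hcz : CharZero (AlgebraicClosure (FractionRing (MvPolynomial (Fin M) (𝓞 k)))) :=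
    charZero_of_injective_algebraMap (algebraMap (FractionRing (MvPolynomial (Fin M) (𝓞 k)))
      (AlgebraicClosure (FractionRing (MvPolynomial (Fin M) (𝓞 k))))).injective
  obtain ⟨G, hG⟩ := h𝒜.group _ _ (geom_ne (generic_disc h𝒜))
  refine (finite_torsion h𝒜 (geom_ne (generic_disc h𝒜)) hG (n := n)
    (by exact_mod_cast hn.ne')).subset ?_
  intro P hP
  exact ((mem_torsionPts hG (Rep.of_rep P)).1 hP).2

/-- the count for a fixed order -/
theorem fixed {U : Ultrafilter (Fin M × J → ℤ)} (hU : Gen U) (D : ℕ) {n : ℕ} (hn : 0 < n) :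
    ∀ᶠ w in (U : Filter (Fin M × J → ℤ)), (𝒜.torsionPts k (spec (vecw ω w)) D n).encard =
      (𝒜.torsionPts (FractionRing (MvPolynomial (Fin M) (𝓞 k))) (generic k M) D n).encard := by
  have : CharZero (FractionRing (MvPolynomial (Fin M) (𝓞 k))) :=
    charZero_of_injective_algebraMap (R := MvPolynomial (Fin M) (𝓞 k))
      (IsFractionRing.injective (MvPolynomial (Fin M) (𝓞 k))
        (FractionRing (MvPolynomial (Fin M) (𝓞 k))))
  let ψ : FractionRing (MvPolynomial (Fin M) (𝓞 k)) →+* UP U k := psiF ω W883.UB.Dens.main hU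
  have hac : IsAlgClosed (UP U (AlgebraicClosure k)) := up_closed
  obtain ⟨τ, hτ⟩ := exists_lift ((jU (kb := AlgebraicClosure k) U).comp ψ)
  have hχ : ∀ r, ψ (generic k M r) = up U k fun w => spec (vecw ω w) r := by
    intro r
    show psiF ω W883.UB.Dens.main hU (algebraMap _ _ r) = _
    rw [psiF_algebraMap, rho_apply]
    congr 1
    funext w
    rw [vec_eq]
    rfl
  have hdisc := generic_disc h𝒜
  have hcl : ∀ z : UP U k, (∃ g : Polynomial (FractionRing (MvPolynomial (Fin M) (𝓞 k))), g ≠ 0 ∧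
      g.eval₂ ψ z = 0) → ∃ y, ψ y = z := fun z hz => psiF_closed ω W883.UB.Dens.main urel hU z hz
  have hfin := generic_finite h𝒜 (D := D) hn
  obtain ⟨m, hm⟩ : ∃ m : ℕ, (𝒜.torsionPts (FractionRing (MvPolynomial (Fin M) (𝓞 k)))
      (generic k M) D n).encard = m := ⟨_, hfin.encard_eq_coe_toFinset_card⟩
  have h1 := lower h𝒜 ψ τ hτ hχ hdisc (D := D) (n := n)
    (m := m) hm.ge
  have h2 : ¬ ∀ᶠ w in (U : Filter (Fin M × J → ℤ)),
      ((m + 1 : ℕ) : ℕ∞) ≤ (𝒜.torsionPts k (spec (vecw ω w)) D n).encard := by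
    intro h3
    have h4 := upper h𝒜 ψ τ hτ hχ hdisc hcl hn h3
    rw [hm] at h4
    have h5 : m + 1 ≤ m := by exact_mod_cast h4
    omega
  rw [← Ultrafilter.eventually_not] at h2
  filter_upwards [h1, h2] with w hw1 hw2
  rw [hm]
  refine le_antisymm ?_ hw1
  rw [not_le] at hw2
  push_cast at hw2
  exact Order.le_of_lt_add_one hw2

end fixed

end Pool.Agent.Y729.AV
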