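import Pool.Agent.Y729.AV.Red

set_option autoImplicit false
set_option linter.unusedSectionVars false

/-! The kernel of reduction has no torsion prime to the residue characteristic. -/

namespace Pool.Agent.Y729.AV

open MvPolynomial IsLocalRing Family

section

variable {L : Type} [Field L] (A : ValuationSubring L)

/-- the coordinates of a small vector generate a principal ideal -/
lemma exists_gen {n : ℕ} (d : Fin (n + 1) → A) :
    ∃ j, ∀ i, d j ∣ d i := by
  obtain ⟨j, -, hj⟩ := Finset.exists_max_image Finset.univ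
    (fun i => A.valuation (d i : L)) ⟨0, Finset.mem_univ _⟩
  refine ⟨j, fun i => ?_⟩
  by_cases h0 : (d j : L) = 0
  · have h1 := hj i (Finset.mem_univ i)
    rw [h0, map_zero, le_zero_iff, map_eq_zero] at h1
    have h2 : d i = 0 := Subtype.ext h1
    rw [h2]
    exact dvd_zero _
  · refine ⟨⟨(d i : L) / d j, ?_⟩, ?_⟩
    · rw [← ValuationSubring.valuation_le_one_iff, map_div₀]
      exact div_le_one_of_le₀ (hj i (Finset.mem_univ i)) zero_le
    · apply Subtype.ext
      push_cast
      rw [mul_div_cancel₀ _ h0]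

variable {R : Type} [CommRing R] {N : ℕ}
  {𝒜 : Family R N} {φ : R →+* L} (hφ : ∀ r, φ r ∈ A)

variable [AddCommGroup (𝒜.Pts φ)] (hG : 𝒜.IsGroupLaw φ) [AddCommGroup (𝒜.Pts (phiK A hφ))]
  (hK : 𝒜.IsGroupLaw (phiK A hφ))

include hG hK

/-- normalised coordinates -/
lemma normalise {P : 𝒜.Pts φ} {y : Fin (N + 1) → A} {i0 : Fin (N + 1)} (h : IsUnit (y i0))
    (hP : Rep P fun i => (y i : L)) : ∃ z : Fin (N + 1) → A, z i0 = 1 ∧ y = (y i0) • z ∧
      Rep P fun i => (z i : L) := by
  obtain ⟨u, hu⟩ := h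
  refine ⟨((u⁻¹ : Aˣ) : A) • y, ?_, ?_, ?_⟩
  · rw [Pi.smul_apply, smul_eq_mul, ← hu, Units.inv_mul]
  · rw [← hu, smul_smul, Units.mul_inv, one_smul]
  · have h1 : (((u⁻¹ : Aˣ) : A) : L) ≠ 0 := by
      intro h0
      have h2 : ((u⁻¹ : Aˣ) : A) = 0 := Subtype.ext h0
      exact (u⁻¹).ne_zero h2
    exact hP.smul h1

/-- two vectors which are normalised at the same coordinate and represent the same point -/
lemma coord_eq {P : 𝒜.Pts φ} {w : Fin (N + 1) → A} {v : Fin (N + 1) → L} {i0 : Fin (N + 1)}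
    (hw : w i0 = 1) (hP : Rep P fun i => (w i : L)) (hv : Rep P v) (i : Fin (N + 1)) :
    v i = v i0 * (w i : L) := by
  obtain ⟨c, hc, rfl⟩ := hP.unique hv
  simp [hw]

omit [AddCommGroup (𝒜.Pts (phiK A hφ))] hK in
/-- one step of the computation of the multiples of a point in the kernel of reduction -/
lemma ker_step {P Q : 𝒜.Pts φ} {e z w : Fin (N + 1) → A} {i0 : Fin (N + 1)}
    (he : e i0 = 1) (hz : z i0 = 1) (hw : w i0 = 1)
    (h0 : Rep (0 : 𝒜.Pts φ) fun i => (e i : L)) (hP : Rep P fun i => (z i : L))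
    (hQ : Rep Q fun i => (w i : L))
    {s : Fin (N + 1) → MvPolynomial (Fin (N + 1) ⊕ Fin (N + 1)) R} (hs : s ∈ 𝒜.laws)
    (hu : IsUnit (lawA A hφ s e e i0)) {a : A} (ha : a ∈ maximalIdeal A)
    (haz : ∀ i, a ∣ z i - e i) (n : ℕ)
    (haw : ∀ i, a * a ∣ w i - e i - n * (z i - e i)) :
    ∃ w' : Fin (N + 1) → A, w' i0 = 1 ∧ Rep (Q + P) (fun i => (w' i : L)) ∧
      ∀ i, a * a ∣ w' i - e i - (n + 1 : ℕ) * (z i - e i) := by
  have haw1 : ∀ i, a ∣ w i - e i := by
    intro i
    have h1 := (dvd_mul_right a a).trans (haw i)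
    have h2 : a ∣ (n : A) * (z i - e i) := (haz i).mul_left _
    have h3 := dvd_add h1 h2
    simpa using h3
  have hself : ∀ i, a ∣ e i - e i := fun i => by simp
  -- units
  have hunit : ∀ b : A, a ∣ b - lawA A hφ s e e i0 → IsUnit b := by
    intro b hb
    by_contra hb1
    have h1 : b ∈ maximalIdeal A := (mem_maximalIdeal b).2 hb1
    have h2 : b - lawA A hφ s e e i0 ∈ maximalIdeal A := by
      obtain ⟨c, hc⟩ := hb
      rw [hc]
      exact (maximalIdeal A).mul_mem_right _ ha
    have h3 : lawA A hφ s e e i0 ∈ maximalIdeal A := by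
      have := (maximalIdeal A).sub_mem h1 h2
      simpa using this
    exact (mem_maximalIdeal _).1 h3 hu
  have d1 : ∀ i, a ∣ lawA A hφ s w e i - lawA A hφ s e e i := by
    intro i
    refine dvd_sub (psi A hφ) a ?_ (s i)
    rintro (j | j)
    · simpa using haw1 j
    · simp
  have d2 : ∀ i, a ∣ lawA A hφ s e z i - lawA A hφ s e e i := by
    intro i
    refine dvd_sub (psi A hφ) a ?_ (s i)
    rintro (j | j)
    · simp
    · simpa using haz j
  have d3 : ∀ i, a ∣ lawA A hφ s w z i - lawA A hφ s e e i := by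
    intro i
    refine dvd_sub (psi A hφ) a ?_ (s i)
    rintro (j | j)
    · simpa using haw1 j
    · simpa using haz j
  have dd : ∀ i, a * a ∣ lawA A hφ s w z i - lawA A hφ s w e i - lawA A hφ s e z i +
      lawA A hφ s e e i := fun i => dvd_sub_sub (psi A hφ) a haw1 haz (s i)
  have u1 := hunit _ (d1 i0)
  have u2 := hunit _ (d2 i0)
  have u3 := hunit _ (d3 i0)
  have ne_of_unit : ∀ x y : Fin (N + 1) → A, IsUnit (lawA A hφ s x y i0) →
      law φ s (fun i => (x i : L)) (fun i => (y i : L)) ≠ 0 := by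
    intro x y h
    rw [← coe_law A hφ]
    exact prim_coe_ne ⟨i0, h⟩
  -- the sums
  have r1 : Rep Q fun i => (lawA A hφ s w e i : L) := by
    rw [coe_law]
    have := hG.add Q 0 _ _ hQ h0 s hs (ne_of_unit _ _ u1)
    rwa [add_zero] at this
  have r2 : Rep P fun i => (lawA A hφ s e z i : L) := by
    rw [coe_law]
    have := hG.add 0 P _ _ h0 hP s hs (ne_of_unit _ _ u2)
    rwa [zero_add] at this
  have r0 : Rep (0 : 𝒜.Pts φ) fun i => (lawA A hφ s e e i : L) := by
    rw [coe_law]
    have := hG.add 0 0 _ _ h0 h0 s hs (ne_of_unit _ _ hu)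
    rwa [zero_add] at this
  have r3 : Rep (Q + P) fun i => (lawA A hφ s w z i : L) := by
    rw [coe_law]
    exact hG.add Q P _ _ hQ hP s hs (ne_of_unit _ _ u3)
  have c1 : ∀ i, lawA A hφ s w e i = lawA A hφ s w e i0 * w i := by
    intro i
    apply Subtype.ext
    obtain ⟨c, hc, hcc⟩ := hQ.unique r1
    have e1 : (lawA A hφ s w e i : L) = c * (w i : L) := congrFun hcc i
    have e2 : (lawA A hφ s w e i0 : L) = c * (w i0 : L) := congrFun hcc i0
    rw [hw] at e2
    push_cast
    rw [e1, e2]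
    simp
  have c2 : ∀ i, lawA A hφ s e z i = lawA A hφ s e z i0 * z i := by
    intro i
    apply Subtype.ext
    obtain ⟨c, hc, hcc⟩ := hP.unique r2
    have e1 : (lawA A hφ s e z i : L) = c * (z i : L) := congrFun hcc i
    have e2 : (lawA A hφ s e z i0 : L) = c * (z i0 : L) := congrFun hcc i0
    rw [hz] at e2
    push_cast
    rw [e1, e2]
    simp
  have c0 : ∀ i, lawA A hφ s e e i = lawA A hφ s e e i0 * e i := by
    intro i
    apply Subtype.ext
    obtain ⟨c, hc, hcc⟩ := h0.unique r0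
    have e1 : (lawA A hφ s e e i : L) = c * (e i : L) := congrFun hcc i
    have e2 : (lawA A hφ s e e i0 : L) = c * (e i0 : L) := congrFun hcc i0
    rw [he] at e2
    push_cast
    rw [e1, e2]
    simp
  -- the new vector
  obtain ⟨F, hF⟩ := u3
  refine ⟨((F⁻¹ : Aˣ) : A) • lawA A hφ s w z, ?_, ?_, ?_⟩
  · rw [Pi.smul_apply, smul_eq_mul, ← hF, Units.inv_mul]
  · have h1 : (((F⁻¹ : Aˣ) : A) : L) ≠ 0 := by
      intro h0
      have h2 : ((F⁻¹ : Aˣ) : A) = 0 := Subtype.ext h0
      exact (F⁻¹).ne_zero h2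
    exact r3.smul h1
  · intro i
    have hFi : (F : A) * (((F⁻¹ : Aˣ) : A) • lawA A hφ s w z) i = lawA A hφ s w z i := by
      rw [Pi.smul_apply, smul_eq_mul, ← mul_assoc, Units.mul_inv, one_mul]
    have key : a * a ∣ (F : A) * ((((F⁻¹ : Aˣ) : A) • lawA A hφ s w z) i - e i -
        (n + 1 : ℕ) * (z i - e i)) := by
      have h2 : (F : A) * ((((F⁻¹ : Aˣ) : A) • lawA A hφ s w z) i - e i -
        (n + 1 : ℕ) * (z i - e i)) = lawA A hφ s w z i - F * e i -
          (n + 1 : ℕ) * F * (z i - e i) := by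
        rw [mul_sub, mul_sub, hFi]
        ring
      rw [h2, hF]
      obtain ⟨t, ht⟩ := dd i
      obtain ⟨t0, ht0⟩ := dd i0
      obtain ⟨α, hα⟩ := d1 i0
      obtain ⟨β, hβ⟩ := d2 i0
      obtain ⟨δ, hδ⟩ := haz i
      obtain ⟨ε, hε⟩ := haw i
      have e1 := c1 i
      have e2 := c2 i
      have e0 := c0 i
      set l := lawA A hφ s w e i0
      set m := lawA A hφ s e z i0
      set v := lawA A hφ s e e i0
      have hwz : lawA A hφ s w z i = l * w i + m * z i - v * e i + a * a * t := by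
        linear_combination ht + e1 + e2 - e0
      have hF0 : lawA A hφ s w z i0 = l + m - v + a * a * t0 := by
        linear_combination ht0
      rw [hwz, hF0]
      have hwi : w i = e i + n * (z i - e i) + a * a * ε := by linear_combination hε
      have hzi : z i = e i + a * δ := by linear_combination hδ
      have hl : l = v + a * α := by linear_combination hα
      have hm : m = v + a * β := by linear_combination hβ
      refine ⟨l * ε + t - t0 * e i - (n + 1 : ℕ) * t0 * (a * δ) +
        δ * (n * α + β - (n + 1) * (α + β)), ?_⟩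
      rw [hwi, hzi, hl, hm]
      push_cast
      ring
    have hFu : IsUnit (F : A) := F.isUnit
    exact hFu.dvd_mul_left.1 key

/-- **The kernel of reduction has no torsion of order prime to the residue characteristic.** -/
theorem ker_torsion {P : 𝒜.Pts φ} (hP : red A hφ P = 0) {n : ℕ} (hn : IsUnit (n : A))
    (hnP : n • P = 0) : P = 0 := by
  obtain ⟨i0, hi0⟩ := prim_zero A hφ hG hK
  obtain ⟨e, he, hee, h0⟩ := normalise A hφ hG hK (P := (0 : 𝒜.Pts φ))
    (y := fun i => psi A hφ (𝒜.zero i)) hi0 hG.zero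
  have hePrim : Prim e := ⟨i0, by rw [he]; exact isUnit_one⟩
  have h0' : Rep (0 : 𝒜.Pts (phiK A hφ)) fun i => residue A (e i) := by
    have h1 := red_spec A hφ hePrim h0
    rwa [red_zero A hφ hG hK] at h1
  obtain ⟨y, hy, hPy, hPy'⟩ := exists_prim_rep A hφ hG hK P
  rw [hP] at hPy'
  obtain ⟨c, hc, hcc⟩ := h0'.unique hPy'
  have hyi0 : IsUnit (y i0) := by
    rw [← residue_ne_zero_iff_isUnit]
    have h2 : residue A (y i0) = c * residue A (e i0) := congrFun hcc i0
    rw [h2, he, map_one, mul_one]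
    exact hc
  obtain ⟨z, hz, hyz, hPz⟩ := normalise A hφ hG hK hyi0 hPy
  have hzPrim : Prim z := ⟨i0, by rw [hz]; exact isUnit_one⟩
  have hPz' := red_spec A hφ hzPrim hPz
  rw [hP] at hPz'
  have hze : ∀ i, z i - e i ∈ maximalIdeal A := by
    intro i
    obtain ⟨c', hc', hcc'⟩ := h0'.unique hPz'
    have h2 : residue A (z i0) = c' * residue A (e i0) := congrFun hcc' i0
    rw [he, hz, map_one, mul_one] at h2
    have h3 : residue A (z i) = c' * residue A (e i) := congrFun hcc' i
    rw [← h2, one_mul] at h3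
    rw [← residue_eq_zero_iff, map_sub, h3, sub_self]
  obtain ⟨i1, hi1⟩ := exists_gen A fun i => z i - e i
  set a : A := z i1 - e i1 with ha
  -- the law at the neutral element
  obtain ⟨s, hs, hne⟩ := hK.complete 0 0 _ _ h0' h0'
  have hsum := hK.add 0 0 _ _ h0' h0' s hs hne
  rw [add_zero] at hsum
  have hu : IsUnit (lawA A hφ s e e i0) := by
    rw [← residue_ne_zero_iff_isUnit]
    obtain ⟨c', hc', hcc'⟩ := h0'.unique hsum
    rw [← res_law A hφ] at hcc'
    have h2 : residue A (lawA A hφ s e e i0) = c' * residue A (e i0) := congrFun hcc' i0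
    rw [h2, he, map_one, mul_one]
    exact hc'
  -- the multiples
  have key : ∀ m : ℕ, ∃ w : Fin (N + 1) → A, w i0 = 1 ∧ Rep (m • P) (fun i => (w i : L)) ∧
      ∀ i, a * a ∣ w i - e i - m * (z i - e i) := by
    intro m
    induction m with
    | zero =>
      refine ⟨e, he, ?_, fun i => by simp⟩
      rw [zero_smul]
      exact h0
    | succ m ih =>
      obtain ⟨w, hw, hQ, haw⟩ := ih
      rw [succ_nsmul]
      exact ker_step A hφ hG he hz hw h0 hPz hQ hs hu (hze i1) hi1 m haw
  obtain ⟨w, hw, hQ, haw⟩ := key n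
  rw [hnP] at hQ
  have hwe : ∀ i, w i = e i := by
    intro i
    obtain ⟨c', hc', hcc'⟩ := h0.unique hQ
    have h2 : (w i0 : L) = c' * (e i0 : L) := congrFun hcc' i0
    rw [he, hw] at h2
    have h3 : (w i : L) = c' * (e i : L) := congrFun hcc' i
    apply Subtype.ext
    rw [h3]
    have h4 : c' = 1 := by simpa using h2.symm
    rw [h4, one_mul]
  have h5 := haw i1
  rw [hwe i1, sub_self, zero_sub, dvd_neg, ← ha] at h5
  have h6 : a * a ∣ a := by
    exact (hn.dvd_mul_left).1 h5
  have ha0 : a = 0 := by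
    by_contra hne0
    obtain ⟨t, ht⟩ := h6
    have h7 : a * (1 - a * t) = 0 := by linear_combination ht
    rcases mul_eq_zero.1 h7 with h8 | h8
    · exact hne0 h8
    · have h9 : IsUnit a := IsUnit.of_mul_eq_one t (by linear_combination -h8)
      exact (mem_maximalIdeal a).1 (hze i1) h9
  have hzz : z = e := by
    funext i
    have h10 := hi1 i
    rw [ha0, zero_dvd_iff] at h10
    exact sub_eq_zero.1 h10
  rw [hzz] at hPz
  exact hPz.ext h0

end

end Pool.Agent.Y729.AV
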