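import Mathlib

set_option autoImplicit false

/-! Divisibility of differences of values of polynomials. -/

namespace Pool.Agent.Y729.AV

open MvPolynomial

lemma dvd_sub {R A σ : Type*} [CommRing R] [CommRing A] (ψ : R →+* A) (a : A) {x y : σ → A}
    (h : ∀ i, a ∣ x i - y i) (p : MvPolynomial σ R) : a ∣ p.eval₂ ψ x - p.eval₂ ψ y := by
  induction p using MvPolynomial.induction_on with
  | C r => simp
  | add p q hp hq =>
    rw [eval₂_add, eval₂_add]
    have := dvd_add hp hq
    convert this using 1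
    ring
  | mul_X p i hp =>
    rw [eval₂_mul, eval₂_mul, eval₂_X, eval₂_X]
    have h1 : p.eval₂ ψ x * x i - p.eval₂ ψ y * y i =
      (p.eval₂ ψ x - p.eval₂ ψ y) * x i + p.eval₂ ψ y * (x i - y i) := by ring
    rw [h1]
    exact dvd_add (hp.mul_right _) ((h i).mul_left _)

lemma dvd_sub_sub {R A σ τ : Type*} [CommRing R] [CommRing A] (ψ : R →+* A) (a : A)
    {w e : σ → A} {z u : τ → A} (hw : ∀ i, a ∣ w i - e i) (hz : ∀ i, a ∣ z i - u i)
    (p : MvPolynomial (σ ⊕ τ) R) :
    a * a ∣ p.eval₂ ψ (Sum.elim w z) - p.eval₂ ψ (Sum.elim w u) - p.eval₂ ψ (Sum.elim e z) +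
      p.eval₂ ψ (Sum.elim e u) := by
  induction p using MvPolynomial.induction_on with
  | C r => simp
  | add p q hp hq =>
    simp only [eval₂_add]
    have := dvd_add hp hq
    convert this using 1
    ring
  | mul_X p i hp =>
    simp only [eval₂_mul, eval₂_X]
    cases i with
    | inl i =>
      simp only [Sum.elim_inl]
      have h1 : a ∣ p.eval₂ ψ (Sum.elim e z) - p.eval₂ ψ (Sum.elim e u) :=
        dvd_sub ψ a (by
          rintro (j | j)
          · simp
          · simpa using hz j) p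
      have h2 : p.eval₂ ψ (Sum.elim w z) * w i - p.eval₂ ψ (Sum.elim w u) * w i -
          p.eval₂ ψ (Sum.elim e z) * e i + p.eval₂ ψ (Sum.elim e u) * e i =
        (p.eval₂ ψ (Sum.elim w z) - p.eval₂ ψ (Sum.elim w u) - p.eval₂ ψ (Sum.elim e z) +
          p.eval₂ ψ (Sum.elim e u)) * w i +
        (p.eval₂ ψ (Sum.elim e z) - p.eval₂ ψ (Sum.elim e u)) * (w i - e i) := by ring
      rw [h2]
      exact dvd_add (hp.mul_right _) (mul_dvd_mul h1 (hw i))
    | inr i =>
      simp only [Sum.elim_inr]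
      have h1 : a ∣ p.eval₂ ψ (Sum.elim w u) - p.eval₂ ψ (Sum.elim e u) :=
        dvd_sub ψ a (by
          rintro (j | j)
          · simpa using hw j
          · simp) p
      have h2 : p.eval₂ ψ (Sum.elim w z) * z i - p.eval₂ ψ (Sum.elim w u) * u i -
          p.eval₂ ψ (Sum.elim e z) * z i + p.eval₂ ψ (Sum.elim e u) * u i =
        (p.eval₂ ψ (Sum.elim w z) - p.eval₂ ψ (Sum.elim w u) - p.eval₂ ψ (Sum.elim e z) +
          p.eval₂ ψ (Sum.elim e u)) * z i +
        (p.eval₂ ψ (Sum.elim w u) - p.eval₂ ψ (Sum.elim e u)) * (z i - u i) := by ring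
      rw [h2]
      exact dvd_add (hp.mul_right _) (mul_dvd_mul h1 (hz i))

end Pool.Agent.Y729.AV
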