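import Pool.Agent.Y729.AV.Defs
import Pool.Agent.Y729.AV.Poly

set_option autoImplicit false
set_option linter.unusedSectionVars false

/-! Reduction of the points of a projective group variety modulo a place. -/

namespace Pool.Agent.Y729.AV

open MvPolynomial IsLocalRing Family

section prim

variable {L : Type} [Field L] (A : ValuationSubring L)

lemma exists_prim {n : ℕ} {x : Fin n → L} (hx : x ≠ 0) :
    ∃ (y : Fin n → A) (j : Fin n), y j = 1 ∧ ∃ c : L, c ≠ 0 ∧ x = c • fun i => (y i : L) := by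
  have hne : (Finset.univ : Finset (Fin n)).Nonempty := by
    by_contra h
    apply hx
    funext i
    exact absurd ⟨i, Finset.mem_univ i⟩ h
  obtain ⟨j, -, hj⟩ := Finset.exists_max_image Finset.univ (fun i => A.valuation (x i)) hne
  have hxj : x j ≠ 0 := by
    intro h0
    apply hx
    funext i
    have h1 := hj i (Finset.mem_univ i)
    rw [h0, map_zero, le_zero_iff, map_eq_zero] at h1
    exact h1
  refine ⟨fun i => ⟨x i / x j, ?_⟩, j, ?_, x j, hxj, ?_⟩
  · rw [← ValuationSubring.valuation_le_one_iff, map_div₀]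
    exact div_le_one_of_le₀ (hj i (Finset.mem_univ i)) zero_le
  · exact Subtype.ext (div_self hxj)
  · funext i
    simp only [Pi.smul_apply, smul_eq_mul]
    rw [mul_div_cancel₀ _ hxj]

/-- some coordinate is a unit -/
def Prim {A : ValuationSubring L} {n : ℕ} (y : Fin n → A) : Prop := ∃ i, IsUnit (y i)

variable {A}

lemma prim_iff {n : ℕ} (y : Fin n → A) : Prim y ↔ (fun i => residue A (y i)) ≠ 0 := by
  constructor
  · rintro ⟨i, hi⟩ h
    have h1 := congrFun h i
    simp only [Pi.zero_apply] at h1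
    exact (residue_ne_zero_iff_isUnit (y i)).2 hi h1
  · intro h
    by_contra h1
    apply h
    funext i
    by_contra h2
    exact h1 ⟨i, (residue_ne_zero_iff_isUnit (y i)).1 h2⟩

lemma prim_coe_ne {n : ℕ} {y : Fin n → A} (hy : Prim y) : (fun i => (y i : L)) ≠ 0 := by
  intro h
  obtain ⟨i, hi⟩ := hy
  have h1 := congrFun h i
  simp only [Pi.zero_apply, ZeroMemClass.coe_eq_zero] at h1
  rw [h1] at hi
  exact not_isUnit_zero hi

lemma prim_unique {n : ℕ} {y z : Fin n → A} (hy : Prim y) (hz : Prim z) {c : L}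
    (h : (fun i => (z i : L)) = c • fun i => (y i : L)) :
    ∃ u : A, IsUnit u ∧ (u : L) = c ∧ z = u • y := by
  obtain ⟨j, v, hv⟩ := hy
  obtain ⟨i, w, hw⟩ := hz
  have hj : (z j : L) = c * (y j : L) := congrFun h j
  have hi : (z i : L) = c * (y i : L) := congrFun h i
  have hyv : ((v⁻¹ : Aˣ) : A) * y j = 1 := by rw [← hv, Units.inv_mul]
  have hzw : ((w⁻¹ : Aˣ) : A) * z i = 1 := by rw [← hw, Units.inv_mul]
  have hyv' : (((v⁻¹ : Aˣ) : A) : L) * (y j : L) = 1 := by exact_mod_cast hyv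
  have hzw' : (((w⁻¹ : Aˣ) : A) : L) * (z i : L) = 1 := by exact_mod_cast hzw
  have hc : ((z j * ((v⁻¹ : Aˣ) : A) : A) : L) = c := by
    push_cast
    rw [hj]
    linear_combination c * hyv'
  refine ⟨z j * ((v⁻¹ : Aˣ) : A), ?_, hc, ?_⟩
  · refine IsUnit.of_mul_eq_one (y i * ((w⁻¹ : Aˣ) : A)) ?_
    apply Subtype.ext
    push_cast
    have hc' : (z j : L) * (((v⁻¹ : Aˣ) : A) : L) = c := by exact_mod_cast hc
    rw [hc']
    linear_combination hzw' - (((w⁻¹ : Aˣ) : A) : L) * hi
  · funext l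
    apply Subtype.ext
    have h2 : (z l : L) = c * (y l : L) := congrFun h l
    rw [h2, ← hc]
    simp

end prim

section red

variable {L : Type} [Field L] (A : ValuationSubring L) {R : Type} [CommRing R] {N : ℕ}
  {𝒜 : Family R N} {φ : R →+* L} (hφ : ∀ r, φ r ∈ A)

/-- the structure map with values in the valuation ring -/
def psi : R →+* A := φ.codRestrict A hφ

/-- the structure map with values in the residue field -/
noncomputable def phiK : R →+* ResidueField A := (residue A).comp (psi A hφ)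

lemma coe_psi (r : R) : ((psi A hφ r : A) : L) = φ r := rfl

lemma phiK_apply (r : R) : phiK A hφ r = residue A (psi A hφ r) := rfl

lemma coe_eval {σ : Type} (p : MvPolynomial σ R) (y : σ → A) :
    ((p.eval₂ (psi A hφ) y : A) : L) = p.eval₂ φ fun i => (y i : L) := by
  have := MvPolynomial.eval₂_comp_left A.subtype (psi A hφ) y p
  exact this

lemma res_eval {σ : Type} (p : MvPolynomial σ R) (y : σ → A) :
    residue A (p.eval₂ (psi A hφ) y) = p.eval₂ (phiK A hφ) fun i => residue A (y i) := by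
  have := MvPolynomial.eval₂_comp_left (residue A) (psi A hφ) y p
  exact this

/-- the values of an addition law in the valuation ring -/
def lawA (s : Fin (N + 1) → MvPolynomial (Fin (N + 1) ⊕ Fin (N + 1)) R)
    (x y : Fin (N + 1) → A) : Fin (N + 1) → A :=
  fun i => (s i).eval₂ (psi A hφ) (Sum.elim x y)

lemma coe_law (s : Fin (N + 1) → MvPolynomial (Fin (N + 1) ⊕ Fin (N + 1)) R)
    (x y : Fin (N + 1) → A) :
    (fun i => (lawA A hφ s x y i : L)) = law φ s (fun i => (x i : L)) fun i => (y i : L) := by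
  funext i
  rw [lawA, coe_eval, law]
  congr 1
  funext j
  cases j <;> rfl

lemma res_law (s : Fin (N + 1) → MvPolynomial (Fin (N + 1) ⊕ Fin (N + 1)) R)
    (x y : Fin (N + 1) → A) :
    (fun i => residue A (lawA A hφ s x y i)) =
      law (phiK A hφ) s (fun i => residue A (x i)) fun i => residue A (y i) := by
  funext i
  rw [lawA, res_eval, law]
  congr 1
  funext j
  cases j <;> rfl

lemma exists_red (P : 𝒜.Pts φ) : ∃ Q : 𝒜.Pts (phiK A hφ), ∀ y : Fin (N + 1) → A, Prim y →
    Rep P (fun i => (y i : L)) → Rep Q fun i => residue A (y i) := by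
  obtain ⟨x, hx⟩ := exists_rep P
  obtain ⟨y0, j, hj, c, hc, rfl⟩ := exists_prim A hx.ne
  have hy0 : Prim y0 := ⟨j, by rw [hj]; exact isUnit_one⟩
  have hP : Rep P fun i => (y0 i : L) := by
    have h1 := hx.smul (inv_ne_zero hc)
    rwa [smul_smul, inv_mul_cancel₀ hc, one_smul] at h1
  obtain ⟨Q, hQ⟩ : ∃ Q : 𝒜.Pts (phiK A hφ), Rep Q fun i => residue A (y0 i) := by
    refine exists_pt ((prim_iff y0).1 hy0) ?_
    intro d hd f hf
    obtain ⟨u, rfl⟩ := residue_surjective d
    have hu : u ≠ 0 := by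
      rintro rfl
      exact hd (map_zero _)
    have h2 : f.eval₂ (psi A hφ) (u • y0) = 0 := by
      apply Subtype.ext
      rw [coe_eval]
      have h3 := (hP.smul (c := (u : L)) (by simpa using hu)).eqs f hf
      exact h3
    have h4 := res_eval A hφ f (u • y0)
    rw [h2, map_zero] at h4
    rw [h4]
    congr 1
  refine ⟨Q, fun y hy hPy => ?_⟩
  obtain ⟨c', hc', hcy⟩ := hP.unique hPy
  obtain ⟨u, hu, -, rfl⟩ := prim_unique hy0 hy hcy
  have h5 := hQ.smul (c := residue A u) ((residue_ne_zero_iff_isUnit u).2 hu)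
  convert h5 using 1
  funext i
  simp

/-- reduction of a point -/
noncomputable def red (P : 𝒜.Pts φ) : 𝒜.Pts (phiK A hφ) := (exists_red A hφ P).choose

lemma red_spec {P : 𝒜.Pts φ} {y : Fin (N + 1) → A} (hy : Prim y)
    (h : Rep P fun i => (y i : L)) : Rep (red A hφ P) fun i => residue A (y i) :=
  (exists_red A hφ P).choose_spec y hy h

variable [AddCommGroup (𝒜.Pts φ)] (hG : 𝒜.IsGroupLaw φ) [AddCommGroup (𝒜.Pts (phiK A hφ))]
  (hK : 𝒜.IsGroupLaw (phiK A hφ))

include hG hK

lemma prim_zero : Prim fun i => psi A hφ (𝒜.zero i) := by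
  rw [prim_iff]
  exact hK.zero.ne

lemma red_zero : red A hφ (0 : 𝒜.Pts φ) = 0 := by
  have h1 := red_spec A hφ (prim_zero A hφ hG hK) (P := (0 : 𝒜.Pts φ)) hG.zero
  exact h1.ext hK.zero

lemma exists_prim_rep (P : 𝒜.Pts φ) : ∃ y : Fin (N + 1) → A, Prim y ∧
    Rep P (fun i => (y i : L)) ∧ Rep (red A hφ P) fun i => residue A (y i) := by
  obtain ⟨x, hx⟩ := exists_rep P
  obtain ⟨y, j, hj, c, hc, rfl⟩ := exists_prim A hx.ne
  have hy : Prim y := ⟨j, by rw [hj]; exact isUnit_one⟩
  have hP : Rep P fun i => (y i : L) := by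
    have h1 := hx.smul (inv_ne_zero hc)
    rwa [smul_smul, inv_mul_cancel₀ hc, one_smul] at h1
  exact ⟨y, hy, hP, red_spec A hφ hy hP⟩

lemma red_add (P Q : 𝒜.Pts φ) : red A hφ (P + Q) = red A hφ P + red A hφ Q := by
  obtain ⟨x, hx, hPx, hPx'⟩ := exists_prim_rep A hφ hG hK P
  obtain ⟨y, hy, hQy, hQy'⟩ := exists_prim_rep A hφ hG hK Q
  obtain ⟨s, hs, hne⟩ := hK.complete _ _ _ _ hPx' hQy'
  have h1 := hK.add _ _ _ _ hPx' hQy' s hs hne
  have hprim : Prim (lawA A hφ s x y) := by
    rw [prim_iff, res_law]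
    exact hne
  have h2 : law φ s (fun i => (x i : L)) (fun i => (y i : L)) ≠ 0 := by
    rw [← coe_law A hφ]
    exact prim_coe_ne hprim
  have h3 := hG.add _ _ _ _ hPx hQy s hs h2
  rw [← coe_law A hφ] at h3
  have h4 := red_spec A hφ hprim h3
  rw [res_law] at h4
  exact h4.ext h1

/-- the reduction homomorphism -/
noncomputable def redHom : 𝒜.Pts φ →+ 𝒜.Pts (phiK A hφ) where
  toFun := red A hφ
  map_zero' := red_zero A hφ hG hK
  map_add' := red_add A hφ hG hK

end red

end Pool.Agent.Y729.AV
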