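import Pool.Agent.Y729.AV.Count

set_option autoImplicit false
set_option linter.unusedSectionVars false

/-! Exponential tails. -/

namespace Pool.Agent.Y729.AV

open MvPolynomial

section

variable {τ : Type} [Fintype τ] [DecidableEq τ]

/-- all primes up to `Q` with at most one exception have the property `P` -/
def AllBut (P : ℕ → Prop) (Q : ℕ) : Prop :=
  ∀ p q : ℕ, p.Prime → q.Prime → p ≠ q → p ≤ Q → q ≤ Q → P p ∨ P q

lemma AllBut.mono {P : ℕ → Prop} {Q Q' : ℕ} (h : AllBut P Q) (hQ : Q' ≤ Q) : AllBut P Q' :=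
  fun p q hp hq hpq h1 h2 => h p q hp hq hpq (h1.trans hQ) (h2.trans hQ)

lemma AllBut.exists {P : ℕ → Prop} {Q : ℕ} (h : AllBut P Q) :
    ∃ r ≤ Q, ∀ p ∈ (PQ Q).erase r, P p := by
  by_cases h0 : ∀ p ∈ PQ Q, P p
  · exact ⟨0, Nat.zero_le _, fun p hp => h0 p (Finset.mem_of_mem_erase hp)⟩
  · push Not at h0
    obtain ⟨r, hr, hPr⟩ := h0
    rw [mem_PQ] at hr
    refine ⟨r, hr.1, fun p hp => ?_⟩
    rw [Finset.mem_erase, mem_PQ] at hp
    rcases h p r hp.2.2 hr.2 hp.1 hp.2.1 hr.1 with h1 | h1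
    · exact h1
    · exact absurd h1 hPr

variable (n : MvPolynomial τ ℤ)

lemma prod_zer (hn : n ≠ 0) : ∃ C : ℝ, 0 < C ∧ ∀ Q r : ℕ, r ≤ Q →
    ∏ p ∈ (PQ Q).erase r, ((zer n p : ℝ) / p ^ Fintype.card τ) ≤
      C * (Q + 1) * Real.exp (-(Q / 4 : ℝ)) := by
  classical
  obtain ⟨P₀, hP₀⟩ := zer_le' n hn
  set d : ℕ := n.totalDegree with hd
  set K : ℕ := max P₀ (d ^ 2 + 1) with hK
  set A : ℝ := ∑ p ∈ PQ K, Real.log p with hA
  refine ⟨Real.exp ((A + 1000000) / 2), Real.exp_pos _, ?_⟩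
  intro Q r hr
  have hprime : ∀ p ∈ (PQ Q).erase r, p.Prime := fun p hp => (mem_PQ.1 (Finset.mem_of_mem_erase hp)).2
  -- the local factors
  have hloc : ∀ p ∈ (PQ Q).erase r, (zer n p : ℝ) / p ^ Fintype.card τ ≤
      Real.exp (-(if p ≤ K then 0 else Real.log p) / 2) := by
    intro p hp
    have hpp := hprime p hp
    have hp0 : (0 : ℝ) < p := by exact_mod_cast hpp.pos
    have hpc : (0 : ℝ) < (p : ℝ) ^ Fintype.card τ := by positivity
    split_ifs with h
    · simp only [neg_zero, zero_div, Real.exp_zero]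
      rw [div_le_one hpc]
      exact_mod_cast zer_le n p hpp
    · push Not at h
      have h1 : P₀ ≤ p := (le_max_left _ _).trans h.le
      have h2 : d ^ 2 + 1 ≤ p := (le_max_right _ _).trans h.le
      have h3 := hP₀ p hpp h1
      have h4 : (zer n p : ℝ) / p ^ Fintype.card τ ≤ d / p := by
        rw [div_le_iff₀ hpc]
        exact h3
      refine h4.trans ?_
      have h5 : Real.exp (-Real.log p / 2) = 1 / Real.sqrt p := by
        rw [neg_div, Real.exp_neg, ← Real.log_sqrt hp0.le, Real.exp_log (Real.sqrt_pos.2 hp0)]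
        rw [one_div]
      rw [h5]
      have h6 : (d : ℝ) ≤ Real.sqrt p := by
        apply Real.le_sqrt_of_sq_le
        have : d ^ 2 ≤ p := by omega
        exact_mod_cast this
      have hs : 0 < Real.sqrt p := Real.sqrt_pos.2 hp0
      rw [div_le_div_iff₀ hp0 hs, one_mul]
      calc (d : ℝ) * Real.sqrt p ≤ Real.sqrt p * Real.sqrt p := by gcongr
        _ = p := Real.mul_self_sqrt hp0.le
  have h1 : ∏ p ∈ (PQ Q).erase r, ((zer n p : ℝ) / p ^ Fintype.card τ) ≤
      Real.exp (-(∑ p ∈ (PQ Q).erase r, if p ≤ K then 0 else Real.log p) / 2) := by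
    rw [← Finset.sum_neg_distrib, Finset.sum_div, Real.exp_sum]
    refine Finset.prod_le_prod (fun p hp => ?_) hloc
    positivity
  refine h1.trans ?_
  -- the sum of the logarithms
  have h2 : ∑ p ∈ PQ Q, Real.log p ≤ (∑ p ∈ (PQ Q).erase r, if p ≤ K then 0 else Real.log p) +
      A + Real.log (Q + 1) := by
    have h3 : ∑ p ∈ PQ Q, Real.log p ≤ ∑ p ∈ (PQ Q).erase r, Real.log p + Real.log (Q + 1) := by
      by_cases hrm : r ∈ PQ Q
      · rw [← Finset.sum_erase_add _ _ hrm]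
        gcongr
        · have := (mem_PQ.1 hrm).2.pos
          exact_mod_cast this
        · have : r ≤ Q + 1 := by omega
          exact_mod_cast this
      · rw [Finset.erase_eq_of_notMem hrm]
        have : 0 ≤ Real.log ((Q : ℝ) + 1) := Real.log_nonneg (by
          have : (0 : ℝ) ≤ Q := Nat.cast_nonneg _
          linarith)
        linarith
    have h4 : ∑ p ∈ (PQ Q).erase r, Real.log p ≤
        (∑ p ∈ (PQ Q).erase r, if p ≤ K then 0 else Real.log p) + A := by
      have h5 : ∑ p ∈ (PQ Q).erase r, Real.log p =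
          (∑ p ∈ (PQ Q).erase r, if p ≤ K then 0 else Real.log p) +
          ∑ p ∈ ((PQ Q).erase r).filter (fun p => p ≤ K), Real.log p := by
        rw [Finset.sum_filter, ← Finset.sum_add_distrib]
        refine Finset.sum_congr rfl fun p _ => ?_
        split_ifs <;> simp
      rw [h5]
      gcongr
      rw [hA]
      refine Finset.sum_le_sum_of_subset_of_nonneg ?_ ?_
      · intro p hp
        rw [Finset.mem_filter, Finset.mem_erase, mem_PQ] at hp
        exact mem_PQ.2 ⟨hp.2, hp.1.2.2⟩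
      · intro p hp _
        exact Real.log_natCast_nonneg p
    linarith
  have h6 := cheb Q
  have hQ0 : (0 : ℝ) < (Q : ℝ) + 1 := by positivity
  have h7 : Real.log ((Q : ℝ) + 1) / 2 ≤ Real.log ((Q : ℝ) + 1) := by
    have : 0 ≤ Real.log ((Q : ℝ) + 1) := Real.log_nonneg (by
      have : (0 : ℝ) ≤ Q := Nat.cast_nonneg _
      linarith)
    linarith
  calc Real.exp (-(∑ p ∈ (PQ Q).erase r, if p ≤ K then 0 else Real.log p) / 2)
      ≤ Real.exp ((A + 1000000) / 2 + Real.log (Q + 1) + -(Q / 4 : ℝ)) := by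
        apply Real.exp_le_exp.2
        linarith
    _ = Real.exp ((A + 1000000) / 2) * (Q + 1) * Real.exp (-(Q / 4 : ℝ)) := by
        rw [Real.exp_add, Real.exp_add, Real.exp_log hQ0]

open Classical in
/-- the probability that all small primes but one divide the value -/
theorem tail (hn : n ≠ 0) : ∃ C : ℝ, 0 < C ∧ ∀ H Q : ℕ, 4 ^ Q ≤ 2 * H + 1 →
    (((bx τ H).filter fun w => AllBut (fun p => (p : ℤ) ∣ eval w n) Q).card : ℝ) ≤
      C * Real.exp (-(Q / 8 : ℝ)) * (2 * H + 1) ^ Fintype.card τ := by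
  obtain ⟨C, hC, h⟩ := prod_zer n hn
  refine ⟨C * 2 ^ Fintype.card τ * 1024, by positivity, ?_⟩
  intro H Q hQ
  have hsub : ((bx τ H).filter fun w => AllBut (fun p => (p : ℤ) ∣ eval w n) Q) ⊆
      (Finset.range (Q + 1)).biUnion fun r =>
        (bx τ H).filter fun w => ∀ p ∈ (PQ Q).erase r, (p : ℤ) ∣ eval w n := by
    intro w hw
    rw [Finset.mem_filter] at hw
    obtain ⟨r, hr, hr'⟩ := hw.2.exists
    rw [Finset.mem_biUnion]
    exact ⟨r, Finset.mem_range.2 (by omega), Finset.mem_filter.2 ⟨hw.1, hr'⟩⟩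
  have hprod : ∀ r, ∏ p ∈ (PQ Q).erase r, p ≤ 2 * H + 1 := by
    intro r
    refine le_trans ?_ hQ
    refine le_trans ?_ (primorial_le_four_pow Q)
    refine Finset.prod_le_prod_of_subset_of_one_le' (Finset.erase_subset _ _) ?_
    intro p hp _
    exact (mem_PQ.1 hp).2.one_le
  have h1 : (((bx τ H).filter fun w => AllBut (fun p => (p : ℤ) ∣ eval w n) Q).card : ℝ) ≤
      ∑ r ∈ Finset.range (Q + 1), (((bx τ H).filter fun w =>
        ∀ p ∈ (PQ Q).erase r, (p : ℤ) ∣ eval w n).card : ℝ) := by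
    exact_mod_cast (Finset.card_le_card hsub).trans Finset.card_biUnion_le
  have h2 : ∀ r ∈ Finset.range (Q + 1), (((bx τ H).filter fun w =>
        ∀ p ∈ (PQ Q).erase r, (p : ℤ) ∣ eval w n).card : ℝ) ≤
      (2 * (2 * H + 1)) ^ Fintype.card τ * (C * (Q + 1) * Real.exp (-(Q / 4 : ℝ))) := by
    intro r hr
    refine (crt_count n _ ?_ H (hprod r)).trans ?_
    · intro p hp
      exact (mem_PQ.1 (Finset.mem_of_mem_erase hp)).2
    · gcongr
      exact h Q r (by rw [Finset.mem_range] at hr; omega)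
  refine h1.trans ((Finset.sum_le_sum h2).trans ?_)
  rw [Finset.sum_const, Finset.card_range, nsmul_eq_mul]
  -- elementary estimate
  have hE : ((Q : ℝ) + 1) * (Q + 1) * Real.exp (-(Q / 4 : ℝ)) ≤ 1024 * Real.exp (-(Q / 8 : ℝ)) := by
    have h3 : ((Q : ℝ) + 1) / 32 ≤ Real.exp (Q / 16 : ℝ) := by
      have := Real.add_one_le_exp ((Q : ℝ) / 16)
      have hQ0 : (0 : ℝ) ≤ Q := Nat.cast_nonneg _
      linarith
    have h4 : ((Q : ℝ) + 1) * (Q + 1) ≤ 1024 * Real.exp (Q / 8 : ℝ) := by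
      have h5 : Real.exp (Q / 8 : ℝ) = Real.exp (Q / 16 : ℝ) * Real.exp (Q / 16 : ℝ) := by
        rw [← Real.exp_add]
        congr 1
        ring
      rw [h5]
      have h6 : (0 : ℝ) ≤ ((Q : ℝ) + 1) / 32 := by positivity
      have h7 := mul_le_mul h3 h3 h6 (Real.exp_pos _).le
      linarith
    have h8 : Real.exp (-(Q / 4 : ℝ)) = Real.exp (-(Q / 8 : ℝ)) * Real.exp (-(Q / 8 : ℝ)) := by
      rw [← Real.exp_add]
      congr 1
      ring
    have h9 : Real.exp (Q / 8 : ℝ) * Real.exp (-(Q / 8 : ℝ)) = 1 := by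
      rw [← Real.exp_add, add_neg_cancel, Real.exp_zero]
    rw [h8]
    calc ((Q : ℝ) + 1) * (Q + 1) * (Real.exp (-(Q / 8 : ℝ)) * Real.exp (-(Q / 8 : ℝ)))
        ≤ 1024 * Real.exp (Q / 8 : ℝ) * (Real.exp (-(Q / 8 : ℝ)) * Real.exp (-(Q / 8 : ℝ))) := by
          gcongr
      _ = 1024 * (Real.exp (Q / 8 : ℝ) * Real.exp (-(Q / 8 : ℝ))) * Real.exp (-(Q / 8 : ℝ)) := by
          ring
      _ = 1024 * Real.exp (-(Q / 8 : ℝ)) := by rw [h9, mul_one]
  push_cast
  calc ((Q : ℝ) + 1) * ((2 * (2 * (H : ℝ) + 1)) ^ Fintype.card τ *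
        (C * (Q + 1) * Real.exp (-(Q / 4 : ℝ))))
      = C * 2 ^ Fintype.card τ * (((Q : ℝ) + 1) * (Q + 1) * Real.exp (-(Q / 4 : ℝ))) *
        (2 * (H : ℝ) + 1) ^ Fintype.card τ := by
        rw [mul_pow]
        ring
    _ ≤ C * 2 ^ Fintype.card τ * (1024 * Real.exp (-(Q / 8 : ℝ))) *
        (2 * (H : ℝ) + 1) ^ Fintype.card τ := by gcongr
    _ = C * 2 ^ Fintype.card τ * 1024 * Real.exp (-(Q / 8 : ℝ)) *
        (2 * (H : ℝ) + 1) ^ Fintype.card τ := by ring

end

end Pool.Agent.Y729.AV
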