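import Pool.Agent.Y729.AV.Ker

set_option autoImplicit false
set_option linter.unusedSectionVars false

/-! The number of the torsion points is bounded by reduction at two places. -/

namespace Pool.Agent.Y729.AV

open MvPolynomial IsLocalRing Family

section

variable {L : Type} [Field L] {R : Type} [CommRing R] {N : ℕ}
  {𝒜 : Family R N} {φ : R →+* L} [AddCommGroup (𝒜.Pts φ)] (hG : 𝒜.IsGroupLaw φ)

/-- an integer prime to the residue characteristic is a unit -/
lemma isUnit_natCast {A : ValuationSubring L} {p : ℕ} (hp : p.Prime)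
    (hpA : (p : ResidueField A) = 0) {n : ℕ} (hn : ¬ p ∣ n) : IsUnit (n : A) := by
  rw [← residue_ne_zero_iff_isUnit, map_natCast]
  intro h
  have hc : Nat.Coprime p n := (Nat.Prime.coprime_iff_not_dvd hp).2 hn
  have h1 : ((Nat.gcd p n : ℕ) : ResidueField A) = 1 := by rw [hc]; simp
  have h2 : ((Nat.gcd p n : ℤ) : ResidueField A) = 0 := by
    rw [Nat.gcd_eq_gcd_ab]
    push_cast
    rw [hpA, h]
    simp
  have h3 : (1 : ResidueField A) = 0 := by
    rw [← h1]
    exact_mod_cast h2
  exact one_ne_zero h3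

variable (A B : ValuationSubring L) (hA : ∀ r, φ r ∈ A) (hB : ∀ r, φ r ∈ B)
  [AddCommGroup (𝒜.Pts (phiK A hA))] (hKA : 𝒜.IsGroupLaw (phiK A hA))
  [AddCommGroup (𝒜.Pts (phiK B hB))] (hKB : 𝒜.IsGroupLaw (phiK B hB))

include hG hKA hKB

/-- a torsion point is determined by its reductions at two places of different residue
characteristics -/
theorem torsion_eq_zero {p q : ℕ} (hp : p.Prime) (hq : q.Prime) (hpq : p ≠ q)
    (hpA : (p : ResidueField A) = 0) (hqB : (q : ResidueField B) = 0)
    {P : 𝒜.Pts φ} (hP : IsOfFinAddOrder P) (h1 : red A hA P = 0) (h2 : red B hB P = 0) :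
    P = 0 := by
  obtain ⟨n, hn, hnP⟩ := isOfFinAddOrder_iff_nsmul_eq_zero.1 hP
  obtain ⟨s, m, hm, rfl⟩ := Nat.exists_eq_pow_mul_and_not_dvd hn.ne' p hp.ne_one
  have h3 : p ^ s • P = 0 := by
    refine ker_torsion A hA hG hKA (P := p ^ s • P) (n := m) ?_ (isUnit_natCast hp hpA hm) ?_
    · have h4 := map_nsmul (redHom A hA hG hKA) (p ^ s) P
      have h5 : redHom A hA hG hKA P = 0 := h1
      rw [h5, smul_zero] at h4
      exact h4
    · rw [smul_smul, mul_comm]
      exact hnP
  refine ker_torsion B hB hG hKB h2 (isUnit_natCast hq hqB ?_) h3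
  intro h
  have h6 := hq.dvd_of_dvd_pow h
  exact hpq ((Nat.prime_dvd_prime_iff_eq hq hp).1 h6).symm

theorem torsion_encard {p q : ℕ} (hp : p.Prime) (hq : q.Prime) (hpq : p ≠ q)
    (hpA : (p : ResidueField A) = 0) (hqB : (q : ResidueField B) = 0)
    [Finite (𝒜.Pts (phiK A hA))] [Finite (𝒜.Pts (phiK B hB))] {X : ℕ}
    (hXA : Nat.card (𝒜.Pts (phiK A hA)) ≤ X) (hXB : Nat.card (𝒜.Pts (phiK B hB)) ≤ X) :
    𝒜.torsionCount φ ≤ (X ^ 2 : ℕ) := by
  classical
  let T : AddSubgroup (𝒜.Pts φ) := AddCommGroup.torsion (𝒜.Pts φ)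
  have hT : ∀ P, P ∈ T ↔ IsOfFinAddOrder P := fun P => AddCommGroup.mem_torsion _
  let f : 𝒜.Pts φ → (𝒜.Pts (phiK A hA)) × (𝒜.Pts (phiK B hB)) :=
    fun P => (red A hA P, red B hB P)
  have hinj : Set.InjOn f {P : 𝒜.Pts φ | IsOfFinAddOrder P} := by
    intro P hP Q hQ hPQ
    have e1' : red A hA P = red A hA Q := congrArg Prod.fst hPQ
    have e2' : red B hB P = red B hB Q := congrArg Prod.snd hPQ
    have hsub : IsOfFinAddOrder (P - Q) :=
      (hT _).1 (T.sub_mem ((hT P).2 hP) ((hT Q).2 hQ))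
    have h1 : red A hA (P - Q) = 0 := by
      have := map_sub (redHom A hA hG hKA) P Q
      have e3 : redHom A hA hG hKA P = redHom A hA hG hKA Q := e1'
      rw [e3, sub_self] at this
      exact this
    have h2 : red B hB (P - Q) = 0 := by
      have := map_sub (redHom B hB hG hKB) P Q
      have e3 : redHom B hB hG hKB P = redHom B hB hG hKB Q := e2'
      rw [e3, sub_self] at this
      exact this
    exact sub_eq_zero.1 (torsion_eq_zero hG A B hA hB hKA hKB hp hq hpq hpA hqB hsub h1 h2)
  have hcard : Nat.card ((𝒜.Pts (phiK A hA)) × (𝒜.Pts (phiK B hB))) ≤ X ^ 2 := by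
    rw [Nat.card_prod, pow_two]
    exact Nat.mul_le_mul hXA hXB
  have h1 : (f '' {P : 𝒜.Pts φ | IsOfFinAddOrder P}).encard =
      {P : 𝒜.Pts φ | IsOfFinAddOrder P}.encard := hinj.encard_image
  rw [torsionCount, ← h1]
  refine (Set.encard_le_encard (Set.subset_univ _)).trans ?_
  rw [Set.encard_univ]
  rw [ENat.card_eq_coe_natCard]
  exact_mod_cast hcard

end

section finite

variable {R : Type} [CommRing R] {N : ℕ} (𝒜 : Family R N) {F : Type} [Field F] (φ : R →+* F)

lemma pts_inj : Function.Injective (Subtype.val : 𝒜.Pts φ → Projectivization F (Fin (N + 1) → F)) :=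
  Subtype.val_injective

instance pts_finite [Finite F] : Finite (𝒜.Pts φ) := by
  have : Finite (Projectivization F (Fin (N + 1) → F)) := by
    refine Finite.of_injective (fun P : Projectivization F (Fin (N + 1) → F) => P.rep) ?_
    intro P Q h
    rw [← Projectivization.mk_rep P, ← Projectivization.mk_rep Q, Projectivization.mk_eq_mk_iff']
    exact ⟨1, by rw [one_smul]; exact h.symm⟩
  exact Finite.of_injective _ (pts_inj 𝒜 φ)

/-- the number of the points over a finite field -/
theorem card_pts_le [Finite F] : Nat.card (𝒜.Pts φ) ≤ (N + 1) * Nat.card F ^ N := by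
  have : Finite (Projectivization F (Fin (N + 1) → F)) := by
    refine Finite.of_injective (fun P : Projectivization F (Fin (N + 1) → F) => P.rep) ?_
    intro P Q h
    rw [← Projectivization.mk_rep P, ← Projectivization.mk_rep Q, Projectivization.mk_eq_mk_iff']
    exact ⟨1, by rw [one_smul]; exact h.symm⟩
  refine (Nat.card_le_card_of_injective _ (pts_inj 𝒜 φ)).trans ?_
  rw [Projectivization.card_of_finrank F (Fin (N + 1) → F) (n := N + 1) (by simp)]
  have h1 : ∀ i ∈ Finset.range (N + 1), Nat.card F ^ i ≤ Nat.card F ^ N := by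
    intro i hi
    rw [Finset.mem_range] at hi
    exact Nat.pow_le_pow_right Nat.card_pos (by omega)
  refine (Finset.sum_le_sum h1).trans ?_
  rw [Finset.sum_const, Finset.card_range, smul_eq_mul]

end finite

end Pool.Agent.Y729.AV
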