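import Pool.Agent.Y729.AV.BC
import Pool.Agent.Y706.Rac2

set_option autoImplicit false
set_option linter.unusedSectionVars false

/-! Families of points and points over ultrapowers. -/

namespace Pool.Agent.Y729.AV

open MvPolynomial Family Pool.Agent.Y706

section vectors

variable {α : Type} {U : Ultrafilter α} {kb : Type} [Field kb]

/-- the germ of a family of vectors -/
noncomputable def germ (U : Ultrafilter α) {n : ℕ} (x : α → Fin n → kb) : Fin n → UP U kb :=
  fun i => up U kb fun w => x w i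

lemma exists_germ {n : ℕ} (X : Fin n → UP U kb) : ∃ x : α → Fin n → kb, germ U x = X := by
  choose f hf using fun i => up_surj (U := U) (k := kb) (X i)
  exact ⟨fun w i => f i w, funext fun i => hf i⟩

lemma germ_eq {n : ℕ} {x y : α → Fin n → kb} :
    germ U x = germ U y ↔ ∀ᶠ w in (U : Filter α), x w = y w := by
  constructor
  · intro h
    have h1 : ∀ᶠ w in (U : Filter α), ∀ i, x w i = y w i := by
      rw [Filter.eventually_all]
      intro i
      exact up_eq.1 (congrFun h i)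
    filter_upwards [h1] with w hw
    exact funext hw
  · intro h
    funext i
    refine up_eq.2 ?_
    filter_upwards [h] with w hw
    rw [hw]

lemma germ_zero {n : ℕ} : germ U (fun _ : α => (0 : Fin n → kb)) = 0 := by
  funext i
  exact up_eq_zero.2 (Filter.Eventually.of_forall fun _ => rfl)

lemma germ_ne {n : ℕ} {x : α → Fin n → kb} :
    germ U x ≠ 0 ↔ ∀ᶠ w in (U : Filter α), x w ≠ 0 := by
  rw [← germ_zero (U := U) (kb := kb) (n := n), Ne, germ_eq, ← Ultrafilter.eventually_not]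

lemma germ_smul {n : ℕ} (c : α → kb) (x : α → Fin n → kb) :
    germ U (fun w => c w • x w) = (up U kb c) • germ U x := by
  funext i
  show up U kb (fun w => c w * x w i) = up U kb c * up U kb fun w => x w i
  rw [← map_mul]
  rfl

lemma germ_prop {n : ℕ} {x y : α → Fin n → kb} :
    (∃ c : UP U kb, c ≠ 0 ∧ germ U y = c • germ U x) ↔
      ∀ᶠ w in (U : Filter α), ∃ c : kb, c ≠ 0 ∧ y w = c • x w := by
  classical
  constructor
  · rintro ⟨c, hc, h⟩
    obtain ⟨c, rfl⟩ := up_surj c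
    rw [← germ_smul, germ_eq] at h
    have hc' : ∀ᶠ w in (U : Filter α), c w ≠ 0 := by
      rw [Ne, up_eq_zero, ← Ultrafilter.eventually_not] at hc
      exact hc
    filter_upwards [h, hc'] with w h1 h2
    exact ⟨c w, h2, h1⟩
  · intro h
    have h1 : ∀ w, ∃ c : kb, (∃ c : kb, c ≠ 0 ∧ y w = c • x w) → c ≠ 0 ∧ y w = c • x w := by
      intro w
      by_cases h2 : ∃ c : kb, c ≠ 0 ∧ y w = c • x w
      · obtain ⟨c, hc⟩ := h2
        exact ⟨c, fun _ => hc⟩
      · exact ⟨0, fun h3 => absurd h3 h2⟩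
    choose c hc using h1
    refine ⟨up U kb c, ?_, ?_⟩
    · rw [Ne, up_eq_zero, ← Ultrafilter.eventually_not]
      filter_upwards [h] with w hw
      exact (hc w hw).1
    · rw [← germ_smul, germ_eq]
      filter_upwards [h] with w hw
      exact (hc w hw).2

end vectors

section points

variable {α : Type} {U : Ultrafilter α} {kb : Type} [Field kb] {R : Type} [CommRing R] {N : ℕ}
  {𝒜 : Family R N} {φ : α → (R →+* kb)} {φU : R →+* UP U kb}
  (hφU : ∀ r, φU r = up U kb fun w => φ w r)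

include hφU

lemma eval_up {τ : Type} (f : MvPolynomial τ R) (x : α → τ → kb) :
    f.eval₂ φU (fun i => up U kb fun w => x w i) = up U kb fun w => f.eval₂ (φ w) (x w) := by
  have h1 : φU = (up U kb).comp (RingHom.pi φ) := RingHom.ext hφU
  rw [h1]
  have h2 := MvPolynomial.eval₂_comp_left (up U kb) (RingHom.pi φ)
    (fun (i : τ) (w : α) => x w i) f
  refine Eq.trans ?_ (h2.symm.trans ?_)
  · rfl
  · congr 1
    funext w
    have h3 := MvPolynomial.eval₂_comp_left (Pi.evalRingHom (fun _ : α => kb) w) (RingHom.pi φ)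
      (fun (i : τ) (w : α) => x w i) f
    exact h3

lemma law_up (s : Fin (N + 1) → MvPolynomial (Fin (N + 1) ⊕ Fin (N + 1)) R)
    (x y : α → Fin (N + 1) → kb) :
    law φU s (germ U x) (germ U y) = germ U fun w => law (φ w) s (x w) (y w) := by
  funext i
  have h1 := eval_up hφU (s i) (fun w => Sum.elim (x w) (y w))
  show (s i).eval₂ φU (Sum.elim (germ U x) (germ U y)) = _
  have h2 : (Sum.elim (germ U x) (germ U y) : Fin (N + 1) ⊕ Fin (N + 1) → UP U kb) =
      fun i => up U kb fun w => Sum.elim (x w) (y w) i := by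
    funext j
    cases j <;> rfl
  rw [h2, h1]
  rfl

/-- a family of points gives a point over the ultrapower -/
lemma germ_of_rep {x : α → Fin (N + 1) → kb}
    (h : ∀ᶠ w in (U : Filter α), ∃ Q : 𝒜.Pts (φ w), Rep Q (x w)) :
    ∃ P : 𝒜.Pts φU, Rep P (germ U x) := by
  refine exists_pt' (germ_ne.2 ?_) ?_
  · filter_upwards [h] with w hw
    obtain ⟨Q, hQ⟩ := hw
    exact hQ.ne
  · intro f hf
    have h1 := eval_up hφU f x
    refine Eq.trans h1 (up_eq_zero.2 ?_)
    filter_upwards [h] with w hw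
    obtain ⟨Q, hQ⟩ := hw
    exact hQ.eqs f hf

/-- a point over the ultrapower gives a family of points -/
lemma rep_of_germ [IsNoetherianRing R] {x : α → Fin (N + 1) → kb} {P : 𝒜.Pts φU}
    (hP : Rep P (germ U x)) :
    ∀ᶠ w in (U : Filter α), ∃ Q : 𝒜.Pts (φ w), Rep Q (x w) := by
  classical
  have hfg : (Ideal.span 𝒜.eqs).FG := IsNoetherian.noetherian _
  obtain ⟨S, hS, hspan⟩ : ∃ S : Finset (MvPolynomial (Fin (N + 1)) R), (S : Set _) ⊆ 𝒜.eqs ∧
      Ideal.span (S : Set (MvPolynomial (Fin (N + 1)) R)) = Ideal.span 𝒜.eqs := by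
    obtain ⟨S, hS, h⟩ := (Submodule.fg_span_iff_fg_span_finset_subset 𝒜.eqs).1 hfg
    exact ⟨S, hS, h.symm⟩
  have h1 : ∀ᶠ w in (U : Filter α), ∀ f ∈ S, f.eval₂ (φ w) (x w) = 0 := by
    rw [Filter.eventually_all_finset]
    intro f hf
    have h2 := hP.eqs f (hS hf)
    have h3 := eval_up hφU f x
    exact up_eq_zero.1 (h3.symm.trans h2)
  filter_upwards [h1, germ_ne.1 hP.ne] with w hw hne
  refine exists_pt' hne fun f hf => ?_
  have h4 : f ∈ Ideal.span (S : Set (MvPolynomial (Fin (N + 1)) R)) := by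
    rw [hspan]
    exact Ideal.subset_span hf
  have h5 : Ideal.span (S : Set (MvPolynomial (Fin (N + 1)) R)) ≤
      RingHom.ker (eval₂Hom (φ w) (x w)) := by
    rw [Ideal.span_le]
    intro g hg
    exact hw g hg
  exact h5 h4

lemma zero_germ [AddCommGroup (𝒜.Pts φU)] (hG : 𝒜.IsGroupLaw φU) :
    Rep (0 : 𝒜.Pts φU) (germ U fun w i => φ w (𝒜.zero i)) := by
  have h1 := hG.zero
  have h2 : (fun i => φU (𝒜.zero i)) = germ U fun w i => φ w (𝒜.zero i) := by
    funext i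
    exact hφU _
  rw [h2] at h1
  exact h1

/-- multiples -/
lemma mult_germ [AddCommGroup (𝒜.Pts φU)] (hG : 𝒜.IsGroupLaw φU) {P : 𝒜.Pts φU}
    {x : α → Fin (N + 1) → kb} (hP : Rep P (germ U x)) (m : ℕ) :
    ∃ z : α → Fin (N + 1) → kb, Rep (m • P) (germ U z) ∧ ∀ᶠ w in (U : Filter α),
      ∀ (_ : AddCommGroup (𝒜.Pts (φ w))), 𝒜.IsGroupLaw (φ w) → ∀ Q : 𝒜.Pts (φ w), Rep Q (x w) →
        Rep (m • Q) (z w) := by
  induction m with
  | zero =>
    refine ⟨fun w i => φ w (𝒜.zero i), ?_, Filter.Eventually.of_forall fun w _ hw Q _ => ?_⟩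
    · rw [zero_smul]
      exact zero_germ hφU hG
    · rw [zero_smul]
      exact hw.zero
  | succ m ih =>
    obtain ⟨z, hz, hzw⟩ := ih
    obtain ⟨s, hs, hne⟩ := hG.complete _ _ _ _ hz hP
    have h1 := hG.add _ _ _ _ hz hP s hs hne
    rw [law_up hφU] at h1 hne
    refine ⟨fun w => law (φ w) s (z w) (x w), ?_, ?_⟩
    · rw [succ_nsmul]
      exact h1
    · filter_upwards [hzw, germ_ne.1 hne] with w hw hw'
      intro G hGw Q hQ
      rw [succ_nsmul]
      exact hGw.add _ _ _ _ (hw G hGw Q hQ) hQ s hs hw'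

lemma mult_zero_of [AddCommGroup (𝒜.Pts φU)] (hG : 𝒜.IsGroupLaw φU) {P : 𝒜.Pts φU}
    {x : α → Fin (N + 1) → kb} (hP : Rep P (germ U x)) {m : ℕ} (h : m • P = 0) :
    ∀ᶠ w in (U : Filter α), ∀ (_ : AddCommGroup (𝒜.Pts (φ w))), 𝒜.IsGroupLaw (φ w) →
      ∀ Q : 𝒜.Pts (φ w), Rep Q (x w) → m • Q = 0 := by
  obtain ⟨z, hz, hzw⟩ := mult_germ hφU hG hP m
  rw [h] at hz
  have h1 := (zero_germ hφU hG).unique hz
  have h2 := germ_prop.1 h1
  filter_upwards [hzw, h2] with w hw hw'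
  intro G hGw Q hQ
  obtain ⟨c, hc, hcc⟩ := hw'
  exact (hGw.zero.ext' (hw G hGw Q hQ) hc hcc).symm

lemma mult_zero [AddCommGroup (𝒜.Pts φU)] (hG : 𝒜.IsGroupLaw φU) {P : 𝒜.Pts φU}
    {x : α → Fin (N + 1) → kb} (hP : Rep P (germ U x)) {m : ℕ}
    (h : ∀ᶠ w in (U : Filter α), ∃ (_ : AddCommGroup (𝒜.Pts (φ w))), 𝒜.IsGroupLaw (φ w) ∧
      ∃ Q : 𝒜.Pts (φ w), Rep Q (x w) ∧ m • Q = 0) : m • P = 0 := by
  obtain ⟨z, hz, hzw⟩ := mult_germ hφU hG hP m
  have h1 : ∃ c : UP U kb, c ≠ 0 ∧ germ U z = c • germ U fun w i => φ w (𝒜.zero i) := by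
    rw [germ_prop]
    filter_upwards [h, hzw] with w hw hw'
    obtain ⟨G, hGw, Q, hQ, hQ0⟩ := hw
    have h2 := hw' G hGw Q hQ
    rw [hQ0] at h2
    exact hGw.zero.unique h2
  obtain ⟨c, hc, hcc⟩ := h1
  exact ((zero_germ hφU hG).ext' hz hc hcc).symm

end points

section finite

/-- the points killed by `n` over an algebraically closed field are finite in number -/
theorem finite_torsion {Kb : Type} [Field Kb] [IsAlgClosed Kb] {R : Type} [CommRing R] {N : ℕ}
    {𝒜 : Family R N} (h𝒜 : 𝒜.IsGroupFamily) {φ : R →+* Kb} (hφ : φ 𝒜.disc ≠ 0)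
    [AddCommGroup (𝒜.Pts φ)] (hG : 𝒜.IsGroupLaw φ) {n : ℕ} (hn : (n : Kb) ≠ 0) :
    {P : 𝒜.Pts φ | n • P = 0}.Finite := by
  classical
  by_contra hinf
  have hinf' : {P : 𝒜.Pts φ | n • P = 0}.Infinite := hinf
  let e : ℕ ↪ {P : 𝒜.Pts φ | n • P = 0} := hinf'.natEmbedding _
  let U : Ultrafilter ℕ := Filter.hyperfilter ℕ
  let σ : Kb →+* UP U Kb := (up U Kb).comp (Pi.constRingHom ℕ Kb)
  have hσ : ∀ r, (σ.comp φ) r = up U Kb fun _ => φ r := fun r => rfl
  have hdisc : (σ.comp φ) 𝒜.disc ≠ 0 := by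
    rw [RingHom.comp_apply]
    exact (map_ne_zero σ).2 hφ
  obtain ⟨_, hG'⟩ := h𝒜.group (UP U Kb) (σ.comp φ) hdisc
  choose x hx using fun i : ℕ => exists_rep (e i).1
  obtain ⟨P, hP⟩ := germ_of_rep (𝒜 := 𝒜) (φ := fun _ : ℕ => φ) hσ (x := x)
    (Filter.Eventually.of_forall fun i => ⟨(e i).1, hx i⟩)
  have hnP : n • P = 0 := by
    refine mult_zero (𝒜 := 𝒜) (φ := fun _ : ℕ => φ) hσ hG' hP
      (Filter.Eventually.of_forall fun i => ⟨inferInstance, hG, (e i).1, hx i, (e i).2⟩)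
  obtain ⟨P0, hP0⟩ := rigid h𝒜 σ hφ hG hG' hn hnP
  obtain ⟨z, hz⟩ := exists_rep P0
  have h1 := bc_spec σ hz
  rw [hP0] at h1
  have h2 : (fun i => σ (z i)) = germ U fun _ : ℕ => z := rfl
  rw [h2] at h1
  have h3 := germ_prop.1 (h1.unique hP)
  have h4 : ∀ᶠ i in (U : Filter ℕ), (e i).1 = P0 := by
    filter_upwards [h3] with i hi
    obtain ⟨c, hc, hcc⟩ := hi
    exact (hz.ext' (hx i) hc hcc).symm
  have h5 : {i : ℕ | (e i).1 = P0}.Subsingleton := by
    intro i hi j hj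
    exact e.injective (Subtype.ext (hi.trans hj.symm))
  exact Set.Finite.notMem_hyperfilter h5.finite h4

end finite

end Pool.Agent.Y729.AV
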